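import Pool.Agent.Y233.Fr.Full

/-!
Forms of equal degree: for at least `2 ^ n` of them the predicted value is zero in a good degree.
-/

set_option autoImplicit false

namespace Pool.Agent.Y233.Fr

open Finset MvPolynomial Pool.Agent.TH206.Fro Pool.Agent.TH176.FB

lemma good_half {n r k : ℕ} {d : Fin r → ℕ} (hn : 1 ≤ n) (h : ∀ i, 2 * k + n ≤ 4 * d i) :
    Good n d k := by
  intro i
  have hi := h i
  refine ⟨by omega, ?_⟩
  rcases Nat.lt_or_ge (d i) k with h1 | h1
  · right; left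
    obtain ⟨j, hj⟩ : ∃ j, k = d i + j := ⟨k - d i, by omega⟩
    obtain ⟨e, he⟩ : ∃ e, d i = j + e := ⟨d i - j, by omega⟩
    rw [hj, he, show j + e + j - (j + e) = j by omega,
      show 2 * (j + e) - (j + e + j) = e by omega]
    have h2 : n ≤ 2 * e := by omega
    calc n * j ≤ 2 * e * j := Nat.mul_le_mul_right _ h2
      _ = e * (2 * j) := by ring
      _ ≤ e * (j + e + j - 1) := Nat.mul_le_mul_left _ (by omega)
  · exact Or.inl h1

lemma good_three {n r k : ℕ} {d : Fin r → ℕ} (h : ∀ i, 2 * k + 1 ≤ 3 * d i) : Good n d k := by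
  intro i
  have hi := h i
  refine ⟨by omega, ?_⟩
  rcases Nat.lt_or_ge (d i) k with h1 | h1
  · right
    by_cases h2 : 2 * k + 2 ≤ n + 2 * d i
    · exact Or.inr (Or.inl h2)
    · left
      obtain ⟨j, hj⟩ : ∃ j, k = d i + j := ⟨k - d i, by omega⟩
      obtain ⟨e, he⟩ : ∃ e, d i = j + e := ⟨d i - j, by omega⟩
      rw [hj, he, show j + e + j - (j + e) = j by omega,
        show 2 * (j + e) - (j + e + j) = e by omega]
      have h3 : n ≤ 2 * e := by omega
      calc n * j ≤ 2 * e * j := Nat.mul_le_mul_right _ h3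
        _ = e * (2 * j) := by ring
        _ ≤ e * (j + e + j - 1) := Nat.mul_le_mul_left _ (by omega)
  · exact Or.inl h1

lemma co_nonpos {n r δ D : ℕ} {d : Fin r → ℕ} (hn : 1 ≤ n) (hd : ∀ i, d i = δ) (hD : D < 2 * δ)
    (hD2 : δ ≤ D) (h : (Mon n D).card ≤ r * (Mon n (D - δ)).card) : co n d D ≤ 0 := by
  rw [co_thm n r D d hn (fun i => by rw [hd]; omega) D le_rfl]
  have h2 : ∀ i ∈ (Finset.univ : Finset (Fin r)),
      (if d i ≤ D then ((Mon n (D - d i)).card : ℤ) else 0) = ((Mon n (D - δ)).card : ℤ) := by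
    intro i _
    rw [hd, if_pos hD2]
  rw [Finset.sum_congr rfl h2, Finset.sum_const, Finset.card_univ, Fintype.card_fin,
    nsmul_eq_mul]
  have h3 : ((Mon n D).card : ℤ) ≤ (r : ℤ) * ((Mon n (D - δ)).card : ℤ) := by exact_mod_cast h
  linarith

/-- The condition on `k = D - δ`. -/
def GK (n δ k : ℕ) : Prop := k * n + (δ - k) ≤ (δ - k) * (δ + k) ∨ 2 * k + 2 ≤ n

/-- If `k` satisfies the condition, then all degrees up to `δ + k` are good. -/
lemma good_of_GK {n r δ k : ℕ} {d : Fin r → ℕ} (hd : ∀ i, d i = δ) (hk : k < δ)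
    (h : GK n δ k) : ∀ D ≤ δ + k, Good n d D := by
  intro D hD i
  rw [hd]
  refine ⟨by omega, ?_⟩
  rcases Nat.lt_or_ge δ D with h1 | h1
  · right
    rcases h with h | h
    · left
      obtain ⟨j, rfl⟩ : ∃ j, D = δ + j := ⟨D - δ, by omega⟩
      obtain ⟨a, rfl⟩ : ∃ a, k = j + a := ⟨k - j, by omega⟩
      obtain ⟨e, rfl⟩ : ∃ e, δ = j + a + e := ⟨δ - (j + a), by omega⟩
      rw [show j + a + e - (j + a) = e by omega] at h
      rw [show j + a + e + j - (j + a + e) = j by omega,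
        show 2 * (j + a + e) - (j + a + e + j) = a + e by omega]
      obtain ⟨c, hc, hc2⟩ : ∃ c, j + a + e + j - 1 = c ∧ c + 1 = 2 * j + a + e :=
        ⟨_, rfl, by omega⟩
      rw [hc]
      -- `j n ≤ (a + e) c`
      have hj : 1 ≤ j := by omega
      have he : 1 ≤ e := by omega
      have h2 : (j + a) * n + e ≤ e * (2 * j + 2 * a + e) := by
        calc (j + a) * n + e ≤ e * (j + a + e + (j + a)) := h
          _ = _ := by ring
      -- multiply by `j` and compare
      have h3 : j * ((j + a) * n + e) ≤ j * (e * (2 * j + 2 * a + e)) := Nat.mul_le_mul_left _ h2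
      have h4 : j * (e * (2 * j + 2 * a + e)) ≤ (j + a) * ((a + e) * c) + j * e := by
        have h5 : (a + e) * (c + 1) = (a + e) * (2 * j + a + e) := by rw [hc2]
        zify at h5 hc2 ⊢
        have h6 : (c : ℤ) = 2 * j + a + e - 1 := by linarith
        rw [h6]
        have hj' : (1 : ℤ) ≤ j := by exact_mod_cast hj
        have he' : (1 : ℤ) ≤ e := by exact_mod_cast he
        have ha' : (0 : ℤ) ≤ a := Int.natCast_nonneg _
        have h7 : ((j : ℤ) + a) * ((a + e) * (2 * j + a + e - 1)) + j * e -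
            j * (e * (2 * j + 2 * a + e)) =
            a * (j * (2 * j + a + e - 1) + (a + e) * (2 * j + a + e - 1) - j * e) := by ring
        have h8 : (0 : ℤ) ≤ a * (j * (2 * j + a + e - 1) + (a + e) * (2 * j + a + e - 1) -
            j * e) := by
          apply mul_nonneg ha'
          have h9 : (0 : ℤ) ≤ j * (2 * j + a - 1) := mul_nonneg (by linarith) (by linarith)
          have h10 : (0 : ℤ) ≤ (a + e) * (2 * j + a + e - 1) :=
            mul_nonneg (by linarith) (by linarith)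
          nlinarith
        linarith
      have h5 : (j + a) * (j * n) ≤ (j + a) * ((a + e) * c) := by
        have h6 : (j + a) * (j * n) = j * ((j + a) * n) := by ring
        rw [Nat.mul_add] at h3
        omega
      have h6 := Nat.le_of_mul_le_mul_left h5 (by omega)
      rwa [Nat.mul_comm n j]
    · right; left
      omega
  · exact Or.inl h1

/-- All degrees, if there are sufficiently many forms. -/
lemma all_of_GK {n r δ k : ℕ} {d : Fin r → ℕ} (hn : 1 ≤ n) (hd : ∀ i, d i = δ) (hk : k < δ)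
    (h : GK n δ k) (hN : (Mon n (δ + k)).card ≤ r * (Mon n k).card) (j : ℕ) :
    Good n d j ∨ ∃ D ≤ j, Good n d D ∧ co n d D ≤ 0 := by
  have hg := good_of_GK hd hk h
  rcases Nat.lt_or_ge j (δ + k) with hj | hj
  · exact Or.inl (hg j hj.le)
  · refine Or.inr ⟨δ + k, hj, hg _ le_rfl, co_nonpos hn hd (by omega) (by omega) ?_⟩
    rwa [Nat.add_sub_cancel_left]

/-! ### The ratio -/

lemma N_row (M z : ℕ) : N (M + 1) z * (M + 1) = N M z * (z + M + 1) := by
  unfold N
  have h := Nat.add_one_mul_choose_eq (z + M) M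
  rw [show z + (M + 1) = z + M + 1 by ring, ← h, mul_comm]

/-- at most twice as many in every step -/
lemma N_double (M a k : ℕ) (h : a ≤ 2 * k + 1) : N M a ≤ 2 ^ M * N M k := by
  induction M with
  | zero => simp [N]
  | succ M ih =>
    refine Nat.le_of_mul_le_mul_right ?_ (Nat.succ_pos M)
    rw [Nat.succ_eq_add_one, N_row, mul_assoc, N_row, pow_succ]
    calc N M a * (a + M + 1) ≤ (2 ^ M * N M k) * (2 * (k + M + 1)) :=
          Nat.mul_le_mul ih (by omega)
      _ = _ := by ring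

lemma N_pow (M k e : ℕ) : N M (2 * k + e) * k ^ M ≤ (2 * k + e) ^ M * N M k := by
  induction M with
  | zero => simp [N]
  | succ M ih =>
    refine Nat.le_of_mul_le_mul_right ?_ (Nat.succ_pos M)
    have e1 : N (M + 1) (2 * k + e) * k ^ (M + 1) * (M + 1) =
        N (M + 1) (2 * k + e) * (M + 1) * k ^ (M + 1) := by ring
    have e2 : (2 * k + e) ^ (M + 1) * N (M + 1) k * (M + 1) =
        (2 * k + e) ^ (M + 1) * (N (M + 1) k * (M + 1)) := by ring
    rw [Nat.succ_eq_add_one, e1, e2, N_row, N_row]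
    have e3 : (2 * k + e + M + 1) * k ≤ (2 * k + e) * (k + M + 1) := by nlinarith
    calc N M (2 * k + e) * (2 * k + e + M + 1) * k ^ (M + 1) =
          (N M (2 * k + e) * k ^ M) * ((2 * k + e + M + 1) * k) := by ring
      _ ≤ ((2 * k + e) ^ M * N M k) * ((2 * k + e) * (k + M + 1)) := Nat.mul_le_mul ih e3
      _ = _ := by ring

/-- The ratio is at most `2 ^ M` where it increases. -/
lemma N_inc (M e z : ℕ) (he : 2 * (z + 1) * e + e * e ≤ (z + 1) * (M + 1) + e) :
    N M (2 * z + e) ≤ 2 ^ M * N M z := by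
  have hmono : ∀ y, z ≤ y → 2 * (y + 1) * e + e * e ≤ (y + 1) * (M + 1) + e := by
    intro y hy
    obtain ⟨a, rfl⟩ : ∃ a, y = z + a := ⟨y - z, by omega⟩
    rcases le_or_gt (2 * e) (M + 1) with h1 | h1
    · have h2 : a * (2 * e) ≤ a * (M + 1) := Nat.mul_le_mul_left _ h1
      nlinarith
    · exfalso
      have h2 : (z + 1) * (M + 1 + 1) ≤ (z + 1) * (2 * e) := Nat.mul_le_mul_left _ h1
      have h3 : e ≤ e * e := Nat.le_mul_of_pos_left e (by omega)
      nlinarith
  -- the ratio increases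
  have hinc : ∀ y, z ≤ y → N M (2 * z + e) * N M y ≤ N M z * N M (2 * y + e) := by
    intro y hy
    induction y, hy using Nat.le_induction with
    | base => rw [mul_comm]
    | succ y hy ih =>
      have h1 := ratio_step' M e y (hmono y hy)
      have h2 := N_pos M (2 * y + e)
      refine Nat.le_of_mul_le_mul_right ?_ (N_pos M y)
      refine Nat.le_of_mul_le_mul_right ?_ h2
      calc N M (2 * z + e) * N M (y + 1) * N M y * N M (2 * y + e)
          = (N M (2 * z + e) * N M y) * (N M (2 * y + e) * N M (y + 1)) := by ring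
        _ ≤ (N M z * N M (2 * y + e)) * (N M y * N M (2 * (y + 1) + e)) :=
            Nat.mul_le_mul ih h1
        _ = _ := by ring
  -- the limit
  have hlim : Filter.Tendsto (fun y : ℕ => (2 + (e : ℝ) / (y : ℝ)) ^ M) Filter.atTop
      (nhds ((2 + 0) ^ M)) :=
    (tendsto_const_nhds.add (tendsto_const_div_atTop_nhds_zero_nat (e : ℝ))).pow M
  rw [add_zero] at hlim
  have hz : (0 : ℝ) < N M z := by exact_mod_cast N_pos M z
  have hle : (N M (2 * z + e) : ℝ) / N M z ≤ 2 ^ M := by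
    refine ge_of_tendsto hlim ?_
    filter_upwards [Filter.eventually_ge_atTop (max z 1)] with y hy
    have hy1 : 1 ≤ y := (le_max_right _ _).trans hy
    have h1 := hinc y ((le_max_left _ _).trans hy)
    have h2 := N_pow M y e
    have hy0 : (0 : ℝ) < y := by exact_mod_cast hy1
    have hNy : (0 : ℝ) < N M y := by exact_mod_cast N_pos M y
    have h3 : (N M (2 * z + e) : ℝ) * N M y ≤ N M z * N M (2 * y + e) := by exact_mod_cast h1
    have h4 : (N M (2 * y + e) : ℝ) * y ^ M ≤ (2 * y + e) ^ M * N M y := by exact_mod_cast h2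
    rw [div_le_iff₀ hz]
    have h5 : (2 + (e : ℝ) / y) ^ M * y ^ M = (2 * y + e) ^ M := by
      rw [← mul_pow]
      congr 1
      field_simp
    have hyM : (0 : ℝ) < y ^ M := by positivity
    have h6 : (N M (2 * z + e) : ℝ) * (N M y * y ^ M) ≤
        ((2 + (e : ℝ) / y) ^ M * N M z) * (N M y * y ^ M) := by
      calc (N M (2 * z + e) : ℝ) * (N M y * y ^ M) = (N M (2 * z + e) * N M y) * y ^ M := by ring
        _ ≤ (N M z * N M (2 * y + e)) * y ^ M := mul_le_mul_of_nonneg_right h3 hyM.le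
        _ = N M z * (N M (2 * y + e) * y ^ M) := by ring
        _ ≤ N M z * ((2 * y + e) ^ M * N M y) := mul_le_mul_of_nonneg_left h4 hz.le
        _ = _ := by rw [← h5]; ring
    exact le_of_mul_le_mul_right h6 (by positivity)
  rw [div_le_iff₀ hz] at hle
  exact_mod_cast hle

/-- There is always a good degree with ratio at most `2 ^ n`. -/
theorem exists_k (M δ : ℕ) (hδ : 1 ≤ δ) :
    ∃ k < δ, GK (M + 1) δ k ∧ N M (δ + k) ≤ 2 ^ (M + 1) * N M k := by
  classical
  rcases Nat.lt_or_ge (M + 1) (2 * δ) with hB | hA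
  · -- `2 δ > n`
    let P : ℕ → Prop := fun e => 1 ≤ e ∧ e ≤ δ ∧
      (δ - e) * (M + 1) + e ≤ 2 * (δ - e) * e + e * e
    have hex : ∃ e, P e := ⟨δ, hδ, le_rfl, by
      rw [Nat.sub_self]
      nlinarith⟩
    obtain ⟨e, he⟩ : ∃ e, e = Nat.find hex := ⟨_, rfl⟩
    have hPe : P e := he ▸ Nat.find_spec hex
    have hmin : ∀ e' < e, ¬ P e' := fun e' h' => Nat.find_min hex (he ▸ h')
    obtain ⟨he1, he2, he3⟩ := hPe
    obtain ⟨k, hk⟩ : ∃ k, δ = k + e := ⟨δ - e, by omega⟩
    rw [show δ - e = k by omega] at he3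
    rcases Nat.lt_or_ge k ((M + 1) / 2 - 1) with hkk | hkk
    · -- the degree given by `2 k + 2 ≤ n`
      obtain ⟨k', hk'⟩ : ∃ k', k' = (M + 1) / 2 - 1 := ⟨_, rfl⟩
      rw [← hk'] at hkk
      obtain ⟨e', he'⟩ : ∃ e', δ = k' + e' := ⟨δ - k', by omega⟩
      refine ⟨k', by omega, Or.inr (by omega), ?_⟩
      have h1 : ¬ P e' := hmin e' (by omega)
      have h2 : ¬ (k' * (M + 1) + e' ≤ 2 * k' * e' + e' * e') := by
        intro h3
        apply h1
        refine ⟨by omega, by omega, ?_⟩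
        rw [show δ - e' = k' by omega]
        exact h3
      push Not at h2
      have h3 : 2 * e' ≤ M + 1 := by
        by_contra hcon
        push Not at hcon
        have h4 : k' * (M + 1) ≤ k' * (2 * e') := Nat.mul_le_mul_left _ hcon.le
        have h5 : e' ≤ e' * e' := Nat.le_mul_of_pos_left e' (by omega)
        nlinarith
      have h4 : N M (2 * k' + e') ≤ 2 ^ M * N M k' := by
        apply N_inc
        nlinarith
      rw [show δ + k' = 2 * k' + e' by omega, pow_succ]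
      calc N M (2 * k' + e') ≤ 2 ^ M * N M k' := h4
        _ ≤ 2 ^ M * 2 * N M k' := Nat.mul_le_mul_right _ (by omega)
    · refine ⟨k, by omega, Or.inl ?_, ?_⟩
      · rw [show δ - k = e by omega, show δ + k = 2 * k + e by omega]
        calc k * (M + 1) + e ≤ 2 * k * e + e * e := he3
          _ = _ := by ring
      · rw [show δ + k = 2 * k + e by omega, pow_succ]
        rcases Nat.lt_or_ge e 2 with h1 | h1
        · have h2 := N_double M (2 * k + e) k (by omega)
          calc N M (2 * k + e) ≤ 2 ^ M * N M k := h2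
            _ ≤ 2 ^ M * 2 * N M k := Nat.mul_le_mul_right _ (by omega)
        · obtain ⟨f, rfl⟩ : ∃ f, e = f + 1 := ⟨e - 1, by omega⟩
          have h2 : ¬ P f := hmin f (by omega)
          have h3 : ¬ ((k + 1) * (M + 1) + f ≤ 2 * (k + 1) * f + f * f) := by
            intro h4
            apply h2
            refine ⟨by omega, by omega, ?_⟩
            rw [show δ - f = k + 1 by omega]
            exact h4
          push Not at h3
          have h4 := N_inc M f k h3.le
          have h5 := N_step M (2 * k + f)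
          -- `N (2 k + f + 1) (2 k + f + 1) = N (2 k + f) (2 k + f + M + 1)`
          have h6 : 2 * k + f + M + 1 ≤ 2 * (2 * k + f + 1) := by omega
          have h7 : N M (2 * k + (f + 1)) ≤ 2 * N M (2 * k + f) := by
            refine Nat.le_of_mul_le_mul_right ?_ (show 0 < 2 * k + f + 1 by omega)
            calc N M (2 * k + (f + 1)) * (2 * k + f + 1)
                = N M (2 * k + f) * (2 * k + f + M + 1) := by rw [h5]; rfl
              _ ≤ N M (2 * k + f) * (2 * (2 * k + f + 1)) := Nat.mul_le_mul_left _ h6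
              _ = _ := by ring
          calc N M (2 * k + (f + 1)) ≤ 2 * N M (2 * k + f) := h7
            _ ≤ 2 * (2 ^ M * N M k) := Nat.mul_le_mul_left _ h4
            _ = _ := by ring
  · refine ⟨δ - 1, by omega, Or.inr (by omega), ?_⟩
    have h2 := N_double M (δ + (δ - 1)) (δ - 1) (by omega)
    rw [pow_succ]
    calc N M (δ + (δ - 1)) ≤ 2 ^ M * N M (δ - 1) := h2
      _ ≤ 2 ^ M * 2 * N M (δ - 1) := Nat.mul_le_mul_right _ (by omega)

/-- At least `2 ^ n` forms of equal degree. -/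
theorem equal (n r δ : ℕ) (d : Fin r → ℕ) (hn : 1 ≤ n) (hr : 2 ^ n ≤ r) (hδ : 1 ≤ δ)
    (hd : ∀ i, d i = δ) (j : ℕ) : Good n d j ∨ ∃ D ≤ j, Good n d D ∧ co n d D ≤ 0 := by
  obtain ⟨M, rfl⟩ : ∃ M, n = M + 1 := ⟨n - 1, by omega⟩
  obtain ⟨k, hk, hg, hN⟩ := exists_k M δ hδ
  refine all_of_GK hn hd hk hg ?_ j
  rw [card_Mon_N, card_Mon_N]
  exact hN.trans (Nat.mul_le_mul_right _ hr)

/-! ### More than `2 ^ (n - 1)` forms of large degree -/

lemma bern (M : ℕ) (T e : ℤ) (he : 0 ≤ e) (hT : e ≤ T) :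
    T ^ M * (T - M * e) ≤ (T - e) ^ M * T := by
  induction M with
  | zero => simp
  | succ M ih =>
    have h1 := mul_le_mul_of_nonneg_right ih (sub_nonneg.2 hT)
    have h2 : 0 ≤ T ^ M := pow_nonneg (he.trans hT) _
    have h3 : (0 : ℤ) ≤ T ^ M * (M * (e * e)) :=
      mul_nonneg h2 (mul_nonneg (Int.natCast_nonneg _) (mul_nonneg he he))
    push_cast
    have h4 : T ^ (M + 1) * (T - (M + 1) * e) = T ^ M * (T - M * e) * (T - e) -
        T ^ M * (M * (e * e)) := by ring
    rw [h4]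
    calc T ^ M * (T - M * e) * (T - e) - T ^ M * (M * (e * e)) ≤
          T ^ M * (T - M * e) * (T - e) := by linarith
      _ ≤ (T - e) ^ M * T * (T - e) := h1
      _ = _ := by ring

lemma N_two (M k e : ℕ) (hk : 1 ≤ k) (h : (2 ^ M + 1) * (M * e) ≤ 2 * k + e) :
    N M (2 * k + e) ≤ (2 ^ M + 1) * N M k := by
  have h1 := N_pow M k e
  have h2 := bern M (2 * k + e : ℤ) e (by positivity) (by linarith [Int.natCast_nonneg k])
  have h3 : ((2 * k + e : ℕ) : ℤ) ^ M * (2 * k + e - M * e) ≤ (2 * k) ^ M * (2 * k + e) := by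
    push_cast
    have : ((2 * k + e : ℤ) - e) = 2 * k := by ring
    rw [this] at h2
    exact h2
  have hkM : 0 < k ^ M := Nat.pow_pos hk
  have hT : (0 : ℤ) < 2 * k + e := by positivity
  have h' : ((2 : ℤ) ^ M + 1) * (M * e) ≤ 2 * k + e := by exact_mod_cast h
  -- `T ^ M * 2 ^ M ≤ (2 ^ M + 1) * (2 k) ^ M`
  have h4 : ((2 * k + e : ℕ) : ℤ) ^ M * 2 ^ M * (2 * k + e) ≤
      (2 ^ M + 1) * ((2 * k) ^ M * (2 * k + e)) := by
    have h5 : (2 : ℤ) ^ M * (2 * k + e) ≤ (2 ^ M + 1) * (2 * k + e - M * e) := by linarith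
    have h6 : (0 : ℤ) ≤ ((2 * k + e : ℕ) : ℤ) ^ M := by positivity
    calc ((2 * k + e : ℕ) : ℤ) ^ M * 2 ^ M * (2 * k + e) =
          ((2 * k + e : ℕ) : ℤ) ^ M * (2 ^ M * (2 * k + e)) := by ring
      _ ≤ ((2 * k + e : ℕ) : ℤ) ^ M * ((2 ^ M + 1) * (2 * k + e - M * e)) :=
          mul_le_mul_of_nonneg_left h5 h6
      _ = (2 ^ M + 1) * (((2 * k + e : ℕ) : ℤ) ^ M * (2 * k + e - M * e)) := by ring
      _ ≤ _ := mul_le_mul_of_nonneg_left h3 (by positivity)
  have h5 : ((2 * k + e : ℕ) : ℤ) ^ M ≤ (2 ^ M + 1) * k ^ M := by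
    have h6 : ((2 * k + e : ℕ) : ℤ) ^ M * (2 ^ M * (2 * k + e)) ≤
        ((2 ^ M + 1) * (k : ℤ) ^ M) * (2 ^ M * (2 * k + e)) := by
      calc ((2 * k + e : ℕ) : ℤ) ^ M * (2 ^ M * (2 * k + e)) =
            ((2 * k + e : ℕ) : ℤ) ^ M * 2 ^ M * (2 * k + e) := by ring
        _ ≤ _ := h4
        _ = _ := by rw [mul_pow]; ring
    exact le_of_mul_le_mul_right h6 (by positivity)
  have h6 : (2 * k + e) ^ M ≤ (2 ^ M + 1) * k ^ M := by exact_mod_cast h5
  refine Nat.le_of_mul_le_mul_right ?_ hkM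
  calc N M (2 * k + e) * k ^ M ≤ (2 * k + e) ^ M * N M k := h1
    _ ≤ ((2 ^ M + 1) * k ^ M) * N M k := Nat.mul_le_mul_right _ h6
    _ = _ := by ring

/-- The condition for `k = δ - e` and `n ≤ 2 e`. -/
lemma GK_half {n k e : ℕ} (he : 1 ≤ e) (h : n ≤ 2 * e) : GK n (k + e) k := by
  left
  rw [Nat.add_sub_cancel_left]
  have h1 : k * n ≤ k * (2 * e) := Nat.mul_le_mul_left _ h
  have h2 : e ≤ e * e := Nat.le_mul_of_pos_left e he
  nlinarith

/-- More than `2 ^ (n - 1)` forms of equal large degree. -/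
theorem equal_large (n r δ : ℕ) (d : Fin r → ℕ) (hn : 1 ≤ n) (hr : 2 ^ (n - 1) < r)
    (hδ : n ^ 2 * 2 ^ n ≤ δ) (hd : ∀ i, d i = δ) (j : ℕ) :
    Good n d j ∨ ∃ D ≤ j, Good n d D ∧ co n d D ≤ 0 := by
  obtain ⟨M, rfl⟩ : ∃ M, n = M + 1 := ⟨n - 1, by omega⟩
  rw [Nat.add_sub_cancel] at hr
  obtain ⟨e, he⟩ : ∃ e, e = (M + 1 + 1) / 2 := ⟨_, rfl⟩
  have h1 : 1 ≤ 2 ^ M := Nat.one_le_two_pow
  have hδ1 : 2 * ((M + 1) ^ 2 * 2 ^ M) ≤ δ := by
    refine le_trans (le_of_eq ?_) hδ
    ring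
  have h2 : (2 ^ M + 1) * (M * e) ≤ 2 * ((M + 1) ^ 2 * 2 ^ M) := by
    have h3 : M * e ≤ (M + 1) ^ 2 := by
      rw [pow_two]
      exact Nat.mul_le_mul (by omega) (by omega)
    calc (2 ^ M + 1) * (M * e) ≤ (2 * 2 ^ M) * (M + 1) ^ 2 := Nat.mul_le_mul (by omega) h3
      _ = _ := by ring
  have h3 : 2 * (M + 1) ≤ 2 * ((M + 1) ^ 2 * 2 ^ M) := by
    have h4 : M + 1 ≤ (M + 1) ^ 2 := by nlinarith
    have h5 : (M + 1) ^ 2 * 1 ≤ (M + 1) ^ 2 * 2 ^ M := Nat.mul_le_mul_left _ h1
    omega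
  obtain ⟨k, hk⟩ : ∃ k, δ = k + e := ⟨δ - e, by omega⟩
  refine all_of_GK (k := k) hn hd (by omega) (hk ▸ GK_half (by omega) (by omega)) ?_ j
  rw [card_Mon_N, card_Mon_N, show δ + k = 2 * k + e by omega]
  exact (N_two M k e (by omega) (by omega)).trans (Nat.mul_le_mul_right _ hr)

/-! ### Four variables -/

lemma choose_six (a : ℕ) : 6 * N 3 a = (a + 3) * ((a + 2) * (a + 1)) := by
  have h1 := N_row 2 a
  have h2 := N_row 1 a
  have e1 : N (0 + 1) a = a + 1 := by simp [N]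
  rw [e1] at h2
  have e2 : N 2 a * 2 = (a + 1) * (a + 2) := h2
  have e3 : N 3 a * 3 = N 2 a * (a + 3) := h1
  calc 6 * N 3 a = 2 * (N 3 a * 3) := by ring
    _ = (N 2 a * 2) * (a + 3) := by rw [e3]; ring
    _ = _ := by rw [e2]; ring

/-- At least nine forms of equal degree in four variables. -/
theorem equal_four (r δ : ℕ) (d : Fin r → ℕ) (hr : 9 ≤ r) (hδ : 1 ≤ δ) (hd : ∀ i, d i = δ)
    (j : ℕ) : Good 4 d j ∨ ∃ D ≤ j, Good 4 d D ∧ co 4 d D ≤ 0 := by
  have key : ∃ k < δ, GK 4 δ k ∧ N 3 (δ + k) ≤ 9 * N 3 k := by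
    rcases Nat.lt_or_ge δ 3 with h1 | h1
    · interval_cases δ
      · exact ⟨0, by omega, Or.inr (by omega), by decide⟩
      · exact ⟨1, by omega, Or.inr (by omega), by decide⟩
    · obtain ⟨z, rfl⟩ : ∃ z, δ = z + 1 + 2 := ⟨δ - 3, by omega⟩
      refine ⟨z + 1, by omega, GK_half (by omega) (by omega), ?_⟩
      have h1 := choose_six (z + 1 + 2 + (z + 1))
      have h2 := choose_six (z + 1)
      have h3 : (z + 1 + 2 + (z + 1) + 3) * ((z + 1 + 2 + (z + 1) + 2) *
          (z + 1 + 2 + (z + 1) + 1)) ≤ 9 * ((z + 1 + 3) * ((z + 1 + 2) * (z + 1 + 1))) := by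
        ring_nf
        nlinarith [Nat.zero_le (z ^ 3), Nat.zero_le (z ^ 2), Nat.zero_le z]
      omega
  obtain ⟨k, hk, hg, hN⟩ := key
  refine all_of_GK (by norm_num) hd hk hg ?_ j
  rw [card_Mon_N, card_Mon_N]
  exact hN.trans (Nat.mul_le_mul_right _ hr)

end Pool.Agent.Y233.Fr
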