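import Pool.Agent.Y233.Fr.Trans
import Pool.Agent.TH206.Fro.Comp
import Pool.Agent.TH206.Fro.Init
import Pool.Agent.TH206.Fro.Lin3

/-!
Compression and initial monomials for the square of a space of forms.
-/

set_option autoImplicit false

namespace Pool.Agent.Y233.Fr

open Finset MvPolynomial Pool.Agent.TH206.Fro
open scoped Pointwise

open Pool.Agent.TH206.Fro.Cmpr in
/-- The compression does not enlarge `A A S_e`. -/
lemma comp_card3 {n : ℕ} {i j : Fin n} (h : i ≠ j) {k e : ℕ} {A : Finset (Fin n →₀ ℕ)}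
    (hA : A ⊆ Mon n k) :
    (comp i j k A + comp i j k A + Mon n e).card ≤ (A + A + Mon n e).card := by
  classical
  have h1 : comp i j e (Mon n e) = Mon n e :=
    Finset.eq_of_subset_of_card_le (comp_sub i j e _) (card_comp h (Finset.Subset.refl _)).ge
  have hAA : A + A ⊆ Mon n (k + k) := by
    intro x hx
    rw [Finset.mem_add] at hx
    obtain ⟨a, ha, b, hb, rfl⟩ := hx
    have h1 := hA ha
    have h2 := hA hb
    rw [mem_Mon'] at *
    rw [map_add, h1, h2]
  calc (comp i j k A + comp i j k A + Mon n e).card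
      ≤ (comp i j (k + k) (A + A) + comp i j e (Mon n e)).card := by
        rw [h1]
        exact Finset.card_le_card (Finset.add_subset_add_right (add_sub h))
    _ ≤ (A + A + Mon n e).card := add_card h hAA (Finset.Subset.refl _)

open Pool.Agent.TH206.Fro.Cmpr in
/-- The set may be replaced by a strongly stable one. -/
theorem comp3 (n k e : ℕ) (A : Finset (Fin n →₀ ℕ)) (hA : A ⊆ Mon n k) :
    ∃ A' : Finset (Fin n →₀ ℕ), A' ⊆ Mon n k ∧ Stable A' ∧ A'.card = A.card ∧
      (A' + A' + Mon n e).card ≤ (A + A + Mon n e).card := by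
  classical
  obtain ⟨T, hT⟩ : ∃ T : Finset (Finset (Fin n →₀ ℕ)),
      T = ((Mon n k).powerset).filter
        (fun p => p.card = A.card ∧ (p + p + Mon n e).card ≤ (A + A + Mon n e).card) :=
    ⟨_, rfl⟩
  have hTne : T.Nonempty := by
    refine ⟨A, ?_⟩
    rw [hT, mem_filter, mem_powerset]
    exact ⟨hA, rfl, le_refl _⟩
  obtain ⟨p, hp, hmin⟩ := Finset.exists_min_image T (fun p => pot p) hTne
  have hmem : ∀ q : Finset (Fin n →₀ ℕ), q ∈ T ↔
      q ⊆ Mon n k ∧ q.card = A.card ∧ (q + q + Mon n e).card ≤ (A + A + Mon n e).card := by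
    intro q
    rw [hT, mem_filter, mem_powerset]
  obtain ⟨hp1, hp3, hp5⟩ := (hmem p).1 hp
  have key : ∀ i j : Fin n, i < j → comp i j k p = p := by
    intro i j hij
    have h1 : comp i j k p ∈ T := by
      rw [hmem]
      exact ⟨comp_sub _ _ _ _, (card_comp hij.ne hp1).trans hp3,
        (comp_card3 hij.ne hp1).trans hp5⟩
    have h2 := hmin _ h1
    have h3 := pot_comp hij hp1
    have h5 : (comp i j k p \ p).card = 0 := by omega
    rw [Finset.card_eq_zero, Finset.sdiff_eq_empty_iff_subset] at h5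
    exact Finset.eq_of_subset_of_card_le h5 (card_comp hij.ne hp1).ge
  refine ⟨p, hp1, ?_, hp3, hp5⟩
  intro a ha i j hij haj
  rw [← key i j hij, mem_comp] at ha ⊢
  have hkap : kap i j (mv i j a) = kap i j a := by
    ext u
    by_cases huj : u = j
    · rw [huj, kap_j hij.ne, kap_j hij.ne]
    · by_cases hui : u = i
      · rw [hui, kap_i hij.ne, kap_i hij.ne]
        unfold mv
        rw [Finsupp.add_apply, Finsupp.tsub_apply, Finsupp.add_apply, Finsupp.tsub_apply,
          Finsupp.single_eq_same, Finsupp.single_eq_same, Finsupp.single_eq_of_ne hij.ne,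
          Finsupp.single_eq_of_ne hij.ne']
        omega
      · rw [kap_o hui huj, kap_o hui huj]
        unfold mv
        rw [Finsupp.add_apply, Finsupp.tsub_apply, Finsupp.single_eq_of_ne hui,
          Finsupp.single_eq_of_ne huj]
        omega
  have hj : mv i j a j = a j - 1 := by
    unfold mv
    rw [Finsupp.add_apply, Finsupp.tsub_apply, Finsupp.single_eq_same,
      Finsupp.single_eq_of_ne hij.ne']
    omega
  rw [hkap, hj]
  refine ⟨?_, by omega⟩
  rw [← kap_mem i j, hkap, kap_mem]
  exact ha.1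

/-- The product inequality for all sets of monomials. -/
theorem prod3_all (m k e : ℕ) (he : H m e k) (A : Finset (Fin (m + 1) →₀ ℕ))
    (hA : A ⊆ Mon (m + 1) k) :
    A.card * (Mon (m + 1) (2 * k + e)).card ≤
      (A + A + Mon (m + 1) e).card * (Mon (m + 1) k).card := by
  obtain ⟨A', h1, h2, h3, h4⟩ := comp3 (m + 1) k e A hA
  rw [← h3]
  exact (prod3 m k e he A' h1 h2).trans (Nat.mul_le_mul_right _ h4)

/-- The product inequality for spaces of forms. -/
theorem prod3_sub (n k e : ℕ) (hn : 1 ≤ n) (he : k * n + e ≤ 2 * k * e + e * e) (F : Type) [Field F]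
    (L : Submodule F (MvPolynomial (Fin n) F)) (hL : L ≤ homogeneousSubmodule (Fin n) F k) :
    Module.finrank F L * (Mon n (2 * k + e)).card ≤
      Module.finrank F ↥(L * (L * homogeneousSubmodule (Fin n) F e)) * (Mon n k).card := by
  classical
  obtain ⟨m, rfl⟩ : ∃ m, n = m + 1 := ⟨n - 1, by omega⟩
  have hLe : L * homogeneousSubmodule (Fin (m + 1)) F e ≤
      homogeneousSubmodule (Fin (m + 1)) F (k + e) :=
    (mul_le_mul' hL le_rfl).trans (homogeneousSubmodule_mul k e)
  have hLL : L * (L * homogeneousSubmodule (Fin (m + 1)) F e) ≤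
      homogeneousSubmodule (Fin (m + 1)) F (2 * k + e) := by
    refine (mul_le_mul' hL hLe).trans ?_
    rw [show 2 * k + e = k + (k + e) by ring]
    exact homogeneousSubmodule_mul k (k + e)
  have h1 := prod3_all m k e he (leads k L) (Finset.filter_subset _ _)
  rw [card_leads hL] at h1
  refine h1.trans (Nat.mul_le_mul_right _ ?_)
  rw [← card_leads hLL]
  refine Finset.card_le_card fun x hx => ?_
  obtain ⟨y, hy, c, hc, rfl⟩ := Finset.mem_add.1 hx
  obtain ⟨a, ha, b, hb, rfl⟩ := Finset.mem_add.1 hy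
  obtain ⟨f, hf, hf0, rfl⟩ := (mem_leads hL).1 ha
  obtain ⟨g, hg, hg0, rfl⟩ := (mem_leads hL).1 hb
  have hm0 : (monomial c (1 : F)) ≠ 0 := by
    rw [Ne, monomial_eq_zero]
    exact one_ne_zero
  have hmd : (lx (m + 1)).degree (monomial c (1 : F)) = c := by
    classical
    rw [MonomialOrder.degree_monomial, if_neg one_ne_zero]
  refine (mem_leads hLL).2 ⟨f * (g * monomial c 1), Submodule.mul_mem_mul hf
    (Submodule.mul_mem_mul hg ?_), mul_ne_zero hf0 (mul_ne_zero hg0 hm0), ?_⟩
  · rw [mem_homogeneousSubmodule]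
    exact isHomogeneous_monomial _ (mem_Mon'.1 hc)
  · rw [MonomialOrder.degree_mul hf0 (mul_ne_zero hg0 hm0), MonomialOrder.degree_mul hg0 hm0,
      hmd, add_assoc]

end Pool.Agent.Y233.Fr
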