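import Mathlib

/-!
Lower sets in the chambers `k ≥ z 0 ≥ z 1 ≥ ⋯ ≥ z (m - 1) ≥ 0`: the combinatorial core of the
product inequality.
-/

set_option autoImplicit false

namespace Pool.Agent.Y233.Fr

open Finset

/-- The points of the chamber of size `k`. -/
def In {m : ℕ} (k : ℕ) (z : Fin m → ℕ) : Prop := (∀ j, z j ≤ k) ∧ Antitone z

open Classical in
/-- The chamber. -/
noncomputable def Ch (m k : ℕ) : Finset (Fin m → ℕ) :=
  (Fintype.piFinset fun _ : Fin m => range (k + 1)).filter (fun z => Antitone z)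

lemma mem_Ch {m k : ℕ} {z : Fin m → ℕ} : z ∈ Ch m k ↔ In k z := by
  unfold Ch In
  rw [mem_filter, Fintype.mem_piFinset]
  simp only [mem_range, Nat.lt_succ_iff]

lemma in_cons {m k i : ℕ} {z : Fin m → ℕ} :
    In k (Fin.cons i z : Fin (m + 1) → ℕ) ↔ i ≤ k ∧ In i z := by
  unfold In
  constructor
  · rintro ⟨h1, h2⟩
    have h3 : i ≤ k := h1 0
    refine ⟨h3, fun j => ?_, fun a b hab => ?_⟩
    · have := h2 (Fin.zero_le j.succ)
      simpa using this
    · have := h2 (Fin.succ_le_succ_iff.2 hab)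
      simpa using this
  · rintro ⟨h1, h2, h3⟩
    refine ⟨fun j => ?_, fun a b hab => ?_⟩
    · refine Fin.cases ?_ (fun j => ?_) j
      · simpa using h1
      · simpa using (h2 j).trans h1
    · induction a using Fin.cases with
      | zero =>
        induction b using Fin.cases with
        | zero => exact le_rfl
        | succ b => simpa using h2 b
      | succ a =>
        induction b using Fin.cases with
        | zero => exact absurd hab (by simp)
        | succ b => simpa using h3 (Fin.succ_le_succ_iff.1 hab)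

open Classical in
/-- The number of the points with a property. -/
noncomputable def ct (m k : ℕ) (p : (Fin m → ℕ) → Prop) : ℕ := ((Ch m k).filter p).card

lemma ct_succ (m k : ℕ) (p : (Fin (m + 1) → ℕ) → Prop) :
    ct (m + 1) k p = ∑ i ∈ range (k + 1), ct m i (fun z => p (Fin.cons i z)) := by
  classical
  unfold ct
  rw [Finset.card_eq_sum_card_fiberwise (f := fun z : Fin (m + 1) → ℕ => z 0)
    (t := range (k + 1))]
  · refine sum_congr rfl fun i hi => ?_
    symm
    refine Finset.card_bij (fun z _ => (Fin.cons i z : Fin (m + 1) → ℕ)) ?_ ?_ ?_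
    · intro z hz
      rw [mem_filter, mem_Ch] at hz
      rw [mem_filter, mem_filter, mem_Ch, in_cons]
      exact ⟨⟨⟨Nat.lt_succ_iff.1 (mem_range.1 hi), hz.1⟩, hz.2⟩, rfl⟩
    · intro z _ w _ h
      have h2 : Fin.tail (Fin.cons i z : Fin (m + 1) → ℕ) =
        Fin.tail (Fin.cons i w : Fin (m + 1) → ℕ) := congrArg Fin.tail h
      simpa using h2
    · intro z hz
      rw [mem_filter, mem_filter, mem_Ch] at hz
      obtain ⟨⟨h1, h2⟩, h3⟩ := hz
      have h4 : (Fin.cons i (Fin.tail z) : Fin (m + 1) → ℕ) = z := by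
        have h5 := Fin.cons_self_tail z
        have h3' : z 0 = i := h3
        rw [h3'] at h5
        exact h5
      refine ⟨Fin.tail z, ?_, h4⟩
      rw [mem_filter, mem_Ch]
      rw [← h4, in_cons] at h1
      rw [← h4] at h2
      exact ⟨h1.2, h2⟩
  · intro z hz
    rw [mem_coe, mem_filter, mem_Ch] at hz
    rw [mem_coe, mem_range]
    exact Nat.lt_succ_iff.2 (hz.1.1 0)

lemma ct_mono {m k : ℕ} {p q : (Fin m → ℕ) → Prop} (h : ∀ z, In k z → p z → q z) :
    ct m k p ≤ ct m k q := by
  classical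
  unfold ct
  refine Finset.card_le_card fun z hz => ?_
  rw [mem_filter, mem_Ch] at hz ⊢
  exact ⟨hz.1, h z hz.1 hz.2⟩

lemma ct_congr {m k : ℕ} {p q : (Fin m → ℕ) → Prop} (h : ∀ z, In k z → (p z ↔ q z)) :
    ct m k p = ct m k q :=
  le_antisymm (ct_mono fun z hz => (h z hz).1) (ct_mono fun z hz => (h z hz).2)

/-- The number of all points. -/
def N (m k : ℕ) : ℕ := (k + m).choose m

lemma N_pos (m k : ℕ) : 0 < N m k := Nat.choose_pos (by omega)

lemma sum_N (m k : ℕ) : ∑ i ∈ range (k + 1), N m i = N (m + 1) k := by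
  unfold N
  rw [Nat.sum_range_add_choose]
  rfl

/-- Lower sets. -/
def Low (m k : ℕ) (p : (Fin m → ℕ) → Prop) : Prop :=
  ∀ z w, In k z → In k w → w ≤ z → p z → p w

lemma cons_le {m : ℕ} {i j : ℕ} {z w : Fin m → ℕ} (hij : i ≤ j) (h : z ≤ w) :
    (Fin.cons i z : Fin (m + 1) → ℕ) ≤ Fin.cons j w := by
  intro a
  induction a using Fin.cases with
  | zero => simpa using hij
  | succ a => simpa using h a

lemma Low.slice {m k i : ℕ} {p : (Fin (m + 1) → ℕ) → Prop} (h : Low (m + 1) k p) (hi : i ≤ k) :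
    Low m i (fun z => p (Fin.cons i z)) := by
  intro z w hz hw hwz hp
  exact h _ _ (in_cons.2 ⟨hi, hz⟩) (in_cons.2 ⟨hi, hw⟩) (cons_le le_rfl hwz) hp

lemma Low.slice_le {m k i j : ℕ} {p : (Fin (m + 1) → ℕ) → Prop} (h : Low (m + 1) k p)
    (hij : i ≤ j) (hj : j ≤ k) :
    ct m i (fun z => p (Fin.cons j z)) ≤ ct m i (fun z => p (Fin.cons i z)) := by
  refine ct_mono fun z hz hp => ?_
  have hz2 : In j z := ⟨fun a => (hz.1 a).trans hij, hz.2⟩
  exact h _ _ (in_cons.2 ⟨hj, hz2⟩) (in_cons.2 ⟨hij.trans hj, hz⟩) (cons_le hij le_rfl) hp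

/-- Splitting an average. -/
lemma avg (x w : ℕ → ℕ) (t u : ℕ) (htu : t ≤ u)
    (h : ∀ i j, i ≤ j → j ≤ u → x j * w i ≤ x i * w j) :
    (∑ i ∈ range (u + 1), x i) * ∑ i ∈ range (t + 1), w i ≤
      (∑ i ∈ range (t + 1), x i) * ∑ i ∈ range (u + 1), w i := by
  have h1 : ∀ y : ℕ → ℕ, ∑ i ∈ range (u + 1), y i =
      ∑ i ∈ range (t + 1), y i + ∑ i ∈ Ico (t + 1) (u + 1), y i := fun y =>
    (Finset.sum_range_add_sum_Ico y (by omega)).symm
  rw [h1 x, h1 w, add_mul, mul_add]
  refine Nat.add_le_add_left ?_ _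
  rw [Finset.sum_mul_sum, Finset.sum_mul_sum, Finset.sum_comm]
  refine Finset.sum_le_sum fun i hi => Finset.sum_le_sum fun j hj => ?_
  rw [mem_Ico] at hj
  rw [mem_range] at hi
  exact h i j (by omega) (by omega)

/-- Lower sets are denser in smaller chambers. -/
theorem NM (m : ℕ) : ∀ (t u : ℕ) (p : (Fin m → ℕ) → Prop), t ≤ u → Low m u p →
    ct m u p * N m t ≤ ct m t p * N m u := by
  induction m with
  | zero =>
    intro t u p _ _
    have h1 : ∀ k, Ch 0 k = {Fin.elim0} := by
      intro k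
      ext z
      rw [mem_Ch, mem_singleton]
      exact ⟨fun _ => Subsingleton.elim _ _, fun _ => ⟨fun j => j.elim0, fun j => j.elim0⟩⟩
    unfold ct
    rw [h1, h1]
    simp [N]
  | succ m ih =>
    intro t u p htu hp
    rw [ct_succ, ct_succ, ← sum_N, ← sum_N]
    refine avg _ _ t u htu fun i j hij hju => ?_
    refine (ih i j _ hij (hp.slice hju)).trans ?_
    exact Nat.mul_le_mul_right _ (hp.slice_le hij hju)

/-- The halving map. -/
def rho (e t : ℕ) : ℕ := (t - e + 1) / 2

lemma rho_mono {e s t : ℕ} (h : s ≤ t) : rho e s ≤ rho e t := by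
  unfold rho
  omega

lemma rho_top (e k : ℕ) : rho e (2 * k + e) = k := by
  unfold rho
  omega

lemma rho_in {m e k : ℕ} {z : Fin m → ℕ} (h : In (2 * k + e) z) :
    In k (fun j => rho e (z j)) := by
  refine ⟨fun j => ?_, fun a b hab => rho_mono (h.2 hab)⟩
  have := rho_mono (e := e) (h.1 j)
  rwa [rho_top] at this

lemma Low.pull {m k e : ℕ} {p : (Fin m → ℕ) → Prop} (h : Low m k p) :
    Low m (2 * k + e) (fun z => p (fun j => rho e (z j))) := by
  intro z w hz hw hwz hp
  exact h _ _ (rho_in hz) (rho_in hw) (fun j => rho_mono (hwz j)) hp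

lemma N_step (M z : ℕ) : N M z * (z + M + 1) = N M (z + 1) * (z + 1) := by
  unfold N
  have h := Nat.choose_mul_succ_eq (z + M) M
  rw [show z + M + 1 - M = z + 1 by omega] at h
  rw [h, show z + 1 + M = z + M + 1 by omega]

/-- The condition on the dimension, the difference and the size. -/
def H (M e k : ℕ) : Prop := k * (M + 1) + e ≤ 2 * k * e + e * e

lemma H.mono {M e k z : ℕ} (h : H M e k) (hz : z ≤ k) : H M e z := by
  unfold H at h ⊢
  rcases le_or_gt (M + 1) (2 * e) with h1 | h1
  · have h2 : z * (M + 1) ≤ z * (2 * e) := Nat.mul_le_mul_left _ h1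
    have h3 : e ≤ e * e := by
      rcases Nat.eq_zero_or_pos e with h0 | h0
      · simp [h0]
      · exact Nat.le_mul_of_pos_left e h0
    nlinarith
  · obtain ⟨c, hc⟩ : ∃ c, M + 1 = 2 * e + c := ⟨M + 1 - 2 * e, by omega⟩
    rw [hc] at h ⊢
    have h2 : z * c ≤ k * c := Nat.mul_le_mul_right _ hz
    nlinarith

lemma H.pred {M e k : ℕ} (h : H (M + 1) e k) : H M e k := by
  unfold H at h ⊢
  nlinarith

/-- The difference of the products of the factors. -/
lemma factors (M e z : ℕ) :
    ((2 * z + e : ℕ) + 1 : ℤ) * (((2 * z + e : ℕ) + 1 + 1) * (z + M + 1)) -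
        (z + 1) * (((2 * z + e : ℕ) + M + 1) * ((2 * z + e : ℕ) + 1 + M + 1)) =
        M * ((z + 1) * (2 * e - 1 - M) + e * (e - 1)) := by
  push_cast
  ring

lemma two_steps (M e z : ℕ) :
    N M z * N M (2 * (z + 1) + e) *
        ((2 * z + e + 1) * ((2 * z + e + 1 + 1) * (z + 1))) =
      N M z * N M (2 * z + e) * ((z + 1) * ((2 * z + e + M + 1) * (2 * z + e + 1 + M + 1))) ∧
    N M (2 * z + e) * N M (z + 1) *
        ((2 * z + e + 1) * ((2 * z + e + 1 + 1) * (z + 1))) =
      N M z * N M (2 * z + e) * ((2 * z + e + 1) * ((2 * z + e + 1 + 1) * (z + M + 1))) := by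
  obtain ⟨a, ha⟩ : ∃ a, a = 2 * z + e := ⟨_, rfl⟩
  have h1 := N_step M z
  have h2 := N_step M a
  have h3 := N_step M (a + 1)
  rw [show 2 * (z + 1) + e = a + 1 + 1 by omega, ← ha]
  constructor
  · calc N M z * N M (a + 1 + 1) * ((a + 1) * ((a + 1 + 1) * (z + 1)))
        = N M z * (N M (a + 1 + 1) * (a + 1 + 1)) * ((a + 1) * (z + 1)) := by ring
      _ = N M z * (N M (a + 1) * (a + 1)) * ((a + 1 + M + 1) * (z + 1)) := by rw [← h3]; ring
      _ = N M z * N M a * ((z + 1) * ((a + M + 1) * (a + 1 + M + 1))) := by rw [← h2]; ring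
  · calc N M a * N M (z + 1) * ((a + 1) * ((a + 1 + 1) * (z + 1)))
        = N M a * (N M (z + 1) * (z + 1)) * ((a + 1) * (a + 1 + 1)) := by ring
      _ = _ := by rw [← h1]; ring

/-- The ratio of the sizes of the chambers decreases. -/
lemma ratio_step (M e z : ℕ) (he : H M e (z + 1)) :
    N M z * N M (2 * (z + 1) + e) ≤ N M (2 * z + e) * N M (z + 1) := by
  obtain ⟨e1, e2⟩ := two_steps M e z
  have h7 : 0 < (2 * z + e + 1) * ((2 * z + e + 1 + 1) * (z + 1)) := by positivity
  refine Nat.le_of_mul_le_mul_right ?_ h7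
  rw [e1, e2]
  refine Nat.mul_le_mul_left _ ?_
  have h5 := factors M e z
  unfold H at he
  have he' : ((z : ℤ) + 1) * (M + 1) + e ≤ 2 * (z + 1) * e + e * e := by exact_mod_cast he
  have h6 : (0 : ℤ) ≤ M * ((z + 1) * (2 * e - 1 - M) + e * (e - 1)) :=
    mul_nonneg (by positivity) (by linarith)
  rw [← h5] at h6
  have h8 := sub_nonneg.1 h6
  exact_mod_cast h8

/-- The ratio of the sizes of the chambers increases. -/
lemma ratio_step' (M e z : ℕ) (he : 2 * (z + 1) * e + e * e ≤ (z + 1) * (M + 1) + e) :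
    N M (2 * z + e) * N M (z + 1) ≤ N M z * N M (2 * (z + 1) + e) := by
  obtain ⟨e1, e2⟩ := two_steps M e z
  have h7 : 0 < (2 * z + e + 1) * ((2 * z + e + 1 + 1) * (z + 1)) := by positivity
  refine Nat.le_of_mul_le_mul_right ?_ h7
  rw [e1, e2]
  refine Nat.mul_le_mul_left _ ?_
  have h5 := factors M e z
  have he' : 2 * ((z : ℤ) + 1) * e + e * e ≤ (z + 1) * (M + 1) + e := by exact_mod_cast he
  have h6 : M * (((z : ℤ) + 1) * (2 * e - 1 - M) + e * (e - 1)) ≤ 0 :=
    mul_nonpos_of_nonneg_of_nonpos (by positivity) (by linarith)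
  rw [← h5] at h6
  have h8 := sub_nonpos.1 h6
  exact_mod_cast h8

lemma ratio (M e z k : ℕ) (he : H M e k) (hz : z ≤ k) :
    N M z * N M (2 * k + e) ≤ N M (2 * z + e) * N M k := by
  induction k, hz using Nat.le_induction with
  | base => rw [mul_comm]
  | succ k hk ih =>
    have h1 := ratio_step M e k he
    have ih := ih (he.mono (Nat.le_succ k))
    have h2 := N_pos M k
    refine Nat.le_of_mul_le_mul_right ?_ h2
    have h3 := N_pos M (2 * k + e)
    calc N M z * N M (2 * (k + 1) + e) * N M k = N M z * (N M k * N M (2 * (k + 1) + e)) := by ring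
      _ ≤ N M z * (N M (2 * k + e) * N M (k + 1)) := Nat.mul_le_mul_left _ h1
      _ = N M z * N M (2 * k + e) * N M (k + 1) := by ring
      _ ≤ N M (2 * z + e) * N M k * N M (k + 1) := Nat.mul_le_mul_right _ ih
      _ = _ := by ring

/-- Summation by parts. -/
lemma abel (α f : ℕ → ℚ) (k : ℕ) (hα : ∀ i < k, α (i + 1) ≤ α i) (hk : 0 ≤ α k)
    (hf : ∀ z ≤ k, 0 ≤ ∑ i ∈ range (z + 1), f i) : 0 ≤ ∑ i ∈ range (k + 1), α i * f i := by
  have key : ∀ z ≤ k, α z * ∑ i ∈ range (z + 1), f i ≤ ∑ i ∈ range (z + 1), α i * f i := by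
    intro z
    induction z with
    | zero => intro _; simp
    | succ z ih =>
      intro hz
      rw [Finset.sum_range_succ, Finset.sum_range_succ (fun i => α i * f i), mul_add]
      have h1 := ih (by omega)
      have h2 := hα z (by omega)
      have h3 := hf z (by omega)
      have h4 := mul_le_mul_of_nonneg_right h2 h3
      linarith
  exact (mul_nonneg hk (hf k le_rfl)).trans (key k le_rfl)

/-- Sums over the fibres of the halving map. -/
lemma sum_rho (e k : ℕ) (g : ℕ → ℚ) (h : ℕ → ℚ) :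
    ∑ t ∈ range (2 * k + e + 1), h (rho e t) * g t =
      ∑ i ∈ range (k + 1), h i * ∑ t ∈ (range (2 * k + e + 1)).filter (fun t => rho e t = i), g t := by
  rw [← Finset.sum_fiberwise_of_maps_to (s := range (2 * k + e + 1)) (t := range (k + 1))
    (g := rho e)]
  · refine sum_congr rfl fun i _ => ?_
    rw [Finset.mul_sum]
    refine sum_congr rfl fun t ht => ?_
    rw [(mem_filter.1 ht).2]
  · intro t ht
    rw [mem_range] at ht ⊢
    have := rho_mono (e := e) (show t ≤ 2 * k + e by omega)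
    rw [rho_top] at this
    omega

lemma sum_fib (e k z : ℕ) (hz : z ≤ k) (g : ℕ → ℚ) :
    ∑ i ∈ range (z + 1), ∑ t ∈ (range (2 * k + e + 1)).filter (fun t => rho e t = i), g t =
      ∑ t ∈ range (2 * z + e + 1), g t := by
  rw [← Finset.sum_fiberwise_of_maps_to (s := range (2 * z + e + 1)) (t := range (z + 1))
    (g := rho e)]
  · refine sum_congr rfl fun i hi => ?_
    refine sum_congr ?_ fun _ _ => rfl
    ext t
    rw [mem_range] at hi
    rw [mem_filter, mem_filter, mem_range, mem_range]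
    constructor
    · rintro ⟨h1, h2⟩
      refine ⟨?_, h2⟩
      unfold rho at h2
      omega
    · rintro ⟨h1, h2⟩
      exact ⟨by omega, h2⟩
  · intro t ht
    rw [mem_range] at ht ⊢
    have := rho_mono (e := e) (show t ≤ 2 * z + e by omega)
    rw [rho_top] at this
    omega

/-- The main inequality. -/
theorem PP (m : ℕ) : ∀ (e k : ℕ), H m e k → ∀ (p : (Fin m → ℕ) → Prop), Low m k p →
    ct m k p * N m (2 * k + e) ≤ ct m (2 * k + e) (fun z => p (fun j => rho e (z j))) * N m k := by
  induction m with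
  | zero =>
    classical
    intro e k _ p _
    have h1 : ∀ k, Ch 0 k = {Fin.elim0} := by
      intro k
      ext z
      rw [mem_Ch, mem_singleton]
      exact ⟨fun _ => Subsingleton.elim _ _, fun _ => ⟨fun j => j.elim0, fun j => j.elim0⟩⟩
    have h2 : ∀ z : Fin 0 → ℕ, z = Fin.elim0 := fun z => Subsingleton.elim _ _
    unfold ct
    rw [h1, h1]
    simp only [N, Nat.choose_zero_right, mul_one]
    refine Finset.card_le_card fun z hz => ?_
    rw [mem_filter] at hz ⊢
    refine ⟨hz.1, ?_⟩
    rw [h2 (fun j => rho e (z j)), ← h2 z]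
    exact hz.2
  | succ m ih =>
    intro e k he p hp
    -- the slices
    obtain ⟨a, ha⟩ : ∃ a : ℕ → ℕ, ∀ i, a i = ct m i (fun z => p (Fin.cons i z)) :=
      ⟨_, fun _ => rfl⟩
    obtain ⟨b, hb⟩ : ∃ b : ℕ → ℕ, ∀ t, b t =
      ct m t (fun z => p (Fin.cons (rho e t) (fun j => rho e (z j)))) := ⟨_, fun _ => rfl⟩
    have hA : ct (m + 1) k p = ∑ i ∈ range (k + 1), a i := by
      rw [ct_succ]
      exact sum_congr rfl fun i _ => (ha i).symm
    have hB : ct (m + 1) (2 * k + e) (fun z => p (fun j => rho e (z j))) =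
        ∑ t ∈ range (2 * k + e + 1), b t := by
      rw [ct_succ]
      refine sum_congr rfl fun t _ => ?_
      rw [hb t]
      refine ct_congr fun z _ => ?_
      have h1 : (fun j => rho e ((Fin.cons t z : Fin (m + 1) → ℕ) j)) =
          (Fin.cons (rho e t) (fun j => rho e (z j)) : Fin (m + 1) → ℕ) := by
        funext j
        refine Fin.cases ?_ (fun j => ?_) j
        · simp
        · simp
      rw [h1]
    -- the slices of the larger set
    have h1 : ∀ t, t < 2 * k + e + 1 → a (rho e t) * N m t ≤ b t * N m (rho e t) := by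
      intro t ht
      obtain ⟨i, hi⟩ : ∃ i, i = rho e t := ⟨_, rfl⟩
      have hik : i ≤ k := by
        have := rho_mono (e := e) (show t ≤ 2 * k + e by omega)
        rw [rho_top, ← hi] at this
        exact this
      have hti : t ≤ 2 * i + e := by
        unfold rho at hi
        omega
      have hs := hp.slice hik
      have h2 := ih e i (he.pred.mono hik) _ hs
      have h3 := NM m t (2 * i + e) _ hti hs.pull
      rw [← hi, ha, hb, ← hi]
      have h4 := N_pos m (2 * i + e)
      refine Nat.le_of_mul_le_mul_right ?_ h4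
      calc ct m i (fun z => p (Fin.cons i z)) * N m t * N m (2 * i + e)
          = ct m i (fun z => p (Fin.cons i z)) * N m (2 * i + e) * N m t := by ring
        _ ≤ ct m (2 * i + e) (fun z => p (Fin.cons i fun j => rho e (z j))) * N m i * N m t :=
            Nat.mul_le_mul_right _ h2
        _ = ct m (2 * i + e) (fun z => p (Fin.cons i fun j => rho e (z j))) * N m t * N m i := by
            ring
        _ ≤ ct m t (fun z => p (Fin.cons i fun j => rho e (z j))) * N m (2 * i + e) * N m i :=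
            Nat.mul_le_mul_right _ h3
        _ = _ := by ring
    have h2 : ∀ i, i < k → a (i + 1) * N m i ≤ a i * N m (i + 1) := by
      intro i hi
      rw [ha, ha]
      refine (NM m i (i + 1) _ (by omega) (hp.slice (show i + 1 ≤ k by omega))).trans ?_
      exact Nat.mul_le_mul_right _ (hp.slice_le (by omega) (by omega))
    -- summation
    have hN : ∀ i, (0 : ℚ) < N m i := fun i => by exact_mod_cast N_pos m i
    have h3 := abel (fun i => (a i : ℚ) / N m i)
      (fun i => (∑ t ∈ (range (2 * k + e + 1)).filter (fun t => rho e t = i), (N m t : ℚ)) *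
        N (m + 1) k - N m i * N (m + 1) (2 * k + e)) k
      (by
        intro i hi
        rw [div_le_div_iff₀ (hN _) (hN _)]
        exact_mod_cast h2 i hi)
      (by positivity)
      (by
        intro z hz
        rw [Finset.sum_sub_distrib, ← Finset.sum_mul, ← Finset.sum_mul, sum_fib e k z hz]
        have e1 : ∑ i ∈ range (z + 1), (N m i : ℚ) = N (m + 1) z := by
          rw [← sum_N]; push_cast; rfl
        have e2 : ∑ i ∈ range (2 * z + e + 1), (N m i : ℚ) = N (m + 1) (2 * z + e) := by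
          rw [← sum_N]; push_cast; rfl
        rw [e1, e2, sub_nonneg]
        exact_mod_cast ratio (m + 1) e z k he hz)
    have h4 : ∑ i ∈ range (k + 1), (a i : ℚ) / N m i *
        ((∑ t ∈ (range (2 * k + e + 1)).filter (fun t => rho e t = i), (N m t : ℚ)) *
          N (m + 1) k - N m i * N (m + 1) (2 * k + e)) =
        (∑ t ∈ range (2 * k + e + 1), (a (rho e t) : ℚ) / N m (rho e t) * N m t) *
          N (m + 1) k - (∑ i ∈ range (k + 1), (a i : ℚ)) * N (m + 1) (2 * k + e) := by
      rw [sum_rho e k (fun t => (N m t : ℚ)) (fun i => (a i : ℚ) / N m i), Finset.sum_mul,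
        Finset.sum_mul, ← Finset.sum_sub_distrib]
      refine sum_congr rfl fun i _ => ?_
      have := (hN i).ne'
      field_simp
    rw [h4] at h3
    have h5 : ∑ t ∈ range (2 * k + e + 1), (a (rho e t) : ℚ) / N m (rho e t) * N m t ≤
        ∑ t ∈ range (2 * k + e + 1), (b t : ℚ) := by
      refine Finset.sum_le_sum fun t ht => ?_
      rw [div_mul_eq_mul_div, div_le_iff₀ (hN _)]
      exact_mod_cast h1 t (mem_range.1 ht)
    have h6 : (0 : ℚ) ≤ N (m + 1) k := Nat.cast_nonneg _
    have h7 := mul_le_mul_of_nonneg_right h5 h6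
    rw [hA, hB]
    have h8 : (∑ i ∈ range (k + 1), (a i : ℚ)) * N (m + 1) (2 * k + e) ≤
        (∑ t ∈ range (2 * k + e + 1), (b t : ℚ)) * N (m + 1) k := by linarith
    exact_mod_cast h8

end Pool.Agent.Y233.Fr
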