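import Pool.Agent.Y233.Fr.Half3
import Pool.Agent.Y233.Fr.WL

/-!
The weak Lefschetz property for at least `2 ^ (N - 2)` forms of the least degree in `N` variables.
-/

set_option autoImplicit false

namespace Pool.Agent.Y233.Fr

open Finset MvPolynomial Pool.Agent.TH206.Fro Pool.Agent.TH176.FB Pool.Agent.TH176.WL

/-- Maximal rank in all degrees for at least `2 ^ (n - 1)` forms of the least degree. -/
theorem full_rank_half (K : Type) [Field K] (n r : ℕ) (d : Fin r → ℕ) (hn : 1 ≤ n) (δ : ℕ)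
    (hδ : 1 ≤ δ) (hd : ∀ i, δ ≤ d i) (hc : 2 ^ (n - 1) ≤ (univ.filter (fun i => d i = δ)).card) :
    ∃ P : MvPolynomial (Io n d) K, P ≠ 0 ∧
      ∀ f : Fin r → MvPolynomial (Fin n) K, (∀ i, (f i).IsHomogeneous (d i)) →
        MvPolynomial.eval (fun s : Io n d => (f s.1).coeff s.2.1) P ≠ 0 →
        ∀ k : ℕ, True →
          min (Fintype.card (Ro n k d)) (Mon n k).card ≤ Module.finrank K (ik f k) := by
  classical
  obtain ⟨m, rfl⟩ : ∃ m, n = m + 1 := ⟨n - 1, by omega⟩
  rw [Nat.add_sub_cancel] at hc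
  -- the degrees below `2 δ`
  have hA : ∀ k : ℕ, ∃ P : MvPolynomial (Io (m + 1) d) K, P ≠ 0 ∧ (k < 2 * δ →
      ∀ f : Fin r → MvPolynomial (Fin (m + 1)) K, (∀ i, (f i).IsHomogeneous (d i)) →
        MvPolynomial.eval (fun s : Io (m + 1) d => (f s.1).coeff s.2.1) P ≠ 0 →
          min (Fintype.card (Ro (m + 1) k d)) (Mon (m + 1) k).card ≤
            Module.finrank K (ik f k)) := by
    intro k
    by_cases hk : k < 2 * δ
    · rcases good_or m r δ k d hd hk with h | ⟨h1, h2⟩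
      · obtain ⟨P, hP, hP2⟩ := rank_eval2 (m + 1) k r d K hn (h.sub2 hn)
        refine ⟨P, hP, fun _ f hf hfP => ?_⟩
        unfold ik
        rw [hilb_thm (m + 1) k r d K f hf, hP2 _ hfP]
      · obtain ⟨P, hP, hP2⟩ := rank_many m k r δ d K h1 hk.le h2 hc
        refine ⟨P, hP, fun _ f hf hfP => ?_⟩
        unfold ik
        rw [hilb_thm (m + 1) k r d K f hf]
        exact (min_le_right _ _).trans (hP2 _ hfP)
    · exact ⟨1, one_ne_zero, fun h => absurd h hk⟩
  choose P hP hP2 using hA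
  -- the degree `2 δ - 1`
  obtain ⟨T, hT⟩ : ∃ T, T = 2 * δ - 1 := ⟨_, rfl⟩
  have hNT : N m T ≤ 2 ^ m * N m (T - δ) := N_double m T (T - δ) (by omega)
  obtain ⟨Q, hQ, hQ2⟩ := rank_many m T r δ d K (by omega) (by omega) hNT hc
  refine ⟨Q * ∏ k ∈ Finset.range (2 * δ), P k,
    mul_ne_zero hQ (Finset.prod_ne_zero_iff.2 fun k _ => hP k), fun f hf hfP k _ => ?_⟩
  rw [map_mul, map_prod] at hfP
  have hfQ := left_ne_zero_of_mul hfP
  have hfR := Finset.prod_ne_zero_iff.1 (right_ne_zero_of_mul hfP)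
  rcases Nat.lt_or_ge k T with hk | hk
  · exact hP2 k (by omega) f hf (hfR k (Finset.mem_range.2 (by omega)))
  · have h1 : (Mon (m + 1) T).card ≤ Module.finrank K (ik f T) := by
      unfold ik
      rw [hilb_thm (m + 1) T r d K f hf]
      exact hQ2 _ hfQ
    have htop := ik_top_mono f _ k hk (ik_top_of_card f T h1)
    refine (min_le_right _ _).trans ?_
    rw [← dim_thm (m + 1) k K]
    have : FiniteDimensional K (ik f k) :=
      Submodule.finiteDimensional_of_le (S₂ := homogeneousSubmodule (Fin (m + 1)) K k) inf_le_right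
    exact Submodule.finrank_mono htop

/-- The weak Lefschetz property in one variable more, in all degrees, for at least `2 ^ (n - 1)`
forms of the least degree. -/
theorem wl_half (K : Type) [Field K] (n r : ℕ) (d : Fin r → ℕ) (hn : 1 ≤ n) (δ : ℕ)
    (hδ : 1 ≤ δ) (hd : ∀ i, δ ≤ d i) (hc : 2 ^ (n - 1) ≤ (univ.filter (fun i => d i = δ)).card) :
    ∃ P : MvPolynomial (Io (n + 1) d) K, P ≠ 0 ∧
      ∀ f : Fin r → MvPolynomial (Fin (n + 1)) K, (∀ i, (f i).IsHomogeneous (d i)) →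
        MvPolynomial.eval (fun s : Io (n + 1) d => (f s.1).coeff s.2.1) P ≠ 0 →
        ∀ k : ℕ, MR f k := by
  obtain ⟨P, hP, hP2⟩ := wl_of (fun _ => True) (full_rank_half K n r d hn δ hδ hd hc)
  exact ⟨P, hP, fun f hf hfP k => hP2 f hf hfP k trivial⟩

end Pool.Agent.Y233.Fr
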