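import Pool.Agent.Y233.Fr.Equal
import Pool.Agent.Y233.Fr.WLHalf

/-!
Fröberg's formula for spaces of at least `2 ^ (n - 1)` forms of the same degree.
-/

set_option autoImplicit false

namespace Pool.Agent.Y233.FrE

open MvPolynomial Module Pool.Agent.TH206.Fro Pool.Agent.TH206.WLP Pool.Agent.Y233.Fr

lemma N_double_lt (M k : ℕ) : N (M + 2) (2 * k + 1) < 2 ^ (M + 2) * N (M + 2) k := by
  refine Nat.lt_of_mul_lt_mul_right (a := M + 2) ?_
  have h1 := N_row (M + 1) (2 * k + 1)
  have h2 := N_row (M + 1) k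
  have h3 := N_double (M + 1) (2 * k + 1) k le_rfl
  have h4 := N_pos (M + 1) k
  have h5 : M + 1 + 1 = M + 2 := rfl
  rw [h5] at h1 h2
  calc N (M + 2) (2 * k + 1) * (M + 2) = N (M + 1) (2 * k + 1) * (2 * k + 1 + (M + 1) + 1) := h1
    _ ≤ 2 ^ (M + 1) * N (M + 1) k * (2 * k + 1 + (M + 1) + 1) := Nat.mul_le_mul_right _ h3
    _ < 2 ^ (M + 1) * N (M + 1) k * (2 * (k + (M + 1) + 1)) :=
        Nat.mul_lt_mul_of_pos_left (by omega) (by positivity)
    _ = 2 ^ (M + 2) * (N (M + 1) k * (k + (M + 1) + 1)) := by rw [pow_succ 2 (M + 1)]; ring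
    _ = 2 ^ (M + 2) * N (M + 2) k * (M + 2) := by rw [← h2, mul_assoc]

/-- the generic dimensions -/
theorem gen_dim_half (K : Type) [Field K] (n u d : ℕ) (hn : 1 ≤ n) (hd : 1 ≤ d)
    (hu : 2 ^ (n - 1) ≤ u) :
    ∃ P : MvPolynomial (Io n (fun _ : Fin u => d)) K, P ≠ 0 ∧
      ∀ f : Fin u → MvPolynomial (Fin n) K, (∀ i, (f i).IsHomogeneous d) →
        eval (fun s : Io n (fun _ : Fin u => d) => (f s.1).coeff s.2.1) P ≠ 0 →
        ∀ j : ℕ, finrank K ↥(part f (j + d)) =
          min (u * (Mon n j).card) (Mon n (j + d)).card := by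
  classical
  obtain ⟨P, hP, hP2⟩ := full_rank_half K n u (fun _ => d) hn d hd (fun _ => le_rfl) (by
    simpa using hu)
  refine ⟨P, hP, fun f hf hfP j => le_antisymm ?_ ?_⟩
  · have h2 := hilb_thm n (j + d) u (fun _ => d) K f hf
    rw [h2]
    refine le_min ?_ ?_
    · refine (Matrix.rank_le_card_height _).trans ?_
      rw [card_Ro]
      simp
    · rw [← h2, ← dim_thm n (j + d) K]
      exact Submodule.finrank_mono inf_le_right
  · have h1 := hP2 f hf hfP (j + d) trivial
    rw [card_Ro] at h1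
    have h3 : part f (j + d) = Pool.Agent.TH176.FB.ik f (j + d) := rfl
    rw [h3]
    simpa using h1

theorem main_half (K : Type) [Field K] [Infinite K] (n d u : ℕ) (hn : 3 ≤ n) (hd : 1 ≤ d)
    (hu : 2 ^ (n - 1) ≤ u)
    (hud : u ≤ finrank K (homogeneousSubmodule (Fin n) K d))
    (a : ℕ → ℤ) (ha : ∀ i : ℕ, a i = ∑ k ∈ Finset.range (u + 1),
          (-1 : ℤ) ^ k * (u.choose k : ℤ) *
            (if d * k ≤ i then ((n - 1 + i - d * k).choose (n - 1) : ℤ) else 0))
    (c : ℕ → ℤ)
    (hc : ∀ i : ℕ, ((∀ m : ℕ, m ≤ i → 0 ≤ a m) → c i = a i) ∧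
                  ((∃ m : ℕ, m ≤ i ∧ a m < 0) → c i = 0)) (j : ℕ) :
    (∀ V : Submodule K (MvPolynomial (Fin n) K), V ≤ homogeneousSubmodule (Fin n) K d →
        finrank K V = u →
        (finrank K ↥(pr j V) : ℤ) ≤
          (finrank K (homogeneousSubmodule (Fin n) K (j + d)) : ℤ) - c (j + d)) ∧
    (∃ V : Submodule K (MvPolynomial (Fin n) K), V ≤ homogeneousSubmodule (Fin n) K d ∧
        finrank K V = u ∧
        (finrank K ↥(pr j V) : ℤ) =
          (finrank K (homogeneousSubmodule (Fin n) K (j + d)) : ℤ) - c (j + d)) := by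
  have hn1 : 1 ≤ n := by omega
  have hu1 : 1 ≤ u := Nat.one_le_two_pow.trans hu
  obtain ⟨k, rfl⟩ : ∃ k, d = k + 1 := ⟨d - 1, by omega⟩
  have hstrict : (Mon n (k + 1 + k)).card < u * (Mon n k).card := by
    obtain ⟨M, rfl⟩ : ∃ M, n = M + 3 := ⟨n - 3, by omega⟩
    have h1 := N_double_lt M k
    rw [show M + 3 = (M + 2) + 1 by rfl, card_Mon_N, card_Mon_N]
    rw [show M + 3 - 1 = M + 2 by rfl] at hu
    rw [show k + 1 + k = 2 * k + 1 by ring]
    exact h1.trans_le (Nat.mul_le_mul_right _ hu)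
  have haa : ∀ i, i < 2 * (k + 1) → a i = aa n (k + 1) u i := fun i hi => by
    rw [ha, a_small hn1 hu1 hi, aa]
  have hsmall : ∀ j, j ≤ k → (Mon n (j + (k + 1))).card - c (j + (k + 1)) =
      ((min (u * (Mon n j).card) (Mon n (j + (k + 1))).card : ℕ) : ℤ) := by
    intro j hj
    have h1 : a (j + (k + 1)) = (Mon n (j + (k + 1))).card - u * (Mon n j).card := by
      rw [haa _ (by omega), aa, if_pos (by omega), Nat.add_sub_cancel]
    by_cases h : ∀ m, m ≤ j + (k + 1) → 0 ≤ a m
    · rw [(hc _).1 h, min_eq_left]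
      · push_cast
        linarith
      · have := h (j + (k + 1)) le_rfl
        rw [h1] at this
        have h3 : ((u * (Mon n j).card : ℕ) : ℤ) ≤ ((Mon n (j + (k + 1))).card : ℤ) := by
          push_cast
          linarith
        exact_mod_cast h3
    · push Not at h
      rw [(hc _).2 h, min_eq_right, sub_zero]
      obtain ⟨m, hm, hm2⟩ := h
      have h2 := aa_sign (u := u) hn1 hm (show j + (k + 1) < 2 * (k + 1) by omega)
        (by rw [← haa m (by omega)]; exact hm2.le)
      rw [← haa _ (by omega), h1] at h2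
      have h3 : ((Mon n (j + (k + 1))).card : ℤ) ≤ ((u * (Mon n j).card : ℕ) : ℤ) := by
        push_cast
        linarith
      exact_mod_cast h3
  have hlarge : k < j → c (j + (k + 1)) = 0 := by
    intro hkj
    refine (hc _).2 ⟨k + (k + 1), by omega, ?_⟩
    rw [haa _ (by omega), aa, if_pos (by omega), Nat.add_sub_cancel, Nat.add_comm k (k + 1)]
    have h3 : ((Mon n (k + 1 + k)).card : ℤ) < ((u * (Mon n k).card : ℕ) : ℤ) := by
      exact_mod_cast hstrict
    push_cast at h3
    linarith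
  constructor
  · intro V hV hVu
    rw [dim_thm n _ K]
    by_cases hjk : j ≤ k
    · rw [hsmall j hjk]
      have h1 := finrank_pr_le (K := K) j (k + 1) hV
      have h2 := finrank_pr_le' (K := K) j (k + 1) hV
      rw [hVu, mul_comm] at h1
      exact_mod_cast le_min h1 h2
    · rw [hlarge (by omega), sub_zero]
      exact_mod_cast finrank_pr_le' (K := K) j (k + 1) hV
  · obtain ⟨P, hP0, hP⟩ := gen_dim_half K n u (k + 1) hn1 hd hu
    obtain ⟨f, hf, hfP⟩ := exists_forms K hP0
    have h1 := hP f hf hfP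
    refine ⟨part f (k + 1), inf_le_right, ?_, ?_⟩
    · have h2 := h1 0
      rw [Nat.zero_add, card_Mon n 0, Nat.choose_zero_right, mul_one] at h2
      rw [h2]
      rw [dim_thm n (k + 1) K] at hud
      exact min_eq_left hud
    · rw [pr_part hf, dim_thm n _ K]
      by_cases hjk : j ≤ k
      · rw [hsmall j hjk, h1 j]
      · rw [hlarge (by omega), sub_zero]
        have h2 : hilb f (k + (k + 1)) = 0 := by
          unfold hilb
          have h3 := h1 k
          rw [Nat.add_comm (k + 1) k] at hstrict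
          rw [min_eq_right hstrict.le] at h3
          change (finrank K ↥(homogeneousSubmodule (Fin n) K (k + (k + 1))) : ℤ) -
            (finrank K ↥(part f (k + (k + 1))) : ℤ) = 0
          rw [h3, dim_thm n _ K, sub_self]
        have h4 : part f (j + (k + 1)) = homogeneousSubmodule (Fin n) K (j + (k + 1)) :=
          le_antisymm inf_le_right fun g hg => ⟨all_of h2 (by omega) g hg, hg⟩
        rw [h4, dim_thm n _ K]

end Pool.Agent.Y233.FrE
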