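import Pool.Agent.Y233.Fr.Lift
import Pool.Agent.Y233.Fr.WLHalf
import Pool.Agent.Y233.Fr.EqualHalf

/-!
Fröberg's formula for at most `2 ^ m` forms: degrees `k` with `2 k + m + 1 ≤ 4 d i`.
-/

set_option autoImplicit false

namespace Pool.Agent.Y233.Fr

open Finset MvPolynomial Pool.Agent.TH206.Fro Pool.Agent.TH176.FB Pool.Agent.TH176.WL

lemma card_Ro_le (m r k : ℕ) (d : Fin r → ℕ) (hr : r ≤ 2 ^ m)
    (hk : ∀ i, 2 * k + (m + 1) ≤ 4 * d i) :
    Fintype.card (Ro (m + 1) k d) ≤ (Mon (m + 1) k).card := by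
  rw [card_Ro, card_Mon_N]
  have h1 : ∀ i : Fin r, 2 ^ m * (if d i ≤ k then (Mon (m + 1) (k - d i)).card else 0) ≤ N m k := by
    intro i
    split_ifs with h
    · rw [card_Mon_N]
      have hki := hk i
      have h2 := N_large m (k - d i) (2 * d i - k) (by omega)
      rwa [show 2 * (k - d i) + (2 * d i - k) = k by omega] at h2
    · simp
  refine Nat.le_of_mul_le_mul_left ?_ (show 0 < 2 ^ m by positivity)
  rw [Finset.mul_sum]
  calc ∑ i, 2 ^ m * (if d i ≤ k then (Mon (m + 1) (k - d i)).card else 0)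
      ≤ ∑ _i : Fin r, N m k := Finset.sum_le_sum fun i _ => h1 i
    _ = r * N m k := by rw [Finset.sum_const, Finset.card_univ, Fintype.card_fin, smul_eq_mul]
    _ ≤ 2 ^ m * N m k := Nat.mul_le_mul_right _ hr

/-- Independence in all larger numbers of variables. -/
theorem inj_all (K : Type) [Field K] (m r : ℕ) (d : Fin r → ℕ) (hr : r ≤ 2 ^ m) (n : ℕ)
    (hn : m + 1 ≤ n) :
    ∃ P : MvPolynomial (Io n d) K, P ≠ 0 ∧
      ∀ f : Fin r → MvPolynomial (Fin n) K, (∀ i, (f i).IsHomogeneous (d i)) →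
        MvPolynomial.eval (fun s : Io n d => (f s.1).coeff s.2.1) P ≠ 0 →
        ∀ k : ℕ, (∀ i, 2 * k + (m + 1) ≤ 4 * d i) →
          Fintype.card (Ro n k d) ≤ Module.finrank K (ik f k) := by
  induction n, hn using Nat.le_induction with
  | base =>
    obtain ⟨P, hP, hP2⟩ := full_rank K (m + 1) r d (by omega)
    refine ⟨P, hP, fun f hf hfP k hk => ?_⟩
    have h1 := hP2 f hf hfP k (Or.inl (good_half (by omega) hk))
    rwa [min_eq_left (card_Ro_le m r k d hr hk)] at h1
  | succ n hmn ih =>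
    obtain ⟨P, hP, hP2⟩ := ih
    obtain ⟨Q, hQ, hQ2⟩ := wl_poly K n r d P hP
    refine ⟨Q, hQ, fun f hf hfQ => ?_⟩
    obtain ⟨h1, h2⟩ := hQ2 f hf hfQ
    have h3 := hP2 _ h1 h2
    intro k
    induction k with
    | zero =>
      intro hk
      have h4 : Fintype.card (Ro (n + 1) 0 d) = 0 := by
        rw [card_Ro]
        refine Finset.sum_eq_zero fun i _ => ?_
        have := hk i
        rw [if_neg (by omega)]
      rw [h4]
      exact Nat.zero_le _
    | succ k ihk =>
      intro hk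
      exact inj_lift f hf h1 (h3 (k + 1) hk) (ihk fun i => by have := hk i; omega)

/-- Maximal rank for at most `2 ^ m` forms. -/
theorem few_rank (K : Type) [Field K] (m n r : ℕ) (d : Fin r → ℕ) (hn : 1 ≤ n) (hr : r ≤ 2 ^ m) :
    ∃ P : MvPolynomial (Io n d) K, P ≠ 0 ∧
      ∀ f : Fin r → MvPolynomial (Fin n) K, (∀ i, (f i).IsHomogeneous (d i)) →
        MvPolynomial.eval (fun s : Io n d => (f s.1).coeff s.2.1) P ≠ 0 →
        ∀ k : ℕ, (∀ i, 2 * k + min n (m + 1) ≤ 4 * d i) →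
          min (Fintype.card (Ro n k d)) (Mon n k).card ≤ Module.finrank K (ik f k) := by
  rcases Nat.lt_or_ge n (m + 1) with h | h
  · obtain ⟨P, hP, hP2⟩ := full_rank K n r d hn
    refine ⟨P, hP, fun f hf hfP k hk => hP2 f hf hfP k (Or.inl (good_half hn ?_))⟩
    rwa [min_eq_left h.le] at hk
  · obtain ⟨P, hP, hP2⟩ := inj_all K m r d hr n h
    refine ⟨P, hP, fun f hf hfP k hk => (min_le_left _ _).trans (hP2 f hf hfP k ?_)⟩
    rwa [min_eq_right h] at hk

/-- Fröberg's formula for at most `2 ^ m` forms. -/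
theorem few_forms (K : Type) [Field K] (m n r : ℕ) (d : Fin r → ℕ) (hn : 1 ≤ n)
    (hr : r ≤ 2 ^ m) :
    ∃ P : MvPolynomial (Io n d) K, P ≠ 0 ∧
      ∀ f : Fin r → MvPolynomial (Fin n) K, (∀ i, (f i).IsHomogeneous (d i)) →
        MvPolynomial.eval (fun s : Io n d => (f s.1).coeff s.2.1) P ≠ 0 →
        ∀ k : ℕ, (∀ i, 2 * k + min n (m + 1) ≤ 4 * d i) → hilb f k = fro n d k := by
  obtain ⟨P, hP, hP2⟩ := few_rank K m n r d hn hr
  refine ⟨P, hP, fun f hf hfP k hk => hilb_eq K n r k d hn (fun i => ?_) f hf (hP2 f hf hfP k hk)⟩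
  have := hk i
  omega

/-- The weak Lefschetz property for at most `2 ^ m` forms. -/
theorem wl_few (K : Type) [Field K] (m n r : ℕ) (d : Fin r → ℕ) (hn : 1 ≤ n) (hr : r ≤ 2 ^ m) :
    ∃ P : MvPolynomial (Io (n + 1) d) K, P ≠ 0 ∧
      ∀ f : Fin r → MvPolynomial (Fin (n + 1)) K, (∀ i, (f i).IsHomogeneous (d i)) →
        MvPolynomial.eval (fun s : Io (n + 1) d => (f s.1).coeff s.2.1) P ≠ 0 →
        ∀ k : ℕ, (∀ i, 2 * (k + 1) + min n (m + 1) ≤ 4 * d i) → MR f k :=
  wl_of (fun k => ∀ i, 2 * k + min n (m + 1) ≤ 4 * d i) (few_rank K m n r d hn hr)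

end Pool.Agent.Y233.Fr

namespace Pool.Agent.Y233.FrE

open MvPolynomial Module Pool.Agent.TH206.Fro Pool.Agent.TH206.WLP Pool.Agent.Y233.Fr

/-- the generic dimensions -/
theorem gen_dim_few (K : Type) [Field K] (m n u d j : ℕ) (hn : 1 ≤ n)
    (hu : u ≤ 2 ^ m) (hj : 2 * j + m + 1 ≤ 2 * d) :
    ∃ P : MvPolynomial (Io n (fun _ : Fin u => d)) K, P ≠ 0 ∧
      ∀ f : Fin u → MvPolynomial (Fin n) K, (∀ i, (f i).IsHomogeneous d) →
        eval (fun s : Io n (fun _ : Fin u => d) => (f s.1).coeff s.2.1) P ≠ 0 →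
        ∀ i ≤ j, finrank K ↥(part f (i + d)) =
          min (u * (Mon n i).card) (Mon n (i + d)).card := by
  classical
  obtain ⟨P, hP, hP2⟩ := few_rank K m n u (fun _ => d) hn hu
  refine ⟨P, hP, fun f hf hfP i hi => le_antisymm ?_ ?_⟩
  · have h2 := hilb_thm n (i + d) u (fun _ => d) K f hf
    rw [h2]
    refine le_min ?_ ?_
    · refine (Matrix.rank_le_card_height _).trans ?_
      rw [card_Ro]
      simp
    · rw [← h2, ← dim_thm n (i + d) K]
      exact Submodule.finrank_mono inf_le_right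
  · have h1 := hP2 f hf hfP (i + d) (fun _ => by
      have := min_le_right n (m + 1)
      omega)
    rw [card_Ro] at h1
    have h3 : part f (i + d) = Pool.Agent.TH176.FB.ik f (i + d) := rfl
    rw [h3]
    simpa using h1

theorem main_few (K : Type) [Field K] [Infinite K] (m n d u : ℕ) (hn : 1 ≤ n)
    (hu1 : 1 ≤ u) (hu : u ≤ 2 ^ m)
    (hud : u ≤ finrank K (homogeneousSubmodule (Fin n) K d))
    (a : ℕ → ℤ) (ha : ∀ i : ℕ, a i = ∑ k ∈ Finset.range (u + 1),
          (-1 : ℤ) ^ k * (u.choose k : ℤ) *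
            (if d * k ≤ i then ((n - 1 + i - d * k).choose (n - 1) : ℤ) else 0))
    (c : ℕ → ℤ)
    (hc : ∀ i : ℕ, ((∀ m : ℕ, m ≤ i → 0 ≤ a m) → c i = a i) ∧
                  ((∃ m : ℕ, m ≤ i ∧ a m < 0) → c i = 0)) (j : ℕ)
    (hj : 2 * j + m + 1 ≤ 2 * d) :
    (∀ V : Submodule K (MvPolynomial (Fin n) K), V ≤ homogeneousSubmodule (Fin n) K d →
        finrank K V = u →
        (finrank K ↥(pr j V) : ℤ) ≤
          (finrank K (homogeneousSubmodule (Fin n) K (j + d)) : ℤ) - c (j + d)) ∧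
    (∃ V : Submodule K (MvPolynomial (Fin n) K), V ≤ homogeneousSubmodule (Fin n) K d ∧
        finrank K V = u ∧
        (finrank K ↥(pr j V) : ℤ) =
          (finrank K (homogeneousSubmodule (Fin n) K (j + d)) : ℤ) - c (j + d)) := by
  have haa : ∀ i, i < 2 * d → a i = aa n d u i := fun i hi => by
    rw [ha, a_small hn hu1 hi, aa]
  have hsmall : (Mon n (j + d)).card - c (j + d) =
      ((min (u * (Mon n j).card) (Mon n (j + d)).card : ℕ) : ℤ) := by
    have h1 : a (j + d) = (Mon n (j + d)).card - u * (Mon n j).card := by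
      rw [haa _ (by omega), aa, if_pos (by omega), Nat.add_sub_cancel]
    by_cases h : ∀ m, m ≤ j + d → 0 ≤ a m
    · rw [(hc _).1 h, min_eq_left]
      · push_cast
        linarith
      · have := h (j + d) le_rfl
        rw [h1] at this
        have h3 : ((u * (Mon n j).card : ℕ) : ℤ) ≤ ((Mon n (j + d)).card : ℤ) := by
          push_cast
          linarith
        exact_mod_cast h3
    · push Not at h
      rw [(hc _).2 h, min_eq_right, sub_zero]
      obtain ⟨m, hm, hm2⟩ := h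
      have h2 := aa_sign (u := u) hn hm (show j + d < 2 * d by omega)
        (by rw [← haa m (by omega)]; exact hm2.le)
      rw [← haa _ (by omega), h1] at h2
      have h3 : ((Mon n (j + d)).card : ℤ) ≤ ((u * (Mon n j).card : ℕ) : ℤ) := by
        push_cast
        linarith
      exact_mod_cast h3
  constructor
  · intro V hV hVu
    rw [dim_thm n _ K, hsmall]
    have h1 := finrank_pr_le (K := K) j d hV
    have h2 := finrank_pr_le' (K := K) j d hV
    rw [hVu, mul_comm] at h1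
    exact_mod_cast le_min h1 h2
  · obtain ⟨P, hP0, hP⟩ := gen_dim_few K m n u d j hn hu hj
    obtain ⟨f, hf, hfP⟩ := exists_forms K hP0
    have h1 := hP f hf hfP
    refine ⟨part f d, inf_le_right, ?_, ?_⟩
    · have h2 := h1 0 (Nat.zero_le _)
      rw [Nat.zero_add, card_Mon n 0, Nat.choose_zero_right, mul_one] at h2
      rw [h2]
      rw [dim_thm n d K] at hud
      exact min_eq_left hud
    · rw [pr_part hf, dim_thm n _ K, hsmall, h1 j le_rfl]

end Pool.Agent.Y233.FrE
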