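import Pool.Agent.Y233.Fr.Sub
import Pool.Agent.TH176.NM.Equal

/-!
The formula of Froeberg in the good degrees, and in all degrees if the predicted value is zero in a
good degree.
-/

set_option autoImplicit false

namespace Pool.Agent.Y233.Fr

open Finset MvPolynomial Pool.Agent.TH206.Fro Pool.Agent.TH176.FB

/-- The condition on one degree `D`. -/
def Good (n : ℕ) {r : ℕ} (d : Fin r → ℕ) (D : ℕ) : Prop :=
  ∀ i, D < 2 * d i ∧ (D ≤ d i ∨ n * (D - d i) ≤ (2 * d i - D) * (D - 1) ∨
    2 * D + 2 ≤ n + 2 * d i ∨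
    2 * (n + (D - d i)) * (n + (D - d i) - 1).choose (D - d i) ≤ n * (n + d i - 1).choose (d i))

lemma Good.sub2 {n r D : ℕ} (hn : 1 ≤ n) {d : Fin r → ℕ} (h : Good n d D) :
    ∀ i, d i ≤ D → D ≤ 2 * d i ∧ Sub2 n (D - d i) (d i) := by
  intro i hi
  obtain ⟨h1, h2⟩ := h i
  refine ⟨h1.le, ?_⟩
  obtain ⟨k, hk⟩ : ∃ k, D = d i + k := ⟨D - d i, by omega⟩
  obtain ⟨e, he⟩ : ∃ e, d i = k + e := ⟨d i - k, by omega⟩
  rw [hk, Nat.add_sub_cancel_left] at h2 ⊢
  rcases Nat.eq_zero_or_pos k with h0 | h0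
  · rw [h0]
    exact sub2_of_subM (subM_of_monM init_thm (MonM_zero n (d i)))
  · rcases h2 with h3 | h3 | h3 | h3
    · omega
    · refine sub2_new hn (by omega) ?_
      rw [he] at h3 ⊢
      rw [show 2 * (k + e) - (k + e + k) = e by omega] at h3
      rw [show k + e - k = e by omega]
      obtain ⟨c, hc⟩ : ∃ c, k + e + k - 1 = c ∧ c + 1 = 2 * k + e := ⟨_, rfl, by omega⟩
      rw [hc.1] at h3
      have h4 : e * (c + 1) = 2 * k * e + e * e := by rw [hc.2]; ring
      have h5 : n * k = k * n := Nat.mul_comm _ _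
      rw [Nat.mul_add, Nat.mul_one] at h4
      omega
    · refine sub2_of_subM (subM_of_monM init_thm (Cond.monM hn (by omega) ?_))
      unfold Cond
      left; omega
    · refine sub2_of_subM (subM_of_monM init_thm (Cond.monM hn (by omega) ?_))
      exact Or.inr h3

theorem full (K : Type) [Field K] (n r : ℕ) (d : Fin r → ℕ) (hn : 1 ≤ n) :
    ∃ P : MvPolynomial (Io n d) K, P ≠ 0 ∧
      ∀ f : Fin r → MvPolynomial (Fin n) K, (∀ i, (f i).IsHomogeneous (d i)) →
        MvPolynomial.eval (fun s : Io n d => (f s.1).coeff s.2.1) P ≠ 0 →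
        ∀ k : ℕ, (Good n d k ∨ ∃ D ≤ k, Good n d D ∧ co n d D ≤ 0) → hilb f k = fro n d k := by
  classical
  rcases Nat.eq_zero_or_pos r with hr | hr
  · -- no forms
    subst hr
    refine ⟨1, one_ne_zero, fun f hf _ k _ => ?_⟩
    refine hilb_eq K n 0 k d hn (fun i => i.elim0) f hf ?_
    have h1 : Fintype.card (Ro n k d) = 0 := by
      rw [card_Ro]; simp
    rw [h1]
    exact (min_le_left _ _).trans (Nat.zero_le _)
  · obtain ⟨i0, hi0⟩ : ∃ i0 : Fin r, i0 = ⟨0, hr⟩ := ⟨_, rfl⟩
    have hA : ∀ k : ℕ, ∃ P : MvPolynomial (Io n d) K, P ≠ 0 ∧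
        ∀ f : Fin r → MvPolynomial (Fin n) K, (∀ i, (f i).IsHomogeneous (d i)) →
          MvPolynomial.eval (fun s : Io n d => (f s.1).coeff s.2.1) P ≠ 0 →
          Good n d k →
            min (Fintype.card (Ro n k d)) (Mon n k).card ≤ Module.finrank K (ik f k) := by
      intro k
      by_cases h : Good n d k
      · obtain ⟨P, hP, hP2⟩ := rank_eval2 n k r d K hn (h.sub2 hn)
        refine ⟨P, hP, fun f hf hfP _ => ?_⟩
        unfold ik
        rw [hilb_thm n k r d K f hf, hP2 _ hfP]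
      · exact ⟨1, one_ne_zero, fun f _ _ h' => absurd h' h⟩
    choose P hP hP2 using hA
    refine ⟨∏ D ∈ Finset.range (2 * d i0), P D, Finset.prod_ne_zero_iff.2 fun D _ => hP D,
      fun f hf hfP => ?_⟩
    rw [map_prod, Finset.prod_ne_zero_iff] at hfP
    have hgood : ∀ k, Good n d k →
        min (Fintype.card (Ro n k d)) (Mon n k).card ≤ Module.finrank K (ik f k) := by
      intro k hk
      exact hP2 k f hf (hfP k (Finset.mem_range.2 (hk i0).1)) hk
    intro k hk
    rcases hk with hk | ⟨D, hDk, hD, hco⟩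
    · exact hilb_eq K n r k d hn (fun i => (hk i).1) f hf (hgood k hk)
    · have h1 := hgood D hD
      have h2 := hco
      rw [co_thm n r D d hn (fun i => (hD i).1) D le_rfl] at h2
      have h3 : (Mon n D).card ≤ Fintype.card (Ro n D d) := by
        rw [card_Ro]
        have h4 : ((Mon n D).card : ℤ) ≤
            ((∑ i, (if d i ≤ D then (Mon n (D - d i)).card else 0) : ℕ) : ℤ) := by
          push_cast
          linarith
        exact_mod_cast h4
      rw [min_eq_right h3] at h1
      have htop := ik_top_of_card f D h1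
      rw [Pool.Agent.TH176.NM.fro_zero_of n r D d hco k hDk]
      exact hilb_zero_of_top f k (ik_top_mono f _ k hDk htop)

end Pool.Agent.Y233.Fr
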