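import Pool.Agent.Y233.Fr.Core

/-!
Lower sets in the chambers and the points shifted by one: the counting part of the bound for the
codimension.
-/

set_option autoImplicit false

namespace Pool.Agent.Y233.Fr

open Finset

lemma Ch_zero (k : ℕ) : Ch 0 k = {Fin.elim0} := by
  ext z
  rw [mem_Ch, mem_singleton]
  exact ⟨fun _ => Subsingleton.elim _ _, fun _ => ⟨fun j => j.elim0, fun j => j.elim0⟩⟩

/-- The quotients of consecutive sizes decrease. -/
lemma N_cross (M y u : ℕ) (h : y ≤ u) : N M y * N M (u + 1) ≤ N M (y + 1) * N M u := by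
  have h1 := N_step M y
  have h2 := N_step M u
  refine Nat.le_of_mul_le_mul_right ?_ (show 0 < (y + 1) * (u + 1) by positivity)
  calc N M y * N M (u + 1) * ((y + 1) * (u + 1))
      = N M y * (y + 1) * (N M (u + 1) * (u + 1)) := by ring
    _ = N M y * N M u * ((y + 1) * (u + M + 1)) := by rw [← h2]; ring
    _ ≤ N M y * N M u * ((y + M + 1) * (u + 1)) := by
        refine Nat.mul_le_mul_left _ ?_
        have : M * y ≤ M * u := Nat.mul_le_mul_left _ h
        nlinarith
    _ = N M (y + 1) * (y + 1) * (N M u * (u + 1)) := by rw [← h1]; ring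
    _ = _ := by ring

/-- The points of a lower set that are shifted by one are less dense. -/
theorem DNM (M : ℕ) : ∀ (u : ℕ) (p : (Fin M → ℕ) → Prop), Low M (u + 1) p →
    ct M u (fun z => p (fun j => z j + 1)) * N M (u + 1) ≤ ct M (u + 1) p * N M u := by
  induction M with
  | zero =>
    classical
    intro u p _
    have h2 : ∀ z : Fin 0 → ℕ, z = Fin.elim0 := fun z => Subsingleton.elim _ _
    unfold ct
    rw [Ch_zero, Ch_zero]
    simp only [N, Nat.choose_zero_right, mul_one]
    refine Finset.card_le_card fun z hz => ?_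
    rw [mem_filter] at hz ⊢
    refine ⟨hz.1, ?_⟩
    have h3 := hz.2
    rw [h2 (fun j => z j + 1), ← h2 z] at h3
    exact h3
  | succ M ih =>
    intro u p hp
    obtain ⟨a, ha⟩ : ∃ a : ℕ → ℕ, ∀ i, a i = ct M i (fun z => p (Fin.cons i z)) :=
      ⟨_, fun _ => rfl⟩
    obtain ⟨b, hb⟩ : ∃ b : ℕ → ℕ, ∀ i, b i =
      ct M i (fun z => p (Fin.cons (i + 1) (fun j => z j + 1))) := ⟨_, fun _ => rfl⟩
    have hA : ct (M + 1) (u + 1) p = ∑ i ∈ range (u + 2), a i := by
      rw [ct_succ]
      exact sum_congr rfl fun i _ => (ha i).symm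
    have hB : ct (M + 1) u (fun z => p (fun j => z j + 1)) = ∑ i ∈ range (u + 1), b i := by
      rw [ct_succ]
      refine sum_congr rfl fun i _ => ?_
      rw [hb i]
      refine ct_congr fun z _ => ?_
      have h1 : (fun j => (Fin.cons i z : Fin (M + 1) → ℕ) j + 1) =
          (Fin.cons (i + 1) (fun j => z j + 1) : Fin (M + 1) → ℕ) := by
        funext j
        refine Fin.cases ?_ (fun j => ?_) j
        · simp
        · simp
      rw [h1]
    have h1 : ∀ i, i ≤ u → b i * N M (i + 1) ≤ a (i + 1) * N M i := by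
      intro i hi
      rw [ha, hb]
      exact ih i _ (hp.slice (show i + 1 ≤ u + 1 by omega))
    have h2 : ∀ i, i < u + 1 → a (i + 1) * N M i ≤ a i * N M (i + 1) := by
      intro i hi
      rw [ha, ha]
      refine (NM M i (i + 1) _ (by omega) (hp.slice (show i + 1 ≤ u + 1 by omega))).trans ?_
      exact Nat.mul_le_mul_right _ (hp.slice_le (by omega) (by omega))
    have hN : ∀ i, (0 : ℚ) < N M i := fun i => by exact_mod_cast N_pos M i
    obtain ⟨w, hw0, hw1⟩ : ∃ w : ℕ → ℚ, w 0 = 0 ∧ ∀ i, w (i + 1) = N M i :=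
      ⟨fun i => match i with
        | 0 => 0
        | i + 1 => N M i, rfl, fun _ => rfl⟩
    have h3 := abel (fun i => (a i : ℚ) / N M i)
      (fun i => (N M i : ℚ) * N (M + 1) u - w i * N (M + 1) (u + 1)) (u + 1)
      (by
        intro i hi
        rw [div_le_div_iff₀ (hN _) (hN _)]
        exact_mod_cast h2 i hi)
      (by positivity)
      (by
        intro z hz
        rw [Finset.sum_sub_distrib, ← Finset.sum_mul, ← Finset.sum_mul, sub_nonneg]
        have e1 : ∑ i ∈ range (z + 1), (N M i : ℚ) = N (M + 1) z := by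
          rw [← sum_N]; push_cast; rfl
        rw [e1, Finset.sum_range_succ', hw0, add_zero]
        rcases Nat.eq_zero_or_pos z with h0 | h0
        · subst h0
          simp only [Finset.range_zero, Finset.sum_empty, zero_mul]
          positivity
        · obtain ⟨y, rfl⟩ : ∃ y, z = y + 1 := ⟨z - 1, by omega⟩
          have e2 : ∑ i ∈ range (y + 1), w (i + 1) = (N (M + 1) y : ℚ) := by
            rw [← sum_N]
            push_cast
            exact sum_congr rfl fun i _ => hw1 i
          rw [e2]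
          exact_mod_cast N_cross (M + 1) y u (by omega))
    have h4 : ∑ i ∈ range (u + 1 + 1), (a i : ℚ) / N M i *
        ((N M i : ℚ) * N (M + 1) u - w i * N (M + 1) (u + 1)) =
        (∑ i ∈ range (u + 2), (a i : ℚ)) * N (M + 1) u -
          (∑ i ∈ range (u + 1), (a (i + 1) : ℚ) / N M (i + 1) * N M i) * N (M + 1) (u + 1) := by
      have e1 : ∑ i ∈ range (u + 1), (a (i + 1) : ℚ) / N M (i + 1) * N M i =
          ∑ i ∈ range (u + 1 + 1), (a i : ℚ) / N M i * w i := by
        rw [Finset.sum_range_succ' _ (u + 1), hw0, mul_zero, add_zero]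
        exact sum_congr rfl fun i _ => by rw [hw1]
      rw [e1, Finset.sum_mul, Finset.sum_mul, ← Finset.sum_sub_distrib]
      refine sum_congr rfl fun i _ => ?_
      have := (hN i).ne'
      field_simp
    rw [h4] at h3
    have h5 : ∑ i ∈ range (u + 1), (b i : ℚ) ≤
        ∑ i ∈ range (u + 1), (a (i + 1) : ℚ) / N M (i + 1) * N M i := by
      refine Finset.sum_le_sum fun i hi => ?_
      rw [div_mul_eq_mul_div, le_div_iff₀ (hN _)]
      exact_mod_cast h1 i (by rw [mem_range] at hi; omega)
    have h6 : (0 : ℚ) ≤ N (M + 1) (u + 1) := Nat.cast_nonneg _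
    have h7 := mul_le_mul_of_nonneg_right h5 h6
    rw [hA, hB]
    have h8 : (∑ i ∈ range (u + 1), (b i : ℚ)) * N (M + 1) (u + 1) ≤
        (∑ i ∈ range (u + 2), (a i : ℚ)) * N (M + 1) u := by linarith
    exact_mod_cast h8

/-! ### The last coordinate -/

lemma in_snoc {m k : ℕ} {z : Fin m → ℕ} :
    In k (Fin.snoc z 0 : Fin (m + 1) → ℕ) ↔ In k z := by
  unfold In
  constructor
  · rintro ⟨h1, h2⟩
    refine ⟨fun j => ?_, fun a b hab => ?_⟩
    · have := h1 j.castSucc
      simpa using this
    · have := h2 (Fin.castSucc_le_castSucc_iff.2 hab)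
      simpa using this
  · rintro ⟨h1, h2⟩
    refine ⟨fun j => ?_, fun a b hab => ?_⟩
    · refine Fin.lastCases ?_ (fun j => ?_) j
      · simp
      · simpa using h1 j
    · induction b using Fin.lastCases with
      | last => simp
      | cast b =>
        induction a using Fin.lastCases with
        | last =>
          have := Fin.le_iff_val_le_val.1 hab
          have h3 := b.2
          simp at this
          omega
        | cast a => simpa using h2 (Fin.castSucc_le_castSucc_iff.1 hab)

/-- Splitting with respect to the last coordinate. -/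
lemma ct_last (m k : ℕ) (p : (Fin (m + 1) → ℕ) → Prop) :
    ct (m + 1) (k + 1) p = ct (m + 1) k (fun z => p (fun j => z j + 1)) +
      ct m (k + 1) (fun y => p (Fin.snoc y 0)) := by
  classical
  have h0 : ct (m + 1) (k + 1) p =
      (((Ch (m + 1) (k + 1)).filter p).filter (fun z => z (Fin.last m) ≠ 0)).card +
      (((Ch (m + 1) (k + 1)).filter p).filter (fun z => ¬ z (Fin.last m) ≠ 0)).card := by
    unfold ct
    exact (Finset.card_filter_add_card_filter_not _).symm
  rw [h0]
  congr 1
  · unfold ct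
    symm
    refine Finset.card_bij (fun z _ => fun j => z j + 1) ?_ ?_ ?_
    · intro z hz
      rw [mem_filter, mem_Ch] at hz
      rw [mem_filter, mem_filter, mem_Ch]
      refine ⟨⟨⟨fun j => ?_, fun a b hab => ?_⟩, hz.2⟩, ?_⟩
      · exact Nat.succ_le_succ (hz.1.1 j)
      · exact Nat.succ_le_succ (hz.1.2 hab)
      · exact Nat.succ_ne_zero _
    · intro z _ w _ h
      funext j
      exact Nat.succ_injective (congrFun h j)
    · intro z hz
      rw [mem_filter, mem_filter, mem_Ch] at hz
      obtain ⟨⟨h1, h2⟩, h3⟩ := hz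
      have h4 : ∀ j, 1 ≤ z j := fun j =>
        (Nat.one_le_iff_ne_zero.2 h3).trans (h1.2 (Fin.le_last j))
      have h5 : (fun j => z j - 1 + 1) = z := by
        funext j
        exact Nat.sub_add_cancel (h4 j)
      refine ⟨fun j => z j - 1, ?_, h5⟩
      rw [mem_filter, mem_Ch]
      refine ⟨⟨fun j => ?_, fun a b hab => ?_⟩, ?_⟩
      · have := h1.1 j
        show z j - 1 ≤ k
        omega
      · exact Nat.sub_le_sub_right (h1.2 hab) 1
      · show p (fun j => z j - 1 + 1)
        rw [h5]
        exact h2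
  · unfold ct
    symm
    refine Finset.card_bij (fun z _ => (Fin.snoc z 0 : Fin (m + 1) → ℕ)) ?_ ?_ ?_
    · intro z hz
      rw [mem_filter, mem_Ch] at hz
      rw [mem_filter, mem_filter, mem_Ch, in_snoc]
      refine ⟨⟨hz.1, hz.2⟩, ?_⟩
      simp
    · intro z _ w _ h
      have h2 : Fin.init (Fin.snoc z 0 : Fin (m + 1) → ℕ) =
        Fin.init (Fin.snoc w 0 : Fin (m + 1) → ℕ) := congrArg Fin.init h
      simpa using h2
    · intro z hz
      rw [mem_filter, mem_filter, mem_Ch] at hz
      obtain ⟨⟨h1, h2⟩, h3⟩ := hz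
      rw [not_not] at h3
      have h4 : (Fin.snoc (Fin.init z) 0 : Fin (m + 1) → ℕ) = z := by
        have h5 := Fin.snoc_init_self z
        rw [h3] at h5
        exact h5
      refine ⟨Fin.init z, ?_, h4⟩
      rw [mem_filter, mem_Ch]
      rw [← h4, in_snoc] at h1
      rw [← h4] at h2
      exact ⟨h1, h2⟩

lemma ct_last0 (m : ℕ) (p : (Fin (m + 1) → ℕ) → Prop) :
    ct (m + 1) 0 p = ct m 0 (fun y => p (Fin.snoc y 0)) := by
  classical
  have h1 : ∀ (m : ℕ) (z : Fin m → ℕ), In 0 z → z = fun _ => 0 := by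
    intro m z hz
    funext j
    exact Nat.le_zero.1 (hz.1 j)
  unfold ct
  symm
  refine Finset.card_bij (fun z _ => (Fin.snoc z 0 : Fin (m + 1) → ℕ)) ?_ ?_ ?_
  · intro z hz
    rw [mem_filter, mem_Ch] at hz
    rw [mem_filter, mem_Ch, in_snoc]
    exact hz
  · intro z hz w hw _
    rw [mem_filter, mem_Ch] at hz hw
    rw [h1 m z hz.1, h1 m w hw.1]
  · intro z hz
    rw [mem_filter, mem_Ch] at hz
    have h4 : (Fin.snoc (Fin.init z) 0 : Fin (m + 1) → ℕ) = z := by
      have h5 := Fin.snoc_init_self z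
      rw [show z (Fin.last m) = 0 from Nat.le_zero.1 (hz.1.1 _)] at h5
      exact h5
    refine ⟨Fin.init z, ?_, h4⟩
    rw [mem_filter, mem_Ch]
    obtain ⟨h2, h3⟩ := hz
    rw [← h4, in_snoc] at h2
    rw [← h4] at h3
    exact ⟨h2, h3⟩

/-! ### Slopes -/

/-- The shifted set. -/
def sh {m : ℕ} (p : (Fin m → ℕ) → Prop) (k G : ℕ) : (Fin m → ℕ) → Prop :=
  fun z => p (fun j => z j + k - G)

lemma sh_in {m k G : ℕ} {z : Fin m → ℕ} (hz : In G z) : In k (fun j => z j + k - G) := by
  refine ⟨fun j => ?_, fun a b hab => ?_⟩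
  · have := hz.1 j
    show z j + k - G ≤ k
    omega
  · have := hz.2 hab
    show z b + k - G ≤ z a + k - G
    omega

lemma sh_low {m k : ℕ} {p : (Fin m → ℕ) → Prop} (hp : Low m k p) (G : ℕ) :
    Low m G (sh p k G) := by
  intro z w hz hw hwz h
  refine hp _ _ (sh_in hz) (sh_in hw) (fun j => ?_) h
  have h1 : w j ≤ z j := hwz j
  show w j + k - G ≤ z j + k - G
  omega

/-- The sizes of the layers. -/
noncomputable def sl {m : ℕ} (p : (Fin (m + 1) → ℕ) → Prop) (k g : ℕ) : ℕ :=
  ct m g (fun y => sh p k g (Fin.snoc y 0))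

lemma ct_sh {m k : ℕ} (p : (Fin (m + 1) → ℕ) → Prop) (G : ℕ) :
    ct (m + 1) G (sh p k G) = ∑ g ∈ range (G + 1), sl p k g := by
  induction G with
  | zero =>
    rw [ct_last0, Finset.sum_range_succ, Finset.range_zero, Finset.sum_empty, zero_add]
    rfl
  | succ G ih =>
    rw [ct_last, Finset.sum_range_succ, ← ih]
    congr 1
    refine ct_congr fun z _ => ?_
    unfold sh
    have h1 : (fun j => z j + 1 + k - (G + 1)) = fun j => z j + k - G := by
      funext j
      omega
    rw [h1]

lemma sl_step {m k : ℕ} {p : (Fin (m + 1) → ℕ) → Prop} (hp : Low (m + 1) k p) (g : ℕ) :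
    sl p k g * N m (g + 1) ≤ sl p k (g + 1) * N m g := by
  have hlow : Low m (g + 1) (fun y => sh p k (g + 1) (Fin.snoc y 0)) := by
    intro z w hz hw hwz h
    refine sh_low hp (g + 1) _ _ (in_snoc.2 hz) (in_snoc.2 hw) (fun j => ?_) h
    refine Fin.lastCases ?_ (fun j => ?_) j
    · simp
    · simpa using hwz j
  refine le_trans (Nat.mul_le_mul_right _ ?_) (DNM m g _ hlow)
  unfold sl
  refine ct_mono fun y hy h => ?_
  have hy1 : In (g + 1) (fun j => y j + 1) :=
    ⟨fun j => Nat.succ_le_succ (hy.1 j), fun a b hab => Nat.succ_le_succ (hy.2 hab)⟩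
  refine hp _ _ (sh_in (in_snoc.2 hy)) (sh_in (in_snoc.2 hy1)) (fun j => ?_) h
  refine Fin.lastCases ?_ (fun j => ?_) j
  · simp only [Fin.snoc_last]
    omega
  · simp only [Fin.snoc_castSucc]
    omega

lemma sl_mono {m k : ℕ} {p : (Fin (m + 1) → ℕ) → Prop} (hp : Low (m + 1) k p) (g h : ℕ)
    (hgh : g ≤ h) : sl p k g * N m h ≤ sl p k h * N m g := by
  induction h, hgh using Nat.le_induction with
  | base => exact le_rfl
  | succ h _ ih =>
    have h1 := sl_step hp h
    refine Nat.le_of_mul_le_mul_right ?_ (N_pos m h)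
    calc sl p k g * N m (h + 1) * N m h = sl p k g * N m h * N m (h + 1) := by ring
      _ ≤ sl p k h * N m g * N m (h + 1) := Nat.mul_le_mul_right _ ih
      _ = sl p k h * N m (h + 1) * N m g := by ring
      _ ≤ sl p k (h + 1) * N m h * N m g := Nat.mul_le_mul_right _ h1
      _ = _ := by ring

lemma sl_le {m k : ℕ} (p : (Fin (m + 1) → ℕ) → Prop) (g : ℕ) : sl p k g ≤ N m g := by
  unfold sl
  have h1 : ct m g (fun _ => True) = N m g := by
    clear p
    induction m generalizing g with
    | zero =>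
      unfold ct
      rw [Ch_zero]
      simp [N]
    | succ m ih =>
      rw [ct_succ, ← sum_N]
      exact sum_congr rfl fun i _ => ih i
  rw [← h1]
  exact ct_mono fun _ _ _ => trivial

lemma slope (s w : ℕ → ℕ) (k : ℕ) (h : ∀ i j, i ≤ j → s i * w j ≤ s j * w i) (t : ℕ) :
    s k * ∑ g ∈ range t, w g + (∑ g ∈ range (k + 1), s g) * w k ≤
      (∑ g ∈ range t, s g) * w k + s k * ∑ g ∈ range (k + 1), w g := by
  rcases le_or_gt t (k + 1) with ht | ht
  · have h1 : ∀ y : ℕ → ℕ, ∑ i ∈ range (k + 1), y i =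
        ∑ i ∈ range t, y i + ∑ i ∈ Ico t (k + 1), y i := fun y =>
      (Finset.sum_range_add_sum_Ico y ht).symm
    rw [h1 s, h1 w, add_mul, mul_add]
    have h2 : (∑ i ∈ Ico t (k + 1), s i) * w k ≤ s k * ∑ i ∈ Ico t (k + 1), w i := by
      rw [Finset.sum_mul, Finset.mul_sum]
      refine Finset.sum_le_sum fun i hi => ?_
      rw [mem_Ico] at hi
      exact h i k (by omega)
    omega
  · have h1 : ∀ y : ℕ → ℕ, ∑ i ∈ range t, y i =
        ∑ i ∈ range (k + 1), y i + ∑ i ∈ Ico (k + 1) t, y i := fun y =>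
      (Finset.sum_range_add_sum_Ico y ht.le).symm
    rw [h1 s, h1 w, add_mul, mul_add]
    have h2 : s k * ∑ i ∈ Ico (k + 1) t, w i ≤ (∑ i ∈ Ico (k + 1) t, s i) * w k := by
      rw [Finset.sum_mul, Finset.mul_sum]
      refine Finset.sum_le_sum fun i hi => ?_
      rw [mem_Ico] at hi
      exact h k i (by omega)
    omega

/-- The inequality for one class. -/
lemma class_ineq {m k : ℕ} {p : (Fin (m + 1) → ℕ) → Prop} (hp : Low (m + 1) k p) (t : ℕ) :
    sl p k k * ∑ g ∈ range t, N m g + ct (m + 1) k p * N m k ≤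
      (∑ g ∈ range t, sl p k g) * N m k + sl p k k * N (m + 1) k := by
  have h1 := slope (sl p k) (N m) k (fun i j hij => sl_mono hp i j hij) t
  have h2 : ct (m + 1) k p = ∑ g ∈ range (k + 1), sl p k g := by
    rw [← ct_sh]
    refine ct_congr fun z _ => ?_
    unfold sh
    have h3 : (fun j => z j + k - k) = z := by
      funext j
      omega
    rw [h3]
  rw [h2, ← sum_N m k]
  exact h1

end Pool.Agent.Y233.Fr
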