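import Pool.Agent.Y233.Fr.Cmp3
import Pool.Agent.Y233.Fr.Half1

/-!
Parity classes of monomials, and the bound for the codimension of `L L S_e`.
-/

set_option autoImplicit false

namespace Pool.Agent.Y233.Fr

open Finset MvPolynomial Pool.Agent.TH206.Fro
open scoped Pointwise

/-- The odd exponents. -/
def par {m : ℕ} (u : Fin (m + 1) →₀ ℕ) : Finset (Fin m) :=
  univ.filter (fun j : Fin m => u j.succ % 2 = 1)

/-- Half of the exponents. -/
noncomputable def half {m : ℕ} (u : Fin (m + 1) →₀ ℕ) : Fin (m + 1) →₀ ℕ :=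
  Finsupp.equivFunOnFinite.symm (fun i => u i / 2)

/-- The product of the variables with odd exponents. -/
noncomputable def od {m : ℕ} (D : ℕ) (ε : Finset (Fin m)) : Fin (m + 1) →₀ ℕ :=
  Finsupp.equivFunOnFinite.symm
    (Fin.cons ((D - ε.card) % 2) (fun j => if j ∈ ε then 1 else 0) : Fin (m + 1) → ℕ)

lemma half_apply {m : ℕ} (u : Fin (m + 1) →₀ ℕ) (i : Fin (m + 1)) : half u i = u i / 2 := rfl

lemma od_zero {m : ℕ} (D : ℕ) (ε : Finset (Fin m)) : od D ε 0 = (D - ε.card) % 2 := rfl

lemma od_succ {m : ℕ} (D : ℕ) (ε : Finset (Fin m)) (j : Fin m) :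
    od D ε j.succ = if j ∈ ε then 1 else 0 := rfl

lemma sum_od {m : ℕ} (D : ℕ) (ε : Finset (Fin m)) :
    ∑ i, od D ε i = (D - ε.card) % 2 + ε.card := by
  rw [Fin.sum_univ_succ, od_zero]
  congr 1
  simp only [od_succ]
  rw [Finset.sum_boole]
  simp

lemma card_par {m : ℕ} (u : Fin (m + 1) →₀ ℕ) : (par u).card = ∑ j : Fin m, u j.succ % 2 := by
  unfold par
  rw [Finset.card_filter]
  refine sum_congr rfl fun j _ => ?_
  split_ifs with h
  · exact h.symm
  · omega

lemma sum_half {m D : ℕ} {u : Fin (m + 1) →₀ ℕ} (hu : u ∈ Mon (m + 1) D) :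
    2 * ∑ i, half u i + u 0 % 2 + (par u).card = D := by
  rw [mem_Mon] at hu
  rw [card_par, ← hu, Finset.mul_sum, add_assoc, ← Fin.sum_univ_succ (fun i => u i % 2),
    ← Finset.sum_add_distrib]
  refine sum_congr rfl fun i _ => ?_
  rw [half_apply]
  omega

lemma half_mem {m D : ℕ} {u : Fin (m + 1) →₀ ℕ} (hu : u ∈ Mon (m + 1) D) :
    half u ∈ Mon (m + 1) ((D - (par u).card) / 2) := by
  have h1 := sum_half hu
  rw [mem_Mon]
  omega

lemma u_eq {m D : ℕ} {u : Fin (m + 1) →₀ ℕ} (hu : u ∈ Mon (m + 1) D) :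
    half u + half u + od D (par u) = u := by
  have h1 := sum_half hu
  ext i
  rw [Finsupp.add_apply, Finsupp.add_apply, half_apply]
  refine Fin.cases ?_ (fun j => ?_) i
  · rw [od_zero]
    omega
  · rw [od_succ]
    split_ifs with h
    · have h2 : u j.succ % 2 = 1 := by
        unfold par at h
        exact (mem_filter.1 h).2
      omega
    · have h2 : ¬ u j.succ % 2 = 1 := by
        intro h3
        apply h
        unfold par
        exact mem_filter.2 ⟨mem_univ _, h3⟩
      omega

lemma half_dbl {m D : ℕ} (ε : Finset (Fin m)) (a : Fin (m + 1) →₀ ℕ) :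
    half (a + a + od D ε) = a := by
  ext i
  rw [half_apply, Finsupp.add_apply, Finsupp.add_apply]
  refine Fin.cases ?_ (fun j => ?_) i
  · rw [od_zero]
    omega
  · rw [od_succ]
    split_ifs <;> omega

lemma par_dbl {m D : ℕ} (ε : Finset (Fin m)) (a : Fin (m + 1) →₀ ℕ) :
    par (a + a + od D ε) = ε := by
  ext j
  unfold par
  rw [mem_filter, Finsupp.add_apply, Finsupp.add_apply, od_succ]
  constructor
  · rintro ⟨_, h⟩
    by_contra h2
    rw [if_neg h2] at h
    omega
  · intro h
    refine ⟨mem_univ _, ?_⟩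
    rw [if_pos h]
    omega

lemma dbl_mem {m D : ℕ} {ε : Finset (Fin m)} (hε : ε.card ≤ D) {a : Fin (m + 1) →₀ ℕ}
    (ha : a ∈ Mon (m + 1) ((D - ε.card) / 2)) : a + a + od D ε ∈ Mon (m + 1) D := by
  rw [mem_Mon] at ha ⊢
  simp only [Finsupp.add_apply]
  rw [Finset.sum_add_distrib, Finset.sum_add_distrib, sum_od, ha]
  omega

open Classical in
/-- The sizes of the classes. -/
lemma card_class {m D : ℕ} {ε : Finset (Fin m)} (hε : ε.card ≤ D)
    (q : (Fin (m + 1) →₀ ℕ) → Prop) :
    ((Mon (m + 1) D).filter (fun u => par u = ε ∧ q (half u))).card =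
      ((Mon (m + 1) ((D - ε.card) / 2)).filter q).card := by
  refine Finset.card_nbij' half (fun a => a + a + od D ε) ?_ ?_ ?_ ?_
  · intro u hu
    rw [mem_coe, mem_filter] at hu ⊢
    obtain ⟨h1, rfl, h3⟩ := hu
    exact ⟨half_mem h1, h3⟩
  · intro a ha
    rw [mem_coe, mem_filter] at ha ⊢
    refine ⟨dbl_mem hε ha.1, par_dbl ε a, ?_⟩
    rw [half_dbl]
    exact ha.2
  · intro u hu
    rw [mem_coe, mem_filter] at hu
    obtain ⟨h1, rfl, _⟩ := hu
    exact u_eq h1
  · intro a _
    exact half_dbl ε a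

lemma class_empty {m D : ℕ} {ε : Finset (Fin m)} (hε : D < ε.card) {u : Fin (m + 1) →₀ ℕ}
    (hu : u ∈ Mon (m + 1) D) : par u ≠ ε := by
  rintro rfl
  have := sum_half hu
  omega

open Classical in
lemma card_Z {m G : ℕ} (q : (Fin m → ℕ) → Prop) :
    ((Mon (m + 1) G).filter (fun a => q (Z a))).card = ct m G q := by
  unfold ct
  refine Finset.card_bij (fun a _ => Z a) ?_ ?_ ?_
  · intro a ha
    rw [mem_filter] at ha ⊢
    exact ⟨mem_Ch.2 (Z_in ha.1), ha.2⟩
  · intro a ha b hb h
    rw [mem_filter] at ha hb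
    exact Z_inj ha.1 hb.1 h
  · intro z hz
    rw [mem_filter, mem_Ch] at hz
    obtain ⟨c, hc, rfl⟩ := Z_surj hz.1
    exact ⟨c, mem_filter.2 ⟨hc, hz.2⟩, rfl⟩

lemma add_mem_Mon {m k l : ℕ} {a b : Fin (m + 1) →₀ ℕ} (ha : a ∈ Mon (m + 1) k)
    (hb : b ∈ Mon (m + 1) l) : a + b ∈ Mon (m + 1) (k + l) := by
  rw [mem_Mon'] at *
  rw [map_add, ha, hb]

/-- Monomials in `A A S_e`. -/
lemma mem_AAS {m k e G D' : ℕ} {A : Finset (Fin (m + 1) →₀ ℕ)} (hA : A ⊆ Mon (m + 1) k)
    (sA : Stable A) (h : 2 * G + D' = 2 * k + e) {a o : Fin (m + 1) →₀ ℕ}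
    (ha : a ∈ Mon (m + 1) G) (ho : o ∈ Mon (m + 1) D') {c : Fin (m + 1) →₀ ℕ} (hc : c ∈ A)
    (hca : Z c = fun j => Z a j + k - G) : a + a + o ∈ A + A + Mon (m + 1) e := by
  have h1 := Z_in ha
  have h2 := Z_in ho
  have hu : a + a + o ∈ Mon (m + 1) (2 * k + e) := by
    have := add_mem_Mon (add_mem_Mon ha ha) ho
    rwa [show G + G + D' = 2 * k + e by omega] at this
  rcases le_or_gt G k with hG | hG
  · obtain ⟨x, hx, hxz⟩ := Z_surj (m := m) (k := k)
      (z := fun j => Z a j + min (Z o j) (k - G)) ⟨fun j => by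
        have := h1.1 j
        show Z a j + min (Z o j) (k - G) ≤ k
        omega, fun i j hij => by
        have e1 : Z a j ≤ Z a i := h1.2 hij
        have e2 : Z o j ≤ Z o i := h2.2 hij
        show Z a j + min (Z o j) (k - G) ≤ Z a i + min (Z o i) (k - G)
        omega⟩
    obtain ⟨y, hy, hyz⟩ := Z_surj (m := m) (k := k)
      (z := fun j => Z a j + min (Z o j - (k - G)) (k - G)) ⟨fun j => by
        have := h1.1 j
        show Z a j + min (Z o j - (k - G)) (k - G) ≤ k
        omega, fun i j hij => by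
        have e1 : Z a j ≤ Z a i := h1.2 hij
        have e2 : Z o j ≤ Z o i := h2.2 hij
        show Z a j + min (Z o j - (k - G)) (k - G) ≤ Z a i + min (Z o i - (k - G)) (k - G)
        omega⟩
    obtain ⟨w, hw, hwz⟩ := Z_surj (m := m) (k := e)
      (z := fun j => Z o j - 2 * (k - G)) ⟨fun j => by
        have := h2.1 j
        show Z o j - 2 * (k - G) ≤ e
        omega, fun i j hij => by
        have e2 : Z o j ≤ Z o i := h2.2 hij
        show Z o j - 2 * (k - G) ≤ Z o i - 2 * (k - G)
        omega⟩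
    have hxA : x ∈ A := by
      refine stable_low hA sA _ c x le_rfl hc hx ?_
      rw [hxz, hca]
      intro j
      show Z a j + min (Z o j) (k - G) ≤ Z a j + k - G
      omega
    have hyA : y ∈ A := by
      refine stable_low hA sA _ c y le_rfl hc hy ?_
      rw [hyz, hca]
      intro j
      show Z a j + min (Z o j - (k - G)) (k - G) ≤ Z a j + k - G
      omega
    have hz : a + a + o = x + y + w := by
      refine Z_inj hu ?_ ?_
      · have := add_mem_Mon (add_mem_Mon hx hy) hw
        rwa [show k + k + e = 2 * k + e by omega] at this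
      · funext j
        rw [Z_add, Z_add, Z_add, Z_add, hxz, hyz, hwz]
        show Z a j + Z a j + Z o j = Z a j + min (Z o j) (k - G) +
          (Z a j + min (Z o j - (k - G)) (k - G)) + (Z o j - 2 * (k - G))
        omega
    rw [hz]
    exact Finset.add_mem_add (Finset.add_mem_add hxA hyA) hw
  · obtain ⟨w, hw, hwz⟩ := Z_surj (m := m) (k := e)
      (z := fun j => 2 * min (Z a j) (G - k) + Z o j) ⟨fun j => by
        have := h2.1 j
        show 2 * min (Z a j) (G - k) + Z o j ≤ e
        omega, fun i j hij => by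
        have e1 : Z a j ≤ Z a i := h1.2 hij
        have e2 : Z o j ≤ Z o i := h2.2 hij
        show 2 * min (Z a j) (G - k) + Z o j ≤ 2 * min (Z a i) (G - k) + Z o i
        omega⟩
    have hz : a + a + o = c + c + w := by
      refine Z_inj hu ?_ ?_
      · have := add_mem_Mon (add_mem_Mon (hA hc) (hA hc)) hw
        rwa [show k + k + e = 2 * k + e by omega] at this
      · funext j
        rw [Z_add, Z_add, Z_add, Z_add, hca, hwz]
        show Z a j + Z a j + Z o j = (Z a j + k - G) + (Z a j + k - G) +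
          (2 * min (Z a j) (G - k) + Z o j)
        omega
    rw [hz]
    exact Finset.add_mem_add (Finset.add_mem_add hc hc) hw

lemma od_mem {m D : ℕ} (ε : Finset (Fin m)) :
    od D ε ∈ Mon (m + 1) ((D - ε.card) % 2 + ε.card) := by
  rw [mem_Mon, sum_od]

/-- The bound for strongly stable sets. -/
theorem codim_stable (m k e : ℕ) (hN : N m (2 * k + e) ≤ 2 ^ m * N m k)
    (A : Finset (Fin (m + 1) →₀ ℕ)) (hA : A ⊆ Mon (m + 1) k) (sA : Stable A) :
    N m (2 * k + e) + 2 ^ m * A.card ≤ (A + A + Mon (m + 1) e).card + 2 ^ m * N m k := by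
  classical
  rcases Nat.eq_zero_or_pos m with h0 | h0
  · -- one variable
    subst h0
    have h1 : ∀ j, N 0 j = 1 := fun j => by simp [N]
    rw [h1, h1, pow_zero, one_mul, one_mul]
    have h2 : A.card ≤ 1 := by
      have := Finset.card_le_card hA
      rwa [card_Mon_N, h1] at this
    rcases A.eq_empty_or_nonempty with h3 | h3
    · rw [h3]
      simp
    · have h4 : (Mon (0 + 1) e).Nonempty := by
        rw [← Finset.card_pos, card_Mon_N, h1]
        exact one_pos
      have h5 : 0 < (A + A + Mon (0 + 1) e).card :=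
        Finset.card_pos.2 ((h3.add h3).add h4)
      omega
  · obtain ⟨M, rfl⟩ : ∃ M, m = M + 1 := ⟨m - 1, by omega⟩
    obtain ⟨p, hp⟩ : ∃ p : (Fin (M + 1) → ℕ) → Prop, ∀ z, p z ↔ ∃ c ∈ A, Z c = z :=
      ⟨_, fun _ => Iff.rfl⟩
    have hlow : Low (M + 1) k p := by
      intro z w _ hw hwz hpz
      obtain ⟨c, hc, rfl⟩ := (hp z).1 hpz
      obtain ⟨c', hc', rfl⟩ := Z_surj hw
      exact (hp _).2 ⟨c', stable_low hA sA _ c c' le_rfl hc hc' hwz, rfl⟩
    have hcA : ct (M + 1) k p = A.card := by
      rw [← card_Z]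
      congr 1
      ext a
      rw [mem_filter, hp]
      constructor
      · rintro ⟨ha, c, hc, hca⟩
        rwa [← Z_inj (hA hc) ha hca]
      · exact fun ha => ⟨hA ha, a, ha, rfl⟩
    obtain ⟨D, hD⟩ : ∃ D, D = 2 * k + e := ⟨_, rfl⟩
    rw [← hD] at hN ⊢
    obtain ⟨B, hB⟩ : ∃ B, B = A + A + Mon (M + 1 + 1) e := ⟨_, rfl⟩
    rw [← hB]
    -- the classes
    have hcl : ∀ ε : Finset (Fin (M + 1)),
        sl p k k * ((Mon (M + 1 + 1) D).filter (fun u => par u = ε)).card + A.card * N M k ≤
          (B.filter (fun u => par u = ε)).card * N M k + sl p k k * N (M + 1) k := by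
      intro ε
      rcases le_or_gt ε.card D with hε | hε
      · have h1 := class_ineq hlow ((D - ε.card) / 2 + 1)
        rw [hcA, sum_N, ← ct_sh] at h1
        have h2 : ((Mon (M + 1 + 1) D).filter (fun u => par u = ε)).card =
            N (M + 1) ((D - ε.card) / 2) := by
          have h3 := card_class (m := M + 1) hε (fun _ => True)
          simp only [and_true, Finset.filter_true] at h3
          rw [h3, card_Mon_N]
        have h3 : ct (M + 1) ((D - ε.card) / 2) (sh p k ((D - ε.card) / 2)) ≤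
            (B.filter (fun u => par u = ε)).card := by
          rw [← card_Z, ← card_class (m := M + 1) hε
            (fun a => sh p k ((D - ε.card) / 2) (Z a))]
          refine Finset.card_le_card fun u hu => ?_
          rw [mem_filter] at hu ⊢
          obtain ⟨h4, rfl, h6⟩ := hu
          refine ⟨?_, rfl⟩
          obtain ⟨c, hc, hcz⟩ := (hp _).1 h6
          rw [hB, ← u_eq h4]
          exact mem_AAS hA sA (by omega) (half_mem h4) (od_mem (par u)) hc hcz
        rw [h2]
        refine h1.trans ?_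
        have h4 := Nat.mul_le_mul_right (N M k) h3
        omega
      · have h1 := class_ineq hlow 0
        rw [hcA, Finset.range_zero, Finset.sum_empty, Finset.sum_empty, mul_zero, zero_mul,
          zero_add, zero_add] at h1
        have h2 : (Mon (M + 1 + 1) D).filter (fun u => par u = ε) = ∅ := by
          rw [Finset.filter_eq_empty_iff]
          exact fun u hu => class_empty hε hu
        rw [h2, Finset.card_empty, mul_zero, zero_add]
        exact h1.trans (Nat.le_add_left _ _)
    have hS : ∀ S : Finset (Fin (M + 1 + 1) →₀ ℕ),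
        ∑ ε : Finset (Fin (M + 1)), (S.filter (fun u => par u = ε)).card = S.card := by
      intro S
      exact (Finset.card_eq_sum_card_fiberwise (f := fun u => par u)
        (t := (univ : Finset (Finset (Fin (M + 1))))) (fun u _ => by simp)).symm
    have hsum := Finset.sum_le_sum (fun ε (_ : ε ∈ (univ : Finset (Finset (Fin (M + 1))))) =>
      hcl ε)
    rw [Finset.sum_add_distrib, Finset.sum_add_distrib, ← Finset.mul_sum, Finset.sum_const,
      Finset.sum_const, ← Finset.sum_mul, hS, hS,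
      Finset.card_univ, Fintype.card_finset, Fintype.card_fin, card_Mon_N, smul_eq_mul,
      smul_eq_mul] at hsum
    obtain ⟨v, hv⟩ : ∃ v, N M k = sl p k k + v := ⟨N M k - sl p k k, by
      have := sl_le (k := k) p k
      omega⟩
    have h9 := Nat.mul_le_mul_left v hN
    refine Nat.le_of_mul_le_mul_right ?_ (N_pos M k)
    rw [hv] at hsum ⊢
    nlinarith
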