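import Pool.Agent.Y233.Fr.Many
import Pool.Agent.Y233.Fr.Half2

/-!
The multiples of many general forms of the least degree span.
-/

set_option autoImplicit false

namespace Pool.Agent.Y233.Fr

open Finset Module MvPolynomial Pool.Agent.TH206.Fro Pool.Agent.TH176.FB
open scoped Pointwise

/-- The bound for all sets of monomials. -/
theorem codim_all (m k e : ℕ) (hN : N m (2 * k + e) ≤ 2 ^ m * N m k)
    (A : Finset (Fin (m + 1) →₀ ℕ)) (hA : A ⊆ Mon (m + 1) k) :
    N m (2 * k + e) + 2 ^ m * A.card ≤ (A + A + Mon (m + 1) e).card + 2 ^ m * N m k := by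
  obtain ⟨A', h1, h2, h3, h4⟩ := comp3 (m + 1) k e A hA
  rw [← h3]
  exact (codim_stable m k e hN A' h1 h2).trans (Nat.add_le_add_right h4 _)

/-- The bound for spaces of forms: the codimension of `L L S_e` is at most `2 ^ m` times the
codimension of `L`. -/
theorem codim_sub (m k e : ℕ) (hN : N m (2 * k + e) ≤ 2 ^ m * N m k) (F : Type) [Field F]
    (L : Submodule F (MvPolynomial (Fin (m + 1)) F))
    (hL : L ≤ homogeneousSubmodule (Fin (m + 1)) F k) :
    N m (2 * k + e) + 2 ^ m * finrank F L ≤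
      finrank F ↥(L * (L * homogeneousSubmodule (Fin (m + 1)) F e)) + 2 ^ m * N m k := by
  classical
  have hLe : L * homogeneousSubmodule (Fin (m + 1)) F e ≤
      homogeneousSubmodule (Fin (m + 1)) F (k + e) :=
    (mul_le_mul' hL le_rfl).trans (homogeneousSubmodule_mul k e)
  have hLL : L * (L * homogeneousSubmodule (Fin (m + 1)) F e) ≤
      homogeneousSubmodule (Fin (m + 1)) F (2 * k + e) := by
    refine (mul_le_mul' hL hLe).trans ?_
    rw [show 2 * k + e = k + (k + e) by ring]
    exact homogeneousSubmodule_mul k (k + e)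
  have h1 := codim_all m k e hN (leads k L) (Finset.filter_subset _ _)
  rw [card_leads hL] at h1
  refine h1.trans (Nat.add_le_add_right ?_ _)
  rw [← card_leads hLL]
  refine Finset.card_le_card fun x hx => ?_
  obtain ⟨y, hy, c, hc, rfl⟩ := Finset.mem_add.1 hx
  obtain ⟨a, ha, b, hb, rfl⟩ := Finset.mem_add.1 hy
  obtain ⟨f, hf, hf0, rfl⟩ := (mem_leads hL).1 ha
  obtain ⟨g, hg, hg0, rfl⟩ := (mem_leads hL).1 hb
  have hm0 : (monomial c (1 : F)) ≠ 0 := by
    rw [Ne, monomial_eq_zero]
    exact one_ne_zero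
  have hmd : (lx (m + 1)).degree (monomial c (1 : F)) = c := by
    classical
    rw [MonomialOrder.degree_monomial, if_neg one_ne_zero]
  refine (mem_leads hLL).2 ⟨f * (g * monomial c 1), Submodule.mul_mem_mul hf
    (Submodule.mul_mem_mul hg ?_), mul_ne_zero hf0 (mul_ne_zero hg0 hm0), ?_⟩
  · rw [mem_homogeneousSubmodule]
    exact isHomogeneous_monomial _ (mem_Mon'.1 hc)
  · rw [MonomialOrder.degree_mul hf0 (mul_ne_zero hg0 hm0), MonomialOrder.degree_mul hg0 hm0,
      hmd, add_assoc]

/-- The bound with the quotient `q / p`. -/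
def SPQ (n k d p q : ℕ) : Prop :=
  ∀ (F : Type) [Field F] (L R : Submodule F (MvPolynomial (Fin n) F)),
    L ≤ homogeneousSubmodule (Fin n) F k → R ≤ homogeneousSubmodule (Fin n) F d →
    L * homogeneousSubmodule (Fin n) F (d - k) ≤ R →
    finrank F L + (Mon n d).card = finrank F R + (Mon n k).card →
    p * (Mon n (k + d)).card + q * finrank F L ≤
      p * finrank F ↥(L * R) + q * (Mon n k).card

lemma spq_of_sub2 {n k d : ℕ} (h : Sub2 n k d) :
    SPQ n k d (Mon n k).card (Mon n (k + d)).card := by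
  intro F _ L R hL hR hLR hc
  rcases Nat.eq_zero_or_pos (finrank F L) with h0 | h0
  · rw [h0, mul_zero, add_zero, mul_comm]
    exact Nat.le_add_left _ _
  · have h1 := h F L R hL hR hLR h0 hc
    rw [mul_comm ((Mon n k).card) ((Mon n (k + d)).card), mul_comm _ (finrank F L),
      mul_comm ((Mon n k).card) (finrank F ↥(L * R)), add_comm]
    exact Nat.add_le_add_right h1 _

lemma spq_half {m k d : ℕ} (hkd : k ≤ d) (hN : N m (k + d) ≤ 2 ^ m * N m k) :
    SPQ (m + 1) k d 1 (2 ^ m) := by
  intro F _ L R hL hR hLR _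
  have hN' : N m (2 * k + (d - k)) ≤ 2 ^ m * N m k := by
    rwa [show 2 * k + (d - k) = k + d by omega]
  have h1 := codim_sub m k (d - k) hN' F L hL
  rw [show 2 * k + (d - k) = k + d by omega] at h1
  rw [one_mul, one_mul, card_Mon_N, card_Mon_N]
  refine h1.trans (Nat.add_le_add_right ?_ _)
  have h2 : L * R ≤ homogeneousSubmodule (Fin (m + 1)) F (k + d) :=
    (mul_le_mul' hL hR).trans (homogeneousSubmodule_mul k d)
  have := fin_hom (m + 1) (k + d) F
  have : FiniteDimensional F ↥(L * R) := Submodule.finiteDimensional_of_le h2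
  exact Submodule.finrank_mono (mul_le_mul' le_rfl hLR)

variable {n D : ℕ} {β : Type} [Fintype β] (d : β → ℕ) (K : Type) [Field K]

omit [Fintype β] in
lemma TT_le3 (G : Dg n D → MvPolynomial (Io n d) K) (e p q : ℕ) (he : e ≤ D) (he2 : D ≤ 2 * e)
    (hM : SPQ n (D - e) e p q) :
    p * finrank (KK n d K) (TT d K G) ≤
      q * (Hk (fun u => algebraMap _ (KK n d K) (G u)) e).rank := by
  classical
  set g : Dg n D → KK n d K := fun u => algebraMap _ (KK n d K) (G u) with hg
  set H := Hk g e with hH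
  let L := (LinearMap.ker (H.transpose).mulVecLin).map (tp (fun a : Dc n D e => a.1))
  let R := (LinearMap.ker H.mulVecLin).map (tp (fun m : Dg n e => m.1))
  have hjL : Function.Injective (fun a : Dc n D e => a.1) := Subtype.val_injective
  have hjR : Function.Injective (fun m : Dg n e => m.1) := Subtype.val_injective
  have hL1 : finrank (KK n d K) L + H.rank = Fintype.card (Dc n D e) := by
    have h1 := finrank_ker_mulVec H.transpose
    rw [Matrix.rank_transpose] at h1
    rw [← h1]
    congr 1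
    exact (LinearEquiv.finrank_eq (Submodule.equivMapOfInjective _ (tp_inj hjL) _)).symm
  have hR1 : finrank (KK n d K) R + H.rank = Fintype.card (Dg n e) := by
    have h1 := finrank_ker_mulVec H
    rw [← h1]
    congr 1
    exact (LinearEquiv.finrank_eq (Submodule.equivMapOfInjective _ (tp_inj hjR) _)).symm
  have hL2 : L ≤ homogeneousSubmodule (Fin n) (KK n d K) (D - e) := by
    rintro _ ⟨v, _, rfl⟩
    exact tp_hom (fun a => by have := a.2; omega) v
  have hR2 : R ≤ homogeneousSubmodule (Fin n) (KK n d K) e := by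
    rintro _ ⟨v, _, rfl⟩
    exact tp_hom (fun a => a.2) v
  have hLR : L * R ≤ homogeneousSubmodule (Fin n) (KK n d K) D := by
    rw [Submodule.mul_le]
    intro p hp q hq
    have h1 := hL2 hp
    have h2 := hR2 hq
    rw [mem_homogeneousSubmodule] at h1 h2 ⊢
    have h3 := h1.mul h2
    rwa [Nat.sub_add_cancel he] at h3
  have hLS : L * homogeneousSubmodule (Fin n) (KK n d K) (e - (D - e)) ≤ R := by
    rw [Submodule.mul_le]
    rintro _ ⟨v, hv, rfl⟩ y hy
    set x := tp (fun a : Dc n D e => a.1) v with hx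
    have hx2 : x ∈ homogeneousSubmodule (Fin n) (KK n d K) (D - e) :=
      tp_hom (fun a => by have := a.2; omega) v
    have hxy : x * y ∈ homogeneousSubmodule (Fin n) (KK n d K) e := by
      rw [mem_homogeneousSubmodule] at hx2 hy ⊢
      have h3 := hx2.mul hy
      rwa [show D - e + (e - (D - e)) = e by omega] at h3
    refine ⟨cf e (x * y), ?_, tp_cf _ hxy⟩
    rw [SetLike.mem_coe, LinearMap.mem_ker]
    funext a
    rw [Matrix.mulVecLin_apply]
    show ∑ m, H a m * cf e (x * y) m = 0
    -- the functional on `x_a x y`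
    have e1 : tp (fun a : Dc n D e => a.1) (Pi.single a (1 : KK n d K)) =
        monomial a.1 (1 : KK n d K) := by
      rw [tp_apply, Finset.sum_eq_single a]
      · rw [Pi.single_eq_same]
      · intro b _ hb
        rw [Pi.single_eq_of_ne hb, monomial_zero]
      · intro h; exact absurd (Finset.mem_univ _) h
    have e2 : lam g (monomial a.1 (1 : KK n d K) * (x * y)) = ∑ m, H a m * cf e (x * y) m := by
      rw [← e1]
      conv_lhs => rw [← tp_cf _ hxy]
      rw [lam_mul, Finset.sum_eq_single a]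
      · refine Finset.sum_congr rfl fun m _ => ?_
        rw [Pi.single_eq_same, one_mul, mul_comm]
        rfl
      · intro b _ hb
        refine Finset.sum_eq_zero fun m _ => ?_
        rw [Pi.single_eq_of_ne hb, zero_mul, zero_mul]
      · intro h; exact absurd (Finset.mem_univ _) h
    have hz : monomial a.1 (1 : KK n d K) * y ∈ homogeneousSubmodule (Fin n) (KK n d K) e := by
      rw [mem_homogeneousSubmodule] at hy ⊢
      have h3 := (isHomogeneous_monomial (R := KK n d K) (1 : KK n d K)
        (show Finsupp.degree a.1 = D - e by have := a.2; omega)).mul hy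
      rwa [show D - e + (e - (D - e)) = e by omega] at h3
    have e3 : monomial a.1 (1 : KK n d K) * (x * y) = x * (monomial a.1 (1 : KK n d K) * y) := by
      ring
    rw [← e2, e3, ← tp_cf _ hz, hx, lam_mul, Finset.sum_comm]
    refine Finset.sum_eq_zero fun m _ => ?_
    have h4 := congrFun (LinearMap.mem_ker.1 hv) m
    simp only [Matrix.mulVecLin_apply, Matrix.mulVec, dotProduct, Matrix.transpose_apply,
      Pi.zero_apply] at h4
    have h5 : ∑ a', v a' * cf e (monomial a.1 (1 : KK n d K) * y) m * g (addE a' m) =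
        cf e (monomial a.1 (1 : KK n d K) * y) m * ∑ a', H a' m * v a' := by
      rw [Finset.mul_sum]
      refine Finset.sum_congr rfl fun a' _ => ?_
      rw [hH]
      unfold Hk
      ring
    rw [h5, h4, mul_zero]
  have horth : finrank (KK n d K) (TT d K G) + finrank (KK n d K) ↥(L * R) ≤ (Mon n D).card := by
    rw [← finrank_map_cf (L * R) hLR, ← card_Dg]
    apply finrank_add_le_of_orth
    rintro y hy _ ⟨x, hx, rfl⟩
    rw [← lam_eq]
    refine Submodule.mul_induction_on hx ?_ ?_
    · rintro _ ⟨v, hv, rfl⟩ _ ⟨w, hw, rfl⟩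
      rw [lam_mul]
      refine orth_TT d K G e v w ?_ ?_ y hy
      · intro m
        have := congrFun (LinearMap.mem_ker.1 hv) m
        simp only [Matrix.mulVecLin_apply, Matrix.mulVec, dotProduct, Matrix.transpose_apply,
          Pi.zero_apply] at this
        rw [← this]
        exact Finset.sum_congr rfl fun a _ => mul_comm _ _
      · intro a
        have := congrFun (LinearMap.mem_ker.1 hw) a
        simp only [Matrix.mulVecLin_apply, Matrix.mulVec, dotProduct,
          Pi.zero_apply] at this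
        rw [← this]
        exact Finset.sum_congr rfl fun a _ => mul_comm _ _
    · intro x z hx hz
      rw [map_add, hx, hz, add_zero]
  rw [card_Dc n D e he] at hL1
  rw [card_Dg] at hR1
  have h1 := hM (KK n d K) L R hL2 hR2 hLS (by omega)
  rw [Nat.sub_add_cancel he] at h1
  obtain ⟨y, hy⟩ : ∃ y, y = finrank (KK n d K) ↥(L * R) := ⟨_, rfl⟩
  obtain ⟨t, ht⟩ : ∃ t, t = finrank (KK n d K) (TT d K G) := ⟨_, rfl⟩
  rw [← hy] at h1 horth
  rw [← ht] at horth ⊢
  have h2 : q * finrank (KK n d K) L + q * H.rank = q * (Mon n (D - e)).card := by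
    rw [← mul_add, hL1]
  have h3 : p * t + p * y ≤ p * (Mon n D).card := by
    rw [← mul_add]
    exact Nat.mul_le_mul_left _ horth
  omega

/-- If the sum of the weights is at least one, then the multiples of the generic forms span. -/
theorem ker_zero3 (w : β → ℚ) (hM : ∀ i, w i = 0 ∨ ∃ p q : ℕ, 0 < q ∧ w i = (p : ℚ) / q ∧
      d i ≤ D ∧ D ≤ 2 * d i ∧ SPQ n (D - d i) (d i) p q)
    (hw : 1 ≤ ∑ i, w i)
    (F : Dg n D → KK n d K) (hF : ∀ p, ∑ u, MK n D d K p u * F u = 0) : F = 0 := by
  classical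
  by_contra hF0
  have hinj := IsFractionRing.injective (MvPolynomial (Io n d) K) (KK n d K)
  obtain ⟨s, G, hs, hG⟩ := clear_den (R := MvPolynomial (Io n d) K) F
  have hs' : algebraMap _ (KK n d K) s ≠ 0 := fun h => hs (hinj (by rw [h, map_zero]))
  have hG0 : G ≠ 0 := by
    rintro rfl
    apply hF0
    funext u
    have := hG u
    rw [Pi.zero_apply, map_zero] at this
    exact (mul_eq_zero.1 this.symm).resolve_left hs'
  have hG1 : ∀ p, ∑ u, MX n D d K p u * G u = 0 := by
    intro p
    apply hinj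
    rw [map_zero, map_sum]
    have : ∑ u, algebraMap _ (KK n d K) (MX n D d K p u * G u) =
        algebraMap _ (KK n d K) s * ∑ u, MK n D d K p u * F u := by
      rw [Finset.mul_sum]
      refine Finset.sum_congr rfl fun u _ => ?_
      rw [map_mul, hG]
      change MK n D d K p u * _ = _
      ring
    rw [this, hF, mul_zero]
  have h1 := rank_le_TT d K G hG0 hG1
  have h2 : ∀ i, w i * (finrank (KK n d K) (TT d K G) : ℚ) ≤
      ((Hk (fun u => algebraMap _ (KK n d K) (G u)) (d i)).rank : ℚ) := by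
    intro i
    rcases hM i with h | ⟨p, q, hq, hw, he, he2, h⟩
    · rw [h, zero_mul]
      exact Nat.cast_nonneg _
    · have h3 := TT_le3 d K G (d i) p q he he2 h
      have hq' : (0 : ℚ) < q := by exact_mod_cast hq
      rw [hw, div_mul_eq_mul_div, div_le_iff₀ hq', mul_comm _ (q : ℚ)]
      exact_mod_cast h3
  have h3 := Finset.sum_le_sum (fun i (_ : i ∈ Finset.univ) => h2 i)
  rw [← Finset.sum_mul] at h3
  have h4 : (1 : ℚ) * (finrank (KK n d K) (TT d K G) : ℚ) ≤
      (∑ i, w i) * (finrank (KK n d K) (TT d K G) : ℚ) :=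
    mul_le_mul_of_nonneg_right hw (Nat.cast_nonneg _)
  rw [one_mul] at h4
  have h5 := h4.trans h3
  have h6 : finrank (KK n d K) (TT d K G) ≤
      ∑ i, (Hk (fun u => algebraMap _ (KK n d K) (G u)) (d i)).rank := by
    exact_mod_cast h5
  omega

theorem rank_MK3 (w : β → ℚ) (hM : ∀ i, w i = 0 ∨ ∃ p q : ℕ, 0 < q ∧ w i = (p : ℚ) / q ∧
      d i ≤ D ∧ D ≤ 2 * d i ∧ SPQ n (D - d i) (d i) p q)
    (hw : 1 ≤ ∑ i, w i) : (MK n D d K).rank = (Mon n D).card := by
  have h1 := finrank_ker_mulVec (MK n D d K)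
  have h2 : LinearMap.ker (MK n D d K).mulVecLin = ⊥ := by
    rw [LinearMap.ker_eq_bot']
    intro F hF
    exact ker_zero3 d K w hM hw F (fun p => congrFun hF p)
  rw [h2, finrank_bot, zero_add, card_Dg] at h1
  exact h1

end Pool.Agent.Y233.Fr

namespace Pool.Agent.Y233.Fr

open Finset Module MvPolynomial Pool.Agent.TH206.Fro Pool.Agent.TH176.FB

/-- The ideal of general forms contains all forms of degree `D`. -/
theorem rank_eval3 (n D r : ℕ) (d : Fin r → ℕ) (K : Type) [Field K] (w : Fin r → ℚ)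
    (hM : ∀ i, w i = 0 ∨ ∃ p q : ℕ, 0 < q ∧ w i = (p : ℚ) / q ∧
      d i ≤ D ∧ D ≤ 2 * d i ∧ SPQ n (D - d i) (d i) p q)
    (hw : 1 ≤ ∑ i, w i) :
    ∃ P : MvPolynomial (Io n d) K, P ≠ 0 ∧ ∀ t : Io n d → K, MvPolynomial.eval t P ≠ 0 →
      (Mon n D).card ≤ (Mx d D t).rank := by
  classical
  have hr := rank_MK3 d K w hM hw
  obtain ⟨f, g, hfg⟩ := exists_minor (MK n D d K) (Mon n D).card (by rw [hr])
  have hfg' : ((MX n D d K).submatrix f g).det ≠ 0 := by
    intro h0
    apply hfg
    have h1 : (MK n D d K).submatrix f g =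
        (algebraMap (MvPolynomial (Io n d) K) (KK n d K)).mapMatrix
          ((MX n D d K).submatrix f g) := by
      ext i j
      rfl
    rw [h1, ← RingHom.map_det, h0, map_zero]
  refine ⟨_, hfg', fun t ht => ?_⟩
  have h1 : MvPolynomial.eval t ((MX n D d K).submatrix f g).det =
      ((Mx d D t).submatrix f g).det := by
    rw [RingHom.map_det]
    congr 1
    ext i j
    simp only [RingHom.mapMatrix_apply, Matrix.map_apply, Matrix.submatrix_apply]
    unfold MX Mx
    split_ifs with h
    · exact MvPolynomial.eval_X _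
    · exact map_zero _
  rw [h1] at ht
  exact rank_ge_of_minor _ _ f g ht

/-- At least `2 ^ m` forms of the least degree `δ`: all forms of degree `D`. -/
theorem rank_many (m D r δ : ℕ) (d : Fin r → ℕ) (K : Type) [Field K] (h1 : δ ≤ D)
    (h2 : D ≤ 2 * δ) (hN : N m D ≤ 2 ^ m * N m (D - δ))
    (hc : 2 ^ m ≤ (univ.filter (fun i => d i = δ)).card) :
    ∃ P : MvPolynomial (Io (m + 1) d) K, P ≠ 0 ∧ ∀ t : Io (m + 1) d → K,
      MvPolynomial.eval t P ≠ 0 → (Mon (m + 1) D).card ≤ (Mx d D t).rank := by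
  classical
  refine rank_eval3 (m + 1) D r d K (fun i => if d i = δ then (1 : ℚ) / ((2 ^ m : ℕ) : ℚ) else 0)
    (fun i => ?_) ?_
  · by_cases h : d i = δ
    · right
      refine ⟨1, 2 ^ m, by positivity, ?_, by omega, by omega, ?_⟩
      · rw [if_pos h, Nat.cast_one]
      · rw [h]
        refine spq_half (by omega) ?_
        rwa [Nat.sub_add_cancel h1]
    · left
      rw [if_neg h]
  · rw [← Finset.sum_filter, Finset.sum_const, nsmul_eq_mul, mul_one_div, le_div_iff₀, one_mul]
    · exact_mod_cast hc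
    · positivity

/-- Good degrees and small quotients. -/
lemma good_or (m r δ D : ℕ) (d : Fin r → ℕ) (hd : ∀ i, δ ≤ d i) (hD : D < 2 * δ) :
    Good (m + 1) d D ∨ (δ ≤ D ∧ N m D ≤ 2 ^ m * N m (D - δ)) := by
  rcases Nat.lt_or_ge D δ with h | h
  · left
    intro i
    have := hd i
    exact ⟨by omega, Or.inl (by omega)⟩
  · obtain ⟨k, rfl⟩ : ∃ k, D = δ + k := ⟨D - δ, by omega⟩
    obtain ⟨e, rfl⟩ : ∃ e, δ = k + e := ⟨δ - k, by omega⟩
    by_cases hH : H m e k
    · left
      intro i
      have hi := hd i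
      refine ⟨by omega, ?_⟩
      rcases le_or_gt (k + e + k) (d i) with h1 | h1
      · exact Or.inl h1
      · right; left
        have h2 : (m + 1) * (k + e + k - d i) ≤ (m + 1) * k := Nat.mul_le_mul_left _ (by omega)
        have h3 : e * (k + e + k - 1) ≤ (2 * d i - (k + e + k)) * (k + e + k - 1) :=
          Nat.mul_le_mul_right _ (by omega)
        refine (h2.trans ?_).trans h3
        unfold H at hH
        obtain ⟨c, hc, hc2⟩ : ∃ c, k + e + k - 1 = c ∧ c + 1 = 2 * k + e := ⟨_, rfl, by omega⟩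
        rw [hc]
        have h4 : e * (c + 1) = 2 * k * e + e * e := by rw [hc2]; ring
        have h5 : (m + 1) * k = k * (m + 1) := Nat.mul_comm _ _
        rw [Nat.mul_add, Nat.mul_one] at h4
        omega
    · right
      refine ⟨by omega, ?_⟩
      rw [Nat.add_sub_cancel_left, show k + e + k = 2 * k + e by ring]
      apply N_inc
      unfold H at hH
      push Not at hH
      have h2 : 2 * e ≤ m + 1 := by
        by_contra hcon
        push Not at hcon
        have h3 : k * (m + 1) ≤ k * (2 * e) := Nat.mul_le_mul_left _ hcon.le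
        have h4 : e ≤ e * e := Nat.le_mul_of_pos_left e (by omega)
        nlinarith
      nlinarith

/-- The formula in all degrees for at least `2 ^ (n - 1)` forms of the least degree. -/
theorem full_half (K : Type) [Field K] (n r : ℕ) (d : Fin r → ℕ) (hn : 1 ≤ n) (δ : ℕ)
    (hδ : 1 ≤ δ) (hd : ∀ i, δ ≤ d i) (hc : 2 ^ (n - 1) ≤ (univ.filter (fun i => d i = δ)).card) :
    ∃ P : MvPolynomial (Io n d) K, P ≠ 0 ∧
      ∀ f : Fin r → MvPolynomial (Fin n) K, (∀ i, (f i).IsHomogeneous (d i)) →
        MvPolynomial.eval (fun s : Io n d => (f s.1).coeff s.2.1) P ≠ 0 →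
        ∀ k : ℕ, hilb f k = fro n d k := by
  classical
  obtain ⟨m, rfl⟩ : ∃ m, n = m + 1 := ⟨n - 1, by omega⟩
  rw [Nat.add_sub_cancel] at hc
  -- the degrees below `2 δ`
  have hA : ∀ k : ℕ, ∃ P : MvPolynomial (Io (m + 1) d) K, P ≠ 0 ∧ (k < 2 * δ →
      ∀ f : Fin r → MvPolynomial (Fin (m + 1)) K, (∀ i, (f i).IsHomogeneous (d i)) →
        MvPolynomial.eval (fun s : Io (m + 1) d => (f s.1).coeff s.2.1) P ≠ 0 →
          min (Fintype.card (Ro (m + 1) k d)) (Mon (m + 1) k).card ≤
            Module.finrank K (ik f k)) := by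
    intro k
    by_cases hk : k < 2 * δ
    · rcases good_or m r δ k d hd hk with h | ⟨h1, h2⟩
      · obtain ⟨P, hP, hP2⟩ := rank_eval2 (m + 1) k r d K hn (h.sub2 hn)
        refine ⟨P, hP, fun _ f hf hfP => ?_⟩
        unfold ik
        rw [hilb_thm (m + 1) k r d K f hf, hP2 _ hfP]
      · obtain ⟨P, hP, hP2⟩ := rank_many m k r δ d K h1 hk.le h2 hc
        refine ⟨P, hP, fun _ f hf hfP => ?_⟩
        unfold ik
        rw [hilb_thm (m + 1) k r d K f hf]
        exact (min_le_right _ _).trans (hP2 _ hfP)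
    · exact ⟨1, one_ne_zero, fun h => absurd h hk⟩
  choose P hP hP2 using hA
  -- the degree `2 δ - 1`
  obtain ⟨T, hT⟩ : ∃ T, T = 2 * δ - 1 := ⟨_, rfl⟩
  have hNT : N m T ≤ 2 ^ m * N m (T - δ) := N_double m T (T - δ) (by omega)
  obtain ⟨Q, hQ, hQ2⟩ := rank_many m T r δ d K (by omega) (by omega) hNT hc
  have hcoT : co (m + 1) d T ≤ 0 := by
    rw [co_thm (m + 1) r T d hn (fun i => by have := hd i; omega) T le_rfl]
    have h1 : (∑ i ∈ univ.filter (fun i => d i = δ), ((Mon (m + 1) (T - δ)).card : ℤ)) ≤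
        ∑ i, (if d i ≤ T then ((Mon (m + 1) (T - d i)).card : ℤ) else 0) := by
      rw [Finset.sum_filter]
      refine Finset.sum_le_sum fun i _ => ?_
      by_cases h : d i = δ
      · rw [if_pos h, if_pos (by omega), h]
      · rw [if_neg h]
        split_ifs
        · exact Int.natCast_nonneg _
        · exact le_rfl
    rw [Finset.sum_const, nsmul_eq_mul, card_Mon_N] at h1
    rw [card_Mon_N]
    have h2 : ((2 ^ m : ℕ) : ℤ) * (N m (T - δ) : ℤ) ≤
        ((univ.filter (fun i => d i = δ)).card : ℤ) * (N m (T - δ) : ℤ) :=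
      mul_le_mul_of_nonneg_right (by exact_mod_cast hc) (Int.natCast_nonneg _)
    have h3 : (N m T : ℤ) ≤ ((2 ^ m : ℕ) : ℤ) * (N m (T - δ) : ℤ) := by exact_mod_cast hNT
    linarith
  refine ⟨Q * ∏ k ∈ Finset.range (2 * δ), P k,
    mul_ne_zero hQ (Finset.prod_ne_zero_iff.2 fun k _ => hP k), fun f hf hfP k => ?_⟩
  rw [map_mul, map_prod] at hfP
  have hfQ := left_ne_zero_of_mul hfP
  have hfR := Finset.prod_ne_zero_iff.1 (right_ne_zero_of_mul hfP)
  rcases Nat.lt_or_ge k T with hk | hk
  · refine hilb_eq K (m + 1) r k d hn (fun i => by have := hd i; omega) f hf ?_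
    exact hP2 k (by omega) f hf (hfR k (Finset.mem_range.2 (by omega)))
  · have h1 : (Mon (m + 1) T).card ≤ Module.finrank K (ik f T) := by
      unfold ik
      rw [hilb_thm (m + 1) T r d K f hf]
      exact hQ2 _ hfQ
    have htop := ik_top_of_card f T h1
    rw [Pool.Agent.TH176.NM.fro_zero_of (m + 1) r T d hcoT k hk]
    exact hilb_zero_of_top f k (ik_top_mono f _ k hk htop)

end Pool.Agent.Y233.Fr
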