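import Pool.Agent.Y233.Fr.Half3
import Pool.Agent.TH176.WL.Main

/-!
Injectivity passes to more variables.
-/

set_option autoImplicit false

namespace Pool.Agent.Y233.Fr

open Finset MvPolynomial Pool.Agent.TH206.Fro Pool.Agent.TH176.FB Pool.Agent.TH176.WL

/-- The multiples of the forms of degree `k` are linearly independent. -/
lemma li_iff {K : Type} [Field K] {n r k : ℕ} {d : Fin r → ℕ}
    (f : Fin r → MvPolynomial (Fin n) K) (hf : ∀ i, (f i).IsHomogeneous (d i)) :
    LinearIndependent K (fun q : Ro n k d => monomial q.2.1 (1 : K) * f q.1) ↔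
      Fintype.card (Ro n k d) ≤ Module.finrank K (ik f k) := by
  rw [linearIndependent_iff_card_le_finrank_span]
  unfold ik
  rw [span_inf_eq' d _ hf]
  rfl

theorem inj_lift {K : Type} [Field K] {n r k : ℕ} {d : Fin r → ℕ}
    (f : Fin r → MvPolynomial (Fin (n + 1)) K) (hf : ∀ i, (f i).IsHomogeneous (d i))
    (hrho : ∀ i, (Pool.Agent.TH176.WL.rho K n (f i)).IsHomogeneous (d i))
    (h1 : Fintype.card (Ro n (k + 1) d) ≤
      Module.finrank K (ik (fun i => Pool.Agent.TH176.WL.rho K n (f i)) (k + 1)))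
    (h2 : Fintype.card (Ro (n + 1) k d) ≤ Module.finrank K (ik f k)) :
    Fintype.card (Ro (n + 1) (k + 1) d) ≤ Module.finrank K (ik f (k + 1)) := by
  classical
  have hli1 := (li_iff _ hrho).2 h1
  have hli2 := (li_iff f hf).2 h2
  refine (li_iff f hf).1 ?_
  rw [Fintype.linearIndependent_iff]
  intro c hc
  have hr : ∑ q : Ro n (k + 1) d, c (Inj_.lift q) •
      (monomial q.2.1 (1 : K) * Pool.Agent.TH176.WL.rho K n (f q.1)) = 0 := by
    have h1 := congrArg (Pool.Agent.TH176.WL.rho K n) hc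
    rw [map_sum, map_zero] at h1
    rw [← h1]
    refine Fintype.sum_of_injective Inj_.lift Inj_.lift_inj _ _ ?_ ?_
    · intro p hp
      have h3 : p.2.1 0 ≠ 0 := fun h0 => hp (Inj_.mem_range_lift p h0)
      rw [map_smul, map_mul, Inj_.rho_monomial_zero _ h3, zero_mul, smul_zero]
    · intro q
      rw [map_smul, map_mul]
      unfold Inj_.lift
      rw [Inj_.rho_monomial_cons]
  have hz : ∀ q : Ro n (k + 1) d, c (Inj_.lift q) = 0 :=
    Fintype.linearIndependent_iff.1 hli1 (fun q => c (Inj_.lift q)) hr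
  have hz' : ∀ p : Ro (n + 1) (k + 1) d, p.2.1 0 = 0 → c p = 0 := by
    intro p hp
    obtain ⟨q, rfl⟩ := Inj_.mem_range_lift p hp
    exact hz q
  -- division by the first variable
  let up : Ro (n + 1) k d → Ro (n + 1) (k + 1) d := fun q =>
    ⟨q.1, ⟨q.2.1 + Finsupp.single 0 1, by
      have := q.2.2
      rw [map_add, Finsupp.degree_single]
      omega⟩⟩
  have hup : Function.Injective up := by
    rintro ⟨i, a, ha⟩ ⟨j, b, hb⟩ h
    simp only [up, Sigma.mk.injEq] at h
    obtain ⟨rfl, h2⟩ := h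
    have h3 := congrArg (fun z => z.1) (eq_of_heq h2)
    simp only at h3
    have h4 := add_right_cancel h3
    subst h4
    rfl
  have hz2 : ∀ q : Ro (n + 1) k d, c (up q) = 0 := by
    refine Fintype.linearIndependent_iff.1 hli2 (fun q => c (up q)) ?_
    apply mul_left_cancel₀ (X_ne_zero (0 : Fin (n + 1)) : (X 0 : MvPolynomial (Fin (n + 1)) K) ≠ 0)
    rw [mul_zero, ← hc, Finset.mul_sum]
    refine Fintype.sum_of_injective up hup _ _ ?_ ?_
    · intro p hp
      by_cases h0 : p.2.1 0 = 0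
      · rw [hz' p h0, zero_smul]
      · exfalso
        apply hp
        have h3 : (p.2.1 - Finsupp.single 0 1) + Finsupp.single 0 1 = p.2.1 := by
          rw [tsub_add_cancel_of_le]
          rw [Finsupp.single_le_iff]
          omega
        have h4 : Finsupp.degree (p.2.1 - Finsupp.single 0 1) + 1 = Finsupp.degree p.2.1 := by
          conv_rhs => rw [← h3]
          rw [map_add, Finsupp.degree_single]
        refine ⟨⟨p.1, ⟨p.2.1 - Finsupp.single 0 1, ?_⟩⟩, ?_⟩
        · have := p.2.2
          omega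
        · obtain ⟨i, a, ha⟩ := p
          simp only [up]
          congr 1
          exact Subtype.ext h3
    · intro q
      have h3' : ∀ a : Fin (n + 1) →₀ ℕ, monomial (a + Finsupp.single 0 1) (1 : K) =
          X 0 * monomial a (1 : K) := fun a => by
        rw [X, monomial_mul, mul_one, add_comm a]
      have h3 := h3' q.2.1
      show X 0 * (c (up q) • (monomial q.2.1 (1 : K) * f q.1)) =
        c (up q) • (monomial (q.2.1 + Finsupp.single 0 1) (1 : K) * f q.1)
      rw [h3, mul_smul_comm, mul_assoc]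
  intro p
  by_cases h0 : p.2.1 0 = 0
  · exact hz' p h0
  · have h3 : (p.2.1 - Finsupp.single 0 1) + Finsupp.single 0 1 = p.2.1 := by
      rw [tsub_add_cancel_of_le]
      rw [Finsupp.single_le_iff]
      omega
    have h4 : Finsupp.degree (p.2.1 - Finsupp.single 0 1) + 1 = Finsupp.degree p.2.1 := by
      conv_rhs => rw [← h3]
      rw [map_add, Finsupp.degree_single]
    have h5 := hz2 ⟨p.1, ⟨p.2.1 - Finsupp.single 0 1, by
      have := p.2.2
      omega⟩⟩
    have h6 : up ⟨p.1, ⟨p.2.1 - Finsupp.single 0 1, by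
        have := p.2.2
        omega⟩⟩ = p := by
      obtain ⟨i, a, ha⟩ := p
      simp only [up]
      congr 1
      exact Subtype.ext h3
    rwa [h6] at h5

/-- The growth of the number of monomials. -/
lemma N_prod (m a : ℕ) : N m a * m.factorial = ∏ i ∈ range m, (a + 1 + i) := by
  unfold N
  rw [mul_comm, ← Nat.ascFactorial_eq_factorial_mul_choose, Nat.ascFactorial_eq_prod_range]

lemma N_large (m z e : ℕ) (he : m + 1 ≤ 2 * e) : 2 ^ m * N m z ≤ N m (2 * z + e) := by
  have h1 := N_prod m z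
  have h2 := N_prod m (2 * z + e)
  have hf : 0 < m.factorial := Nat.factorial_pos m
  refine Nat.le_of_mul_le_mul_right ?_ hf
  rw [mul_assoc, h1, h2]
  refine (Nat.pow_le_pow_iff_left (n := 2) (by norm_num)).1 ?_
  have sq : ∀ g : ℕ → ℕ, (∏ i ∈ range m, g i) ^ 2 = ∏ i ∈ range m, (g i * g (m - 1 - i)) := by
    intro g
    rw [Finset.prod_mul_distrib, Finset.prod_range_reflect, sq]
  have e1 : (2 : ℕ) ^ m = ∏ i ∈ range m, 2 := by simp
  rw [e1, ← Finset.prod_mul_distrib, sq, sq]
  refine Finset.prod_le_prod' fun i hi => ?_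
  have hi' := Finset.mem_range.1 hi
  obtain ⟨j, hj⟩ : ∃ j, m - 1 - i = j := ⟨_, rfl⟩
  rw [hj]
  have hij : i + j + 1 = m := by omega
  have hx : i + j + 2 ≤ 2 * e := by omega
  have h3 : 4 * (i + 1) * (j + 1) ≤ (i + j + 2) * (i + j + 2) := by
    zify
    nlinarith [sq_nonneg ((i : ℤ) - j)]
  have h4 : (i + j + 2) * (i + j + 2) ≤ (2 * e) * (2 * e) := Nat.mul_le_mul hx hx
  have h5 : (i + j + 2) * (i + j + 2) ≤ (2 * e) * (i + j + 2) := Nat.mul_le_mul_right _ hx
  have h6 : z * (i + j + 2) ≤ z * (2 * e) := Nat.mul_le_mul_left _ hx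
  nlinarith

end Pool.Agent.Y233.Fr
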