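import Pool.Agent.Y233.Fr.Cmp3
import Pool.Agent.TH206.Fro.Minor

/-!
The multiples of general forms span: the space orthogonal to the tangent space contains the square
of the annihilator.
-/

set_option autoImplicit false

namespace Pool.Agent.Y233.Fr

open Module MvPolynomial Pool.Agent.TH206.Fro
open scoped Pointwise

/-- The product inequality for spaces of forms with `L S_(d-k) ⊆ R`. -/
def Sub2 (n k d : ℕ) : Prop :=
  ∀ (F : Type) [Field F] (L R : Submodule F (MvPolynomial (Fin n) F)),
    L ≤ homogeneousSubmodule (Fin n) F k → R ≤ homogeneousSubmodule (Fin n) F d →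
    L * homogeneousSubmodule (Fin n) F (d - k) ≤ R →
    0 < finrank F L → finrank F L + (Mon n d).card = finrank F R + (Mon n k).card →
    finrank F L * (Mon n (k + d)).card ≤ finrank F ↥(L * R) * (Mon n k).card

lemma sub2_of_subM {n k d : ℕ} (h : SubM n k d) : Sub2 n k d :=
  fun F _ L R hL hR _ h0 hc => h F L R hL hR h0 hc

lemma fin_hom (n D : ℕ) (K : Type) [Field K] :
    FiniteDimensional K (homogeneousSubmodule (Fin n) K D) := by
  have : Function.Injective ((cf (F := K) (n := n) D).domRestrict
      (homogeneousSubmodule (Fin n) K D)) := by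
    rw [← LinearMap.ker_eq_bot, LinearMap.ker_eq_bot']
    intro x hx
    exact Subtype.ext (cf_inj x.2 hx)
  exact Module.Finite.of_injective _ this

lemma sub2_new {n k d : ℕ} (hn : 1 ≤ n) (hkd : k ≤ d)
    (h : k * n + (d - k) ≤ 2 * k * (d - k) + (d - k) * (d - k)) : Sub2 n k d := by
  intro F _ L R hL hR hLR _ _
  have h1 := prod3_sub n k (d - k) hn h F L hL
  rw [show 2 * k + (d - k) = k + d by omega] at h1
  refine h1.trans (Nat.mul_le_mul_right _ ?_)
  have h2 : L * R ≤ homogeneousSubmodule (Fin n) F (k + d) :=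
    (mul_le_mul' hL hR).trans (homogeneousSubmodule_mul k d)
  have := fin_hom n (k + d) F
  have : FiniteDimensional F ↥(L * R) := Submodule.finiteDimensional_of_le h2
  exact Submodule.finrank_mono (mul_le_mul' le_rfl hLR)

lemma tp_cf {F : Type*} [Field F] {n e : ℕ} (p : MvPolynomial (Fin n) F)
    (hp : p ∈ homogeneousSubmodule (Fin n) F e) : tp (fun m : Dg n e => m.1) (cf e p) = p := by
  have hj : Function.Injective (fun m : Dg n e => m.1) := Subtype.val_injective
  have h1 : tp (fun m : Dg n e => m.1) (cf e p) - p ∈ homogeneousSubmodule (Fin n) F e :=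
    Submodule.sub_mem _ (tp_hom (fun a => a.2) _) hp
  have h2 : cf e (tp (fun m : Dg n e => m.1) (cf e p) - p) = 0 := by
    rw [map_sub, sub_eq_zero]
    funext u
    rw [cf_apply]
    exact coeff_tp hj _ u
  exact sub_eq_zero.1 (cf_inj h1 h2)

variable {n D : ℕ} {β : Type} [Fintype β] (d : β → ℕ) (K : Type) [Field K]

omit [Fintype β] in
lemma TT_le2 (G : Dg n D → MvPolynomial (Io n d) K) (e : ℕ) (he : e ≤ D) (he2 : D ≤ 2 * e)
    (hM : Sub2 n (D - e) e) :
    finrank (KK n d K) (TT d K G) * Fintype.card (Dc n D e) ≤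
      (Hk (fun u => algebraMap _ (KK n d K) (G u)) e).rank * (Mon n D).card := by
  classical
  set g : Dg n D → KK n d K := fun u => algebraMap _ (KK n d K) (G u) with hg
  set H := Hk g e with hH
  let L := (LinearMap.ker (H.transpose).mulVecLin).map (tp (fun a : Dc n D e => a.1))
  let R := (LinearMap.ker H.mulVecLin).map (tp (fun m : Dg n e => m.1))
  have hjL : Function.Injective (fun a : Dc n D e => a.1) := Subtype.val_injective
  have hjR : Function.Injective (fun m : Dg n e => m.1) := Subtype.val_injective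
  have hL1 : finrank (KK n d K) L + H.rank = Fintype.card (Dc n D e) := by
    have h1 := finrank_ker_mulVec H.transpose
    rw [Matrix.rank_transpose] at h1
    rw [← h1]
    congr 1
    exact (LinearEquiv.finrank_eq (Submodule.equivMapOfInjective _ (tp_inj hjL) _)).symm
  have hR1 : finrank (KK n d K) R + H.rank = Fintype.card (Dg n e) := by
    have h1 := finrank_ker_mulVec H
    rw [← h1]
    congr 1
    exact (LinearEquiv.finrank_eq (Submodule.equivMapOfInjective _ (tp_inj hjR) _)).symm
  have hL2 : L ≤ homogeneousSubmodule (Fin n) (KK n d K) (D - e) := by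
    rintro _ ⟨v, _, rfl⟩
    exact tp_hom (fun a => by have := a.2; omega) v
  have hR2 : R ≤ homogeneousSubmodule (Fin n) (KK n d K) e := by
    rintro _ ⟨v, _, rfl⟩
    exact tp_hom (fun a => a.2) v
  have hLR : L * R ≤ homogeneousSubmodule (Fin n) (KK n d K) D := by
    rw [Submodule.mul_le]
    intro p hp q hq
    have h1 := hL2 hp
    have h2 := hR2 hq
    rw [mem_homogeneousSubmodule] at h1 h2 ⊢
    have h3 := h1.mul h2
    rwa [Nat.sub_add_cancel he] at h3
  have hLS : L * homogeneousSubmodule (Fin n) (KK n d K) (e - (D - e)) ≤ R := by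
    rw [Submodule.mul_le]
    rintro _ ⟨v, hv, rfl⟩ y hy
    set x := tp (fun a : Dc n D e => a.1) v with hx
    have hx2 : x ∈ homogeneousSubmodule (Fin n) (KK n d K) (D - e) :=
      tp_hom (fun a => by have := a.2; omega) v
    have hxy : x * y ∈ homogeneousSubmodule (Fin n) (KK n d K) e := by
      rw [mem_homogeneousSubmodule] at hx2 hy ⊢
      have h3 := hx2.mul hy
      rwa [show D - e + (e - (D - e)) = e by omega] at h3
    refine ⟨cf e (x * y), ?_, tp_cf _ hxy⟩
    rw [SetLike.mem_coe, LinearMap.mem_ker]
    funext a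
    rw [Matrix.mulVecLin_apply]
    show ∑ m, H a m * cf e (x * y) m = 0
    -- the functional on `x_a x y`
    have e1 : tp (fun a : Dc n D e => a.1) (Pi.single a (1 : KK n d K)) =
        monomial a.1 (1 : KK n d K) := by
      rw [tp_apply, Finset.sum_eq_single a]
      · rw [Pi.single_eq_same]
      · intro b _ hb
        rw [Pi.single_eq_of_ne hb, monomial_zero]
      · intro h; exact absurd (Finset.mem_univ _) h
    have e2 : lam g (monomial a.1 (1 : KK n d K) * (x * y)) = ∑ m, H a m * cf e (x * y) m := by
      rw [← e1]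
      conv_lhs => rw [← tp_cf _ hxy]
      rw [lam_mul, Finset.sum_eq_single a]
      · refine Finset.sum_congr rfl fun m _ => ?_
        rw [Pi.single_eq_same, one_mul, mul_comm]
        rfl
      · intro b _ hb
        refine Finset.sum_eq_zero fun m _ => ?_
        rw [Pi.single_eq_of_ne hb, zero_mul, zero_mul]
      · intro h; exact absurd (Finset.mem_univ _) h
    have hz : monomial a.1 (1 : KK n d K) * y ∈ homogeneousSubmodule (Fin n) (KK n d K) e := by
      rw [mem_homogeneousSubmodule] at hy ⊢
      have h3 := (isHomogeneous_monomial (R := KK n d K) (1 : KK n d K)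
        (show Finsupp.degree a.1 = D - e by have := a.2; omega)).mul hy
      rwa [show D - e + (e - (D - e)) = e by omega] at h3
    have e3 : monomial a.1 (1 : KK n d K) * (x * y) = x * (monomial a.1 (1 : KK n d K) * y) := by
      ring
    rw [← e2, e3, ← tp_cf _ hz, hx, lam_mul, Finset.sum_comm]
    refine Finset.sum_eq_zero fun m _ => ?_
    have h4 := congrFun (LinearMap.mem_ker.1 hv) m
    simp only [Matrix.mulVecLin_apply, Matrix.mulVec, dotProduct, Matrix.transpose_apply,
      Pi.zero_apply] at h4
    have h5 : ∑ a', v a' * cf e (monomial a.1 (1 : KK n d K) * y) m * g (addE a' m) =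
        cf e (monomial a.1 (1 : KK n d K) * y) m * ∑ a', H a' m * v a' := by
      rw [Finset.mul_sum]
      refine Finset.sum_congr rfl fun a' _ => ?_
      rw [hH]
      unfold Hk
      ring
    rw [h5, h4, mul_zero]
  have horth : finrank (KK n d K) (TT d K G) + finrank (KK n d K) ↥(L * R) ≤ (Mon n D).card := by
    rw [← finrank_map_cf (L * R) hLR, ← card_Dg]
    apply finrank_add_le_of_orth
    rintro y hy _ ⟨x, hx, rfl⟩
    rw [← lam_eq]
    refine Submodule.mul_induction_on hx ?_ ?_
    · rintro _ ⟨v, hv, rfl⟩ _ ⟨w, hw, rfl⟩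
      rw [lam_mul]
      refine orth_TT d K G e v w ?_ ?_ y hy
      · intro m
        have := congrFun (LinearMap.mem_ker.1 hv) m
        simp only [Matrix.mulVecLin_apply, Matrix.mulVec, dotProduct, Matrix.transpose_apply,
          Pi.zero_apply] at this
        rw [← this]
        exact Finset.sum_congr rfl fun a _ => mul_comm _ _
      · intro a
        have := congrFun (LinearMap.mem_ker.1 hw) a
        simp only [Matrix.mulVecLin_apply, Matrix.mulVec, dotProduct,
          Pi.zero_apply] at this
        rw [← this]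
        exact Finset.sum_congr rfl fun a _ => mul_comm _ _
    · intro x z hx hz
      rw [map_add, hx, hz, add_zero]
  rw [card_Dc n D e he] at hL1 ⊢
  rw [card_Dg] at hR1
  rcases Nat.eq_zero_or_pos (finrank (KK n d K) L) with h0 | h0
  · have h1 : H.rank = (Mon n (D - e)).card := by omega
    rw [h1, mul_comm ((Mon n (D - e)).card)]
    exact Nat.mul_le_mul_right _ (by omega)
  · have h1 := hM (KK n d K) L R hL2 hR2 hLS h0 (by omega)
    rw [Nat.sub_add_cancel he] at h1
    obtain ⟨y, hy⟩ : ∃ y, y = finrank (KK n d K) ↥(L * R) := ⟨_, rfl⟩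
    obtain ⟨t, ht⟩ : ∃ t, t = finrank (KK n d K) (TT d K G) := ⟨_, rfl⟩
    rw [← hy] at h1 horth
    rw [← ht] at horth ⊢
    have h2 : (finrank (KK n d K) L + H.rank) * (Mon n D).card =
      (Mon n (D - e)).card * (Mon n D).card := by rw [hL1]
    have h3 : (t + y) * (Mon n (D - e)).card ≤ (Mon n D).card * (Mon n (D - e)).card :=
      Nat.mul_le_mul_right _ horth
    nlinarith

/-- If there are enough forms, then the multiples of the generic forms span. -/
theorem ker_zero2 (hn : 1 ≤ n) (hM : ∀ i, d i ≤ D → D ≤ 2 * d i ∧ Sub2 n (D - d i) (d i))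
    (hc : (Mon n D).card ≤ Fintype.card (Ro n D d))
    (F : Dg n D → KK n d K) (hF : ∀ p, ∑ u, MK n D d K p u * F u = 0) : F = 0 := by
  classical
  by_contra hF0
  have hinj := IsFractionRing.injective (MvPolynomial (Io n d) K) (KK n d K)
  obtain ⟨s, G, hs, hG⟩ := clear_den (R := MvPolynomial (Io n d) K) F
  have hs' : algebraMap _ (KK n d K) s ≠ 0 := fun h => hs (hinj (by rw [h, map_zero]))
  have hG0 : G ≠ 0 := by
    rintro rfl
    apply hF0
    funext u
    have := hG u
    rw [Pi.zero_apply, map_zero] at this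
    exact (mul_eq_zero.1 this.symm).resolve_left hs'
  have hG1 : ∀ p, ∑ u, MX n D d K p u * G u = 0 := by
    intro p
    apply hinj
    rw [map_zero, map_sum]
    have : ∑ u, algebraMap _ (KK n d K) (MX n D d K p u * G u) =
        algebraMap _ (KK n d K) s * ∑ u, MK n D d K p u * F u := by
      rw [Finset.mul_sum]
      refine Finset.sum_congr rfl fun u _ => ?_
      rw [map_mul, hG]
      change MK n D d K p u * _ = _
      ring
    rw [this, hF, mul_zero]
  have h1 := rank_le_TT d K G hG0 hG1
  have h2 : ∀ i, finrank (KK n d K) (TT d K G) * Fintype.card (Dc n D (d i)) ≤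
      (Hk (fun u => algebraMap _ (KK n d K) (G u)) (d i)).rank * (Mon n D).card := by
    intro i
    by_cases h : d i ≤ D
    · exact TT_le2 d K G (d i) h (hM i h).1 (hM i h).2
    · rw [card_Dc' n D (d i) h, mul_zero]
      exact Nat.zero_le _
  have h3 := Finset.sum_le_sum (fun i (_ : i ∈ Finset.univ) => h2 i)
  rw [← Finset.mul_sum, ← Finset.sum_mul] at h3
  have h4 : Fintype.card (Ro n D d) = ∑ i, Fintype.card (Dc n D (d i)) := Fintype.card_sigma
  rw [← h4] at h3
  have h5 : 0 < (Mon n D).card := by
    rw [card_Mon]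
    exact Nat.choose_pos (by omega)
  have h6 := (Nat.mul_le_mul_left (finrank (KK n d K) (TT d K G)) hc).trans h3
  have h7 := Nat.le_of_mul_le_mul_right h6 h5
  omega

lemma rank_MK2 (hn : 1 ≤ n) (hM : ∀ i, d i ≤ D → D ≤ 2 * d i ∧ Sub2 n (D - d i) (d i))
    (hc : (Mon n D).card ≤ Fintype.card (Ro n D d)) :
    (MK n D d K).rank = (Mon n D).card := by
  have h1 := finrank_ker_mulVec (MK n D d K)
  have h2 : LinearMap.ker (MK n D d K).mulVecLin = ⊥ := by
    rw [LinearMap.ker_eq_bot']
    intro F hF
    exact ker_zero2 d K hn hM hc F (fun p => congrFun hF p)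
  rw [h2, finrank_bot, zero_add, card_Dg] at h1
  exact h1

/-- A nonzero minor of maximal size of the generic matrix. -/
theorem minor2 (n D : ℕ) (hn : 1 ≤ n) (β : Type) [Fintype β] (d : β → ℕ) (K : Type) [Field K]
    (hM : ∀ i, d i ≤ D → D ≤ 2 * d i ∧ Sub2 n (D - d i) (d i)) :
    ∃ (f : Fin (min (Fintype.card (Ro n D d)) (Mon n D).card) → Ro n D d)
      (g : Fin (min (Fintype.card (Ro n D d)) (Mon n D).card) → Dg n D),
      ((MX n D d K).submatrix f g).det ≠ 0 := by
  classical
  rcases le_or_gt (Mon n D).card (Fintype.card (Ro n D d)) with hc | hc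
  · have hr := rank_MK2 d K hn hM hc
    obtain ⟨f, g, hfg⟩ := exists_minor (MK n D d K)
      (min (Fintype.card (Ro n D d)) (Mon n D).card) (by rw [hr]; exact min_le_right _ _)
    refine ⟨f, g, fun h0 => hfg ?_⟩
    have h1 : (MK n D d K).submatrix f g =
        (algebraMap (MvPolynomial (Io n d) K) (KK n d K)).mapMatrix
          ((MX n D d K).submatrix f g) := by
      ext i j
      rfl
    rw [h1, ← RingHom.map_det, h0, map_zero]
  · obtain ⟨s, hs⟩ : ∃ s, (Mon n D).card = Fintype.card (Ro n D d) + s :=
      ⟨(Mon n D).card - Fintype.card (Ro n D d), by omega⟩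
    set d' : β ⊕ Fin s → ℕ := Sum.elim d (fun _ : Fin s => D) with hd'
    have hcard : Fintype.card (Ro n D d') = (Mon n D).card := by
      rw [Fintype.card_sigma, Fintype.sum_sum_type, hs]
      have e1 : ∑ i : β, Fintype.card (Dc n D (d' (Sum.inl i))) = Fintype.card (Ro n D d) :=
        (Fintype.card_sigma).symm
      have e2 : ∀ i : Fin s, Fintype.card (Dc n D (d' (Sum.inr i))) = 1 := by
        intro i
        show Fintype.card (Dc n D D) = 1
        rw [card_Dc n D D le_rfl, Nat.sub_self, card_Mon, Nat.choose_zero_right]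
      rw [e1]
      simp only [e2]
      simp
    have hM' : ∀ i, d' i ≤ D → D ≤ 2 * d' i ∧ Sub2 n (D - d' i) (d' i) := by
      rintro (i | i) hi
      · exact hM i hi
      · show D ≤ 2 * D ∧ Sub2 n (D - D) D
        rw [Nat.sub_self]
        exact ⟨by omega, sub2_of_subM (subM_of_monM init_thm (MonM_zero n D))⟩
    have hr := rank_MK2 d' K hn hM' hcard.ge
    have hli : LinearIndependent (KK n d' K) (MK n D d' K).row := by
      rw [linearIndependent_iff_card_eq_finrank_span, hcard, ← hr,
        Matrix.rank_eq_finrank_span_row]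
      rfl
    have hli2 := hli.comp _ (embR_injective (n := n) (D := D) d s)
    have hrB : ((MK n D d' K).submatrix (embR n D d s) id).rank = Fintype.card (Ro n D d) := by
      have h2 : LinearIndependent (KK n d' K) ((MK n D d' K).submatrix (embR n D d s) id).row :=
        hli2
      rw [h2.rank_matrix]
    obtain ⟨f, g, hfg⟩ := exists_minor ((MK n D d' K).submatrix (embR n D d s) id)
      (min (Fintype.card (Ro n D d)) (Mon n D).card) (by rw [hrB]; exact min_le_left _ _)
    refine ⟨f, g, fun h0 => hfg ?_⟩
    have h1 : (((MK n D d' K).submatrix (embR n D d s) id).submatrix f g) =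
        ((algebraMap (MvPolynomial (Io n d') K) (KK n d' K)).comp
          (rename (R := K) (embI n D d s) : MvPolynomial (Io n d) K →ₐ[K]
            MvPolynomial (Io n d') K).toRingHom).mapMatrix ((MX n D d K).submatrix f g) := by
      ext i j
      show algebraMap _ _ (MX n D d' K (embR n D d s (f i)) (g j)) = _
      exact congrArg (algebraMap _ _) (MX_emb d K s (f i) (g j))
    rw [h1, ← RingHom.map_det, h0, map_zero]

theorem rank_eval2 (n D r : ℕ) (d : Fin r → ℕ) (K : Type) [Field K] (hn : 1 ≤ n)
    (hM : ∀ i, d i ≤ D → D ≤ 2 * d i ∧ Sub2 n (D - d i) (d i)) :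
    ∃ P : MvPolynomial (Io n d) K, P ≠ 0 ∧ ∀ t : Io n d → K, MvPolynomial.eval t P ≠ 0 →
      (Mx d D t).rank = min (Fintype.card (Ro n D d)) (Mon n D).card := by
  classical
  obtain ⟨f, g, hfg⟩ := minor2 n D hn (Fin r) d K hM
  refine ⟨_, hfg, fun t ht => ?_⟩
  apply le_antisymm
  · rw [← card_Dg]
    exact le_min (Matrix.rank_le_card_height _) (Matrix.rank_le_card_width _)
  · have h1 : MvPolynomial.eval t ((MX n D d K).submatrix f g).det =
        ((Mx d D t).submatrix f g).det := by
      rw [RingHom.map_det]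
      congr 1
      ext i j
      simp only [RingHom.mapMatrix_apply, Matrix.map_apply, Matrix.submatrix_apply]
      unfold MX Mx
      split_ifs with h
      · exact MvPolynomial.eval_X _
      · exact map_zero _
    rw [h1] at ht
    exact rank_ge_of_minor _ _ f g ht

end Pool.Agent.Y233.Fr
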