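import Pool.Agent.Y233.Fr.Core
import Pool.Agent.TH206.Fro.Defs

/-!
Monomials and points of the chamber.
-/

set_option autoImplicit false

namespace Pool.Agent.Y233.Fr

open Finset Pool.Agent.TH206.Fro
open scoped Pointwise

/-- The degree in the variables from `x_t` on. -/
def Wt {m : ℕ} (c : Fin (m + 1) →₀ ℕ) (t : ℕ) : ℕ := ∑ i : Fin (m + 1), if t ≤ i.val then c i else 0

lemma Wt_rec {m : ℕ} (c : Fin (m + 1) →₀ ℕ) (i : Fin (m + 1)) :
    Wt c i.val = c i + Wt c (i.val + 1) := by
  unfold Wt
  have h1 : ∀ j : Fin (m + 1), (if i.val ≤ j.val then c j else 0) =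
      (if j = i then c j else 0) + (if i.val + 1 ≤ j.val then c j else 0) := by
    intro j
    by_cases h : j = i
    · subst h
      simp
    · have h2 : j.val ≠ i.val := fun h' => h (Fin.ext h')
      rw [if_neg h, zero_add]
      by_cases h3 : i.val ≤ j.val
      · rw [if_pos h3, if_pos (by omega)]
      · rw [if_neg h3, if_neg (by omega)]
  rw [Finset.sum_congr rfl fun j _ => h1 j, Finset.sum_add_distrib]
  simp

lemma Wt_top {m : ℕ} (c : Fin (m + 1) →₀ ℕ) : Wt c (m + 1) = 0 := by
  unfold Wt
  refine Finset.sum_eq_zero fun i _ => ?_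
  rw [if_neg (by have := i.2; omega)]

lemma Wt_zero {m k : ℕ} {c : Fin (m + 1) →₀ ℕ} (hc : c ∈ Mon (m + 1) k) : Wt c 0 = k := by
  unfold Wt
  rw [← mem_Mon.1 hc]
  simp

lemma Wt_add {m : ℕ} (c c' : Fin (m + 1) →₀ ℕ) (t : ℕ) : Wt (c + c') t = Wt c t + Wt c' t := by
  unfold Wt
  rw [← Finset.sum_add_distrib]
  refine Finset.sum_congr rfl fun i _ => ?_
  split_ifs <;> simp

lemma Wt_anti {m : ℕ} (c : Fin (m + 1) →₀ ℕ) : Antitone (Wt c) := by
  intro s t hst
  unfold Wt
  refine Finset.sum_le_sum fun i _ => ?_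
  by_cases h : t ≤ i.val
  · rw [if_pos h, if_pos (hst.trans h)]
  · rw [if_neg h]
    exact Nat.zero_le _

lemma Wt_single {m : ℕ} (i : Fin (m + 1)) (t : ℕ) :
    Wt (Finsupp.single i 1) t = if t ≤ i.val then 1 else 0 := by
  unfold Wt
  rw [Finset.sum_eq_single i]
  · simp
  · intro j _ hj
    rw [Finsupp.single_eq_of_ne hj]
    simp
  · intro h
    exact absurd (Finset.mem_univ _) h

/-- The point of a monomial. -/
def Z {m : ℕ} (c : Fin (m + 1) →₀ ℕ) : Fin m → ℕ := fun j => Wt c (j.val + 1)

lemma Z_add {m : ℕ} (c c' : Fin (m + 1) →₀ ℕ) (j : Fin m) : Z (c + c') j = Z c j + Z c' j :=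
  Wt_add _ _ _

lemma Z_inj {m k : ℕ} {c c' : Fin (m + 1) →₀ ℕ} (hc : c ∈ Mon (m + 1) k)
    (hc' : c' ∈ Mon (m + 1) k) (h : Z c = Z c') : c = c' := by
  have h1 : ∀ t, t ≤ m + 1 → Wt c t = Wt c' t := by
    intro t ht
    rcases Nat.eq_zero_or_pos t with h0 | h0
    · rw [h0, Wt_zero hc, Wt_zero hc']
    · rcases Nat.lt_or_ge t (m + 1) with h2 | h2
      · have h3 := congrFun h ⟨t - 1, by omega⟩
        unfold Z at h3
        simp only at h3
        rwa [show t - 1 + 1 = t by omega] at h3
      · rw [show t = m + 1 by omega, Wt_top, Wt_top]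
  ext i
  have h2 := Wt_rec c i
  have h3 := Wt_rec c' i
  rw [h1 _ (by have := i.2; omega), h1 (i.val + 1) (by have := i.2; omega)] at h2
  omega

lemma Z_in {m k : ℕ} {c : Fin (m + 1) →₀ ℕ} (hc : c ∈ Mon (m + 1) k) : In k (Z c) := by
  refine ⟨fun j => ?_, fun a b hab => ?_⟩
  · rw [← Wt_zero hc]
    exact Wt_anti c (Nat.zero_le _)
  · exact Wt_anti c (by have : a.val ≤ b.val := hab; omega)

lemma Z_surj {m k : ℕ} {z : Fin m → ℕ} (hz : In k z) : ∃ c ∈ Mon (m + 1) k, Z c = z := by
  let w : ℕ → ℕ := fun t => if t = 0 then k else if h : t - 1 < m then z ⟨t - 1, h⟩ else 0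
  have hw0 : w 0 = k := rfl
  have hwz : ∀ j : Fin m, w (j.val + 1) = z j := by
    intro j
    show (if j.val + 1 = 0 then k else if h : j.val + 1 - 1 < m then z ⟨j.val + 1 - 1, h⟩ else 0) = _
    rw [if_neg (by omega), dif_pos (by have := j.2; omega)]
    congr 1
  have hwt : w (m + 1) = 0 := by
    show (if m + 1 = 0 then k else if h : m + 1 - 1 < m then z ⟨m + 1 - 1, h⟩ else 0) = _
    rw [if_neg (by omega), dif_neg (by omega)]
  have hws : ∀ t, t ≤ m → w (t + 1) ≤ w t := by
    intro t ht
    rcases Nat.lt_or_ge t m with h2 | h2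
    · have e1 := hwz ⟨t, h2⟩
      simp only at e1
      rw [e1]
      rcases Nat.eq_zero_or_pos t with h0 | h0
      · subst h0
        exact hz.1 _
      · have e2 := hwz ⟨t - 1, by omega⟩
        simp only at e2
        rw [show t - 1 + 1 = t by omega] at e2
        rw [e2]
        exact hz.2 (Fin.mk_le_mk.2 (by omega))
    · rw [show t + 1 = m + 1 by omega, hwt]
      exact Nat.zero_le _
  obtain ⟨c, hc⟩ : ∃ c : Fin (m + 1) →₀ ℕ, ∀ i, c i = w i.val - w (i.val + 1) :=
    ⟨Finsupp.equivFunOnFinite.symm (fun i => w i.val - w (i.val + 1)), fun i => rfl⟩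
  have h1 : ∀ s t, t + s = m + 1 → Wt c t = w t := by
    intro s
    induction s with
    | zero =>
      intro t ht
      rw [show t = m + 1 by omega, Wt_top, hwt]
    | succ s ih =>
      intro t ht
      have h2 := Wt_rec c ⟨t, by omega⟩
      simp only at h2
      rw [h2, hc, ih (t + 1) (by omega)]
      have := hws t (by omega)
      simp only
      omega
  refine ⟨c, ?_, ?_⟩
  · have h2 := h1 (m + 1) 0 (by omega)
    rw [hw0] at h2
    rw [mem_Mon, ← h2]
    unfold Wt
    simp
  · funext j
    show Wt c (j.val + 1) = z j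
    rw [h1 (m - j.val) (j.val + 1) (by have := j.2; omega), hwz]

/-- Strongly stable sets are lower sets. -/
lemma stable_low {m k : ℕ} {A : Finset (Fin (m + 1) →₀ ℕ)} (hA : A ⊆ Mon (m + 1) k)
    (sA : Stable A) : ∀ (s : ℕ) (c c' : Fin (m + 1) →₀ ℕ), ∑ j, Z c j ≤ s → c ∈ A →
      c' ∈ Mon (m + 1) k → Z c' ≤ Z c → c' ∈ A := by
  intro s
  induction s with
  | zero =>
    intro c c' hs hc hc' hle
    have h1 : Z c' = Z c := by
      refine le_antisymm hle fun j => ?_
      have h2 : Z c j ≤ ∑ j, Z c j := Finset.single_le_sum (fun _ _ => Nat.zero_le _)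
        (Finset.mem_univ j)
      exact (h2.trans hs).trans (Nat.zero_le _)
    rwa [Z_inj hc' (hA hc) h1]
  | succ s ih =>
    intro c c' hs hc hc' hle
    by_cases heq : Z c' = Z c
    · rwa [Z_inj hc' (hA hc) heq]
    · have h1 : ∃ l, Z c' l < Z c l := by
        by_contra hcon
        push Not at hcon
        exact heq (le_antisymm hle hcon)
      obtain ⟨l0, hl0⟩ := h1
      obtain ⟨l, hl, hmax⟩ := Finset.exists_max_image
        (Finset.univ.filter fun l => Z c' l < Z c l) (fun l : Fin m => l.val)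
        ⟨l0, by simp [hl0]⟩
      rw [Finset.mem_filter] at hl
      have hl1 := hl.2
      have h2 : Wt c (l.val + 1 + 1) < Wt c (l.val + 1) := by
        rcases Nat.lt_or_ge (l.val + 1) m with h3 | h3
        · have h4 : ¬ (Z c' ⟨l.val + 1, h3⟩ < Z c ⟨l.val + 1, h3⟩) := by
            intro h5
            have h6 := hmax ⟨l.val + 1, h3⟩ (by simp [h5])
            simp only at h6
            omega
          have h5 : Z c' ⟨l.val + 1, h3⟩ ≤ Z c' l := Wt_anti c' (by simp)
          have h6 : Z c ⟨l.val + 1, h3⟩ = Wt c (l.val + 1 + 1) := rfl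
          have h7 : Z c l = Wt c (l.val + 1) := rfl
          omega
        · rw [show l.val + 1 + 1 = m + 1 by have := l.2; omega, Wt_top]
          have h7 : Z c l = Wt c (l.val + 1) := rfl
          omega
      have h3 : 0 < c l.succ := by
        have h4 := Wt_rec c l.succ
        rw [Fin.val_succ] at h4
        omega
      obtain ⟨c1, hc1⟩ : ∃ c1, c1 = mv l.castSucc l.succ c := ⟨_, rfl⟩
      have h4 : c1 ∈ A := by
        rw [hc1]
        exact sA c hc l.castSucc l.succ (Fin.castSucc_lt_succ) h3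
      have h5 : c1 + Finsupp.single l.succ 1 = c + Finsupp.single l.castSucc 1 := by
        rw [hc1]
        unfold mv
        have h6 : Finsupp.single l.succ 1 ≤ c := by
          rw [Finsupp.single_le_iff]
          exact h3
        rw [add_right_comm, tsub_add_cancel_of_le h6]
      have h6 : ∀ t, Wt c1 t + (if t ≤ l.val + 1 then 1 else 0) =
          Wt c t + (if t ≤ l.val then 1 else 0) := by
        intro t
        have h7 := congrArg (fun x => Wt x t) h5
        simp only [Wt_add, Wt_single] at h7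
        rw [Fin.val_succ, Fin.val_castSucc] at h7
        exact h7
      have h7 : ∀ j : Fin m, Z c1 j + (if j = l then 1 else 0) = Z c j := by
        intro j
        have h8 := h6 (j.val + 1)
        show Wt c1 (j.val + 1) + _ = Wt c (j.val + 1)
        by_cases hj : j = l
        · subst hj
          rw [if_pos rfl]
          rw [if_pos le_rfl, if_neg (by omega)] at h8
          omega
        · have hj' : j.val ≠ l.val := fun h => hj (Fin.ext h)
          rw [if_neg hj]
          by_cases hj2 : j.val < l.val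
          · rw [if_pos (by omega), if_pos (by omega)] at h8
            omega
          · rw [if_neg (by omega), if_neg (by omega)] at h8
            omega
      have h8 : ∑ j, Z c1 j + 1 = ∑ j, Z c j := by
        have h9 : ∑ j : Fin m, (Z c1 j + (if j = l then 1 else 0)) = ∑ j, Z c j :=
          Finset.sum_congr rfl fun j _ => h7 j
        rw [Finset.sum_add_distrib, Finset.sum_ite_eq' Finset.univ l (fun _ => 1),
          if_pos (Finset.mem_univ _)] at h9
        exact h9
      refine ih c1 c' (by omega) h4 hc' fun j => ?_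
      have h9 := h7 j
      have h10 : Z c' j ≤ Z c j := hle j
      show Z c' j ≤ Z c1 j
      by_cases hj : j = l
      · subst hj
        rw [if_pos rfl] at h9
        omega
      · rw [if_neg hj] at h9
        omega

lemma card_Mon_N (m k : ℕ) : (Mon (m + 1) k).card = N m k := by
  rw [card_Mon, show m + 1 + k - 1 = k + m by omega]
  exact Nat.choose_symm_add

/-- The product inequality for strongly stable sets. -/
theorem prod3 (m k e : ℕ) (he : H m e k) (A : Finset (Fin (m + 1) →₀ ℕ))
    (hA : A ⊆ Mon (m + 1) k) (sA : Stable A) :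
    A.card * (Mon (m + 1) (2 * k + e)).card ≤
      (A + A + Mon (m + 1) e).card * (Mon (m + 1) k).card := by
  classical
  obtain ⟨p, hp⟩ : ∃ p : (Fin m → ℕ) → Prop, ∀ z, p z ↔ ∃ c ∈ A, Z c = z := ⟨_, fun _ => Iff.rfl⟩
  have hlow : Low m k p := by
    intro z w _ hw hwz hpz
    obtain ⟨c, hc, rfl⟩ := (hp z).1 hpz
    obtain ⟨c', hc', rfl⟩ := Z_surj hw
    exact (hp _).2 ⟨c', stable_low hA sA _ c c' le_rfl hc hc' hwz, rfl⟩
  have h1 := PP m e k he p hlow
  have h2 : ct m k p = A.card := by
    unfold ct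
    have h3 : (Ch m k).filter p = A.image Z := by
      ext z
      rw [mem_filter, mem_Ch, mem_image, hp]
      constructor
      · exact fun h => h.2
      · rintro ⟨c, hc, rfl⟩
        exact ⟨Z_in (hA hc), c, hc, rfl⟩
    have h4 : (A.image Z).card = A.card :=
      Finset.card_image_of_injOn fun c hc c' hc' h => Z_inj (hA hc) (hA hc') h
    rw [← h4, ← h3]
  have h3 : ct m (2 * k + e) (fun z => p (fun j => rho e (z j))) ≤
      (A + A + Mon (m + 1) e).card := by
    unfold ct
    refine le_trans (Finset.card_le_card ?_)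
      (Finset.card_image_le (s := A + A + Mon (m + 1) e) (f := Z))
    intro u hu
    rw [mem_filter, mem_Ch] at hu
    obtain ⟨hu1, hu2⟩ := hu
    obtain ⟨c, hc, hcu⟩ := (hp _).1 hu2
    obtain ⟨c2, hc2, hcu2⟩ := Z_surj (m := m) (k := k) (z := fun j => (u j - e) / 2) ⟨fun j => by
        have := hu1.1 j
        show (u j - e) / 2 ≤ k
        omega, fun a b hab => by
        have := hu1.2 hab
        show (u b - e) / 2 ≤ (u a - e) / 2
        omega⟩
    obtain ⟨c3, hc3, hcu3⟩ := Z_surj (m := m) (k := e) (z := fun j => min (u j) e) ⟨fun j =>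
        min_le_right _ _, fun a b hab => min_le_min_right _ (hu1.2 hab)⟩
    have hc2' : c2 ∈ A := by
      refine stable_low hA sA _ c c2 le_rfl hc hc2 ?_
      rw [hcu, hcu2]
      intro j
      show (u j - e) / 2 ≤ rho e (u j)
      unfold rho
      omega
    rw [mem_image]
    refine ⟨c + c2 + c3, Finset.add_mem_add (Finset.add_mem_add hc hc2') hc3, ?_⟩
    funext j
    rw [Z_add, Z_add, hcu, hcu2, hcu3]
    show rho e (u j) + (u j - e) / 2 + min (u j) e = u j
    unfold rho
    omega
  rw [h2] at h1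
  rw [card_Mon_N, card_Mon_N]
  exact h1.trans (Nat.mul_le_mul_right _ h3)

end Pool.Agent.Y233.Fr
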